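import Pool.Agent.Lib.MP_a267a3_lc.AbsA

/-!
# MP_a267a3_lc, transcendence degree one: the closure system without independent points

Copy of AbsA, AbsB, AbsC where the field `good` (two independent points) is replaced by the
exchange property over the sets with fewer than `n` points (structure `ExSetup`).
-/

set_option autoImplicit false

namespace Pool.Agent.MPa267.D1

variable {X : Type*}

/-- the exchange property over `A` -/
def Exch (H : Subgroup (Equiv.Perm X)) (𝒮 : Set (Set X)) (A : Set X) : Prop :=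
  ∀ x y, y ∈ cl H 𝒮 (insert x A) → y ∉ cl H 𝒮 A → x ∈ cl H 𝒮 (insert y A)

/-- abstract hypotheses -/
structure AbsSetup (H : Subgroup (Equiv.Perm X)) (𝒮 : Set (Set X)) (P0 : Set X) (n : ℕ) :
    Prop where
  jor : ∀ P ∈ 𝒮, Jor H P
  cov : ∀ P ∈ 𝒮, ∀ Q ∈ 𝒮, ∀ h ∈ H, ∃ x, h x ∉ P ∧ x ∉ Q
  mem : P0 ∈ 𝒮
  inf : P0.Infinite
  trans : MT H n
  ntrans : ¬ MT H (n + 1)
  three : 3 ≤ n

/-- the exchange property is invariant under `H` -/
theorem exch_image {H : Subgroup (Equiv.Perm X)} {𝒮 : Set (Set X)} {h : Equiv.Perm X}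
    (hh : h ∈ H) {A : Set X} (hA : Exch H 𝒮 A) : Exch H 𝒮 (h '' A) := by
  intro x y hy hy'
  have hhi := H.inv_mem hh
  have e1 : ∀ z : X, (h⁻¹ : Equiv.Perm X) '' (insert z (h '' A)) = insert (h⁻¹ z) A := by
    intro z
    rw [Set.image_insert_eq]
    congr 1
    rw [← Set.image_comp]
    have : (h⁻¹ : Equiv.Perm X) ∘ h = id := by
      funext y; exact h.symm_apply_apply y
    rw [this, Set.image_id]
  have e0 : (h⁻¹ : Equiv.Perm X) '' (h '' A) = A := by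
    rw [← Set.image_comp]
    have : (h⁻¹ : Equiv.Perm X) ∘ h = id := by
      funext y; exact h.symm_apply_apply y
    rw [this, Set.image_id]
  have h1 : h⁻¹ y ∈ cl H 𝒮 (insert (h⁻¹ x) A) := by
    rw [← e1, ← image_cl hhi]; exact ⟨y, hy, rfl⟩
  have h2 : h⁻¹ y ∉ cl H 𝒮 A := by
    intro h3
    apply hy'
    rw [← image_cl hh]
    exact ⟨_, h3, h.apply_symm_apply y⟩
  have h3 := hA _ _ h1 h2
  rw [← e1, ← image_cl hhi] at h3
  obtain ⟨z, hz, hzx⟩ := h3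
  rwa [h⁻¹.injective hzx] at hz

namespace AbsSetup

variable {H : Subgroup (Equiv.Perm X)} {𝒮 : Set (Set X)} {P0 : Set X} {n : ℕ}

lemma mem_JJ_of_mem (s : AbsSetup H 𝒮 P0 n) {P : Set X} (hP : P ∈ 𝒮) : P ∈ JJ H 𝒮 :=
  ⟨⟨1, one_mem _, P, hP, fun _ hs => hs⟩, s.jor P hP⟩

/-- two members of `JJ` never cover `X` -/
lemma exists_not_mem_two (s : AbsSetup H 𝒮 P0 n) {S T : Set X} (hS : S ∈ JJ H 𝒮)
    (hT : T ∈ JJ H 𝒮) : ∃ x, x ∉ S ∧ x ∉ T := by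
  obtain ⟨⟨h₁, hh₁, P, hP, hSP⟩, -⟩ := hS
  obtain ⟨⟨h₂, hh₂, Q, hQ, hTQ⟩, -⟩ := hT
  obtain ⟨x, hx1, hx2⟩ := s.cov P hP Q hQ (h₁ * h₂⁻¹) (H.mul_mem hh₁ (H.inv_mem hh₂))
  refine ⟨h₂⁻¹ x, fun h => hx1 (hSP _ h), fun h => hx2 ?_⟩
  have := hTQ _ h
  have h3 : h₂ (h₂⁻¹ x) = x := h₂.apply_symm_apply x
  rwa [h3] at this

/-- the closure of a small set is a small Jordan complement -/
theorem cl_mem_JJ (s : AbsSetup H 𝒮 P0 n) {A : Set X} (hA : Small H 𝒮 A) : cl H 𝒮 A ∈ JJ H 𝒮 := by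
  obtain ⟨h, hh, P, hP, hAP⟩ := hA
  have hPJ := s.mem_JJ_of_mem hP
  have hS0 : (h⁻¹ : Equiv.Perm X) '' P ∈ JJ H 𝒮 := image_mem_JJ hPJ (H.inv_mem hh)
  have hAS : A ⊆ (h⁻¹ : Equiv.Perm X) '' P := fun a ha => ⟨h a, hAP a ha, h.symm_apply_apply a⟩
  refine ⟨?_, ?_⟩
  · refine ⟨h, hh, P, hP, ?_⟩
    intro x hx
    obtain ⟨y, hy, hyx⟩ := hx _ hS0 hAS
    have h3 : h x = y := by rw [← hyx]; exact h.apply_symm_apply y
    rw [h3]; exact hy
  · intro x hx y hy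
    simp only [cl, Set.mem_ofPred_eq, not_forall] at hx hy
    obtain ⟨S₁, hS₁, hA₁, hx⟩ := hx
    obtain ⟨S₂, hS₂, hA₂, hy⟩ := hy
    obtain ⟨w, hw1, hw2⟩ := s.exists_not_mem_two hS₁ hS₂
    obtain ⟨h₁, hh₁, hf₁, hx₁⟩ := hS₁.2 x hx w hw1
    obtain ⟨h₂, hh₂, hf₂, hx₂⟩ := hS₂.2 w hw2 y hy
    refine ⟨h₂ * h₁, H.mul_mem hh₂ hh₁, ?_, ?_⟩
    · intro a ha
      rw [Equiv.Perm.mul_apply, hf₁ a (ha _ hS₁ hA₁), hf₂ a (ha _ hS₂ hA₂)]
    · rw [Equiv.Perm.mul_apply, hx₁, hx₂]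

/-- the closure of a set which is not small is everything -/
theorem cl_eq_univ (s : AbsSetup H 𝒮 P0 n) {A : Set X} (hA : ¬ Small H 𝒮 A) :
    cl H 𝒮 A = Set.univ := by
  rw [Set.eq_univ_iff_forall]
  intro x S hS hAS
  exfalso
  apply hA
  obtain ⟨⟨h, hh, P, hP, hSP⟩, -⟩ := hS
  exact ⟨h, hh, P, hP, fun a ha => hSP a (hAS ha)⟩

/-- sets with at most `n` points are small -/
theorem exists_move_into (s : AbsSetup H 𝒮 P0 n) (A : Finset X) (hA : A.card ≤ n) :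
    ∃ h ∈ H, ∀ a ∈ A, h a ∈ P0 := by
  classical
  obtain ⟨B, hB, hBc⟩ := s.inf.exists_subset_card_eq A.card
  obtain ⟨e⟩ : Nonempty (A ≃ B) := Fintype.card_eq.1 (by simp [hBc])
  obtain ⟨h, hh, hf⟩ := s.trans A (fun x => if hx : x ∈ A then (e ⟨x, hx⟩ : X) else x) hA (by
    intro x hx y hy hxy
    have hx' : x ∈ A := hx
    have hy' : y ∈ A := hy
    simp only [hx', hy', dif_pos] at hxy
    have := e.injective (Subtype.ext hxy)
    exact congrArg Subtype.val this)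
  refine ⟨h, hh, ?_⟩
  intro a ha
  rw [hf a ha, dif_pos ha]
  exact hB (e ⟨a, ha⟩).2

theorem small_of_card_le (s : AbsSetup H 𝒮 P0 n) (A : Finset X) (hA : A.card ≤ n) :
    Small H 𝒮 (A : Set X) := by
  obtain ⟨h, hh, hf⟩ := s.exists_move_into A hA
  exact ⟨h, hh, P0, s.mem, fun a ha => hf a ha⟩

theorem small_of_mem_JJ_of_subset {A S : Set X} (hS : S ∈ JJ H 𝒮) (hA : A ⊆ S) :
    Small H 𝒮 A := by
  obtain ⟨⟨h, hh, P, hP, hSP⟩, -⟩ := hS
  exact ⟨h, hh, P, hP, fun a ha => hSP a (hA ha)⟩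

theorem cl_mem_JJ_of_not_mem (s : AbsSetup H 𝒮 P0 n) {A : Set X} {x : X}
    (hx : x ∉ cl H 𝒮 A) : cl H 𝒮 A ∈ JJ H 𝒮 := by
  apply s.cl_mem_JJ
  by_contra h
  rw [s.cl_eq_univ h] at hx
  exact hx (Set.mem_univ _)

/-- the closure is invariant under elements fixing the generators -/
theorem mem_cl_of_fix {h : Equiv.Perm X} (hh : h ∈ H) {A : Set X} (hA : ∀ a ∈ A, h a = a)
    {x y : X} (hy : y ∈ cl H 𝒮 (insert x A)) : h y ∈ cl H 𝒮 (insert (h x) A) := by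
  have h1 : h y ∈ h '' (cl H 𝒮 (insert x A)) := ⟨y, hy, rfl⟩
  rw [image_cl hh] at h1
  have h2 : h '' (insert x A) = insert (h x) A := by
    rw [Set.image_insert_eq]
    congr 1
    ext z
    constructor
    · rintro ⟨a, ha, rfl⟩; rwa [hA a ha]
    · intro hz; exact ⟨z, hz, hA z hz⟩
  rwa [h2] at h1

/-- two independent points over `A` give the exchange property over `A` -/
theorem exch_of_indep (s : AbsSetup H 𝒮 P0 n) {A : Set X} {t u : X} (ht : t ∉ cl H 𝒮 A)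
    (hu : u ∉ cl H 𝒮 (insert t A)) (htu : t ∉ cl H 𝒮 (insert u A)) : Exch H 𝒮 A := by
  intro x y hy hy'
  by_contra hx
  have hclA := s.cl_mem_JJ_of_not_mem hy'
  obtain ⟨h₁, hh₁, hf₁, hyt⟩ := hclA.2 y hy' t ht
  have hf₁' : ∀ a ∈ A, h₁ a = a := fun a ha => hf₁ a (subset_cl A ha)
  have h1 : t ∈ cl H 𝒮 (insert (h₁ x) A) := by
    have := mem_cl_of_fix hh₁ hf₁' hy
    rwa [hyt] at this
  have h2 : h₁ x ∉ cl H 𝒮 (insert t A) := by
    intro h3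
    apply hx
    have h4 := mem_cl_of_fix (H := H) (𝒮 := 𝒮) (H.inv_mem hh₁) (A := A) (fun a ha => by
      have : h₁⁻¹ (h₁ a) = a := h₁.symm_apply_apply a
      rwa [hf₁' a ha] at this) h3
    have h5 : h₁⁻¹ (h₁ x) = x := h₁.symm_apply_apply x
    have h6 : h₁⁻¹ t = y := by rw [← hyt]; exact h₁.symm_apply_apply y
    rwa [h5, h6] at h4
  have hclt := s.cl_mem_JJ_of_not_mem hu
  obtain ⟨h₂, hh₂, hf₂, hxu⟩ := hclt.2 _ h2 u hu
  have h3 := mem_cl_of_fix hh₂ (A := A) (fun a ha =>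
    hf₂ a (subset_cl _ (Set.mem_insert_of_mem _ ha))) h1
  rw [hxu, hf₂ t (subset_cl _ (Set.mem_insert _ _))] at h3
  exact htu h3

end AbsSetup

/-- hypotheses with exchange over sets with fewer than `n` points -/
structure ExSetup (H : Subgroup (Equiv.Perm X)) (𝒮 : Set (Set X)) (P0 : Set X) (n : ℕ) : Prop
    extends AbsSetup H 𝒮 P0 n where
  exch : ∀ Y : Finset X, Y.card < n → Exch H 𝒮 (Y : Set X)

end Pool.Agent.MPa267.D1
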