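import Pool.Agent.Lib.MP_a267a3_lc.D1.Abs

/-!
# MP_a267a3_lc, transcendence degree one: blocks and Steinitz exchange (copy of AbsB)
-/

set_option autoImplicit false

namespace Pool.Agent.MPa267.D1

variable {X : Type*}

namespace AbsSetup

variable {H : Subgroup (Equiv.Perm X)} {𝒮 : Set (Set X)} {P0 : Set X} {n : ℕ}

/-- fewer than `n` points are closed -/
theorem cl_of_card_lt (s : AbsSetup H 𝒮 P0 n) (A : Finset X) (hA : A.card < n) :
    cl H 𝒮 (A : Set X) = A := by
  classical
  apply Set.Subset.antisymm _ (subset_cl _)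
  intro x hx
  by_contra hxA
  have hJ := s.cl_mem_JJ (s.small_of_card_le A hA.le)
  obtain ⟨y, hy, -⟩ := s.exists_not_mem_two hJ hJ
  have hyA : y ∉ (A : Set X) := fun h => hy (subset_cl _ h)
  obtain ⟨h, hh, hf⟩ := s.trans (insert x A) (fun z => if z = x then y else z)
    (by have := Finset.card_insert_le x A; omega) (by
      intro z hz w hw hzw
      rw [Finset.coe_insert] at hz hw
      simp only at hzw
      split_ifs at hzw with h1 h2 h2
      · rw [h1, h2]
      · rcases hw with hw | hw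
        · exact absurd hw h2
        · rw [← hzw] at hw; exact absurd hw hyA
      · rcases hz with hz | hz
        · exact absurd hz h1
        · rw [hzw] at hz; exact absurd hz hyA
      · exact hzw)
  have hfA : ∀ a ∈ A, h a = a := by
    intro a ha
    rw [hf a (Finset.mem_insert_of_mem ha), if_neg (by rintro rfl; exact hxA ha)]
  have hfx : h x = y := by rw [hf x (Finset.mem_insert_self _ _), if_pos rfl]
  apply hy
  have h1 : h x ∈ h '' (cl H 𝒮 (A : Set X)) := ⟨x, hx, rfl⟩
  rw [image_cl hh] at h1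
  have h2 : h '' (A : Set X) = A := by
    ext z
    constructor
    · rintro ⟨a, ha, rfl⟩; rwa [hfA a ha]
    · intro hz; exact ⟨z, hz, hfA z hz⟩
  rwa [h2, hfx] at h1

/-- `n` points are not closed -/
theorem cl_ne_of_card_eq (s : AbsSetup H 𝒮 P0 n) (A : Finset X) (hA : A.card = n) :
    cl H 𝒮 (A : Set X) ≠ A := by
  classical
  intro hcl
  have hJ : Jor H (A : Set X) := by
    have := (s.cl_mem_JJ (s.small_of_card_le A hA.le)).2
    rwa [hcl] at this
  apply s.ntrans
  intro B f hB hf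
  rcases Nat.lt_or_ge n B.card with hlt | hge
  swap
  · exact s.trans B f hge hf
  have hBc : B.card = n + 1 := by omega
  have hBne : B.Nonempty := by
    rw [← Finset.card_pos]; omega
  obtain ⟨b, hb⟩ := hBne
  have hBb : (B.erase b).card = n := by rw [Finset.card_erase_of_mem hb]; omega
  obtain ⟨h₁, hh₁, hf₁⟩ := s.trans (B.erase b) f hBb.le
    (hf.mono (by intro x hx; exact Finset.mem_of_mem_erase hx))
  -- the image of `B.erase b` is a translate of `A`
  set C : Finset X := (B.erase b).image f with hC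
  have hCc : C.card = n := by
    rw [hC, Finset.card_image_of_injOn, hBb]
    exact hf.mono (by intro x hx; exact Finset.mem_of_mem_erase hx)
  obtain ⟨e⟩ : Nonempty (A ≃ C) := Fintype.card_eq.1 (by simp [hCc, hA])
  obtain ⟨g, hg, hgf⟩ := s.trans A (fun x => if hx : x ∈ A then (e ⟨x, hx⟩ : X) else x) hA.le (by
    intro x hx y hy hxy
    have hx' : x ∈ A := hx
    have hy' : y ∈ A := hy
    simp only [hx', hy', dif_pos] at hxy
    exact congrArg Subtype.val (e.injective (Subtype.ext hxy)))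
  have hgA : ∀ c ∈ C, g⁻¹ c ∈ A := by
    intro c hc
    have h1 := hgf (e.symm ⟨c, hc⟩ : X) (e.symm ⟨c, hc⟩).2
    rw [dif_pos (e.symm ⟨c, hc⟩).2] at h1
    have h2 : g (e.symm ⟨c, hc⟩ : X) = c := by rw [h1]; simp
    rw [← h2]
    have h3 : g⁻¹ (g (e.symm ⟨c, hc⟩ : X)) = e.symm ⟨c, hc⟩ := g.symm_apply_apply _
    rw [h3]; exact (e.symm ⟨c, hc⟩).2
  have hgA' : ∀ a ∈ A, g a ∈ C := by
    intro a ha
    rw [hgf a ha, dif_pos ha]; exact (e ⟨a, ha⟩).2
  have hJC : Jor H (C : Set X) := by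
    intro x hx y hy
    have hx' : g⁻¹ x ∉ (A : Set X) := fun h => hx (by
      have := hgA' _ h
      have h3 : g (g⁻¹ x) = x := g.apply_symm_apply _
      rwa [h3] at this)
    have hy' : g⁻¹ y ∉ (A : Set X) := fun h => hy (by
      have := hgA' _ h
      have h3 : g (g⁻¹ y) = y := g.apply_symm_apply _
      rwa [h3] at this)
    obtain ⟨k, hk, hkA, hkx⟩ := hJ _ hx' _ hy'
    refine ⟨g * k * g⁻¹, H.mul_mem (H.mul_mem hg hk) (H.inv_mem hg), ?_, ?_⟩
    · intro c hc
      rw [Equiv.Perm.mul_apply, Equiv.Perm.mul_apply, hkA _ (hgA c hc)]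
      exact g.apply_symm_apply _
    · rw [Equiv.Perm.mul_apply, Equiv.Perm.mul_apply, hkx]
      exact g.apply_symm_apply _
  have hb1 : h₁ b ∉ (C : Set X) := by
    intro h
    obtain ⟨c, hc, hcb⟩ := Finset.mem_image.1 (Finset.mem_coe.1 h)
    rw [← hf₁ c hc] at hcb
    have := h₁.injective hcb
    rw [this] at hc
    exact Finset.notMem_erase b B hc
  have hb2 : f b ∉ (C : Set X) := by
    intro h
    obtain ⟨c, hc, hcb⟩ := Finset.mem_image.1 (Finset.mem_coe.1 h)
    have := hf (Finset.mem_of_mem_erase hc) hb hcb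
    rw [this] at hc
    exact Finset.notMem_erase b B hc
  obtain ⟨h₂, hh₂, hf₂, hb₂⟩ := hJC _ hb1 _ hb2
  refine ⟨h₂ * h₁, H.mul_mem hh₂ hh₁, ?_⟩
  intro a ha
  rw [Equiv.Perm.mul_apply]
  by_cases hab : a = b
  · rw [hab, hb₂]
  · have ha' : a ∈ B.erase b := Finset.mem_erase.2 ⟨hab, ha⟩
    rw [hf₁ a ha']
    exact hf₂ _ (Finset.mem_coe.2 (Finset.mem_image_of_mem f ha'))

/-- Steinitz exchange -/
theorem steinitz [DecidableEq X] (s : AbsSetup H 𝒮 P0 n) (Z Z' : Finset X)
    (hcard : Z'.card = Z.card)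
    (hind : ∀ z ∈ Z', z ∉ cl H 𝒮 ((Z'.erase z : Finset X) : Set X))
    (hsub : (Z' : Set X) ⊆ cl H 𝒮 (Z : Set X))
    (hgood : ∀ Y : Finset X, Y ⊆ Z ∪ Z' → Y.card < Z.card → Exch H 𝒮 (Y : Set X)) :
    cl H 𝒮 (Z' : Set X) = cl H 𝒮 (Z : Set X) := by
  induction hk : (Z' \ Z).card using Nat.strong_induction_on generalizing Z with
  | _ k ih =>
  by_cases hsubset : Z' ⊆ Z
  · rw [Finset.eq_of_subset_of_card_le hsubset hcard.ge]
  obtain ⟨z', hz', hz'Z⟩ := Finset.not_subset.1 hsubset
  -- choose `Y` maximal between `Z ∩ Z'` and `Z` with `z' ∉ cl Y`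
  let P : Finset X → Prop := fun Y => Z ∩ Z' ⊆ Y ∧ z' ∉ cl H 𝒮 (Y : Set X)
  have : DecidablePred P := Classical.decPred P
  have hP0 : P (Z ∩ Z') := by
    refine ⟨Finset.Subset.refl _, fun h => hind z' hz' (cl_mono ?_ h)⟩
    intro x hx
    have hx' := Finset.mem_inter.1 (Finset.mem_coe.1 hx)
    exact Finset.mem_coe.2 (Finset.mem_erase.2 ⟨fun h => hz'Z (h ▸ hx'.1), hx'.2⟩)
  obtain ⟨Y, hYmem, hYmax⟩ := Finset.exists_max_image
    (Z.powerset.filter (fun Y => P Y)) Finset.card
    ⟨Z ∩ Z', Finset.mem_filter.2 ⟨Finset.mem_powerset.2 Finset.inter_subset_left, hP0⟩⟩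
  rw [Finset.mem_filter, Finset.mem_powerset] at hYmem
  obtain ⟨hYZ, hYP, hYz'⟩ := hYmem
  have hYne : Y ≠ Z := by
    rintro rfl; exact hYz' (hsub hz')
  obtain ⟨z, hzZ, hzY⟩ := Finset.exists_of_ssubset (Finset.ssubset_iff_subset_ne.2 ⟨hYZ, hYne⟩)
  have hz'Yz : z' ∈ cl H 𝒮 ((insert z Y : Finset X) : Set X) := by
    by_contra hcon
    have h1 := hYmax (insert z Y) (Finset.mem_filter.2 ⟨Finset.mem_powerset.2
      (Finset.insert_subset hzZ hYZ), hYP.trans (Finset.subset_insert _ _), hcon⟩)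
    rw [Finset.card_insert_of_notMem hzY] at h1
    omega
  have hYcard : Y.card < Z.card := Finset.card_lt_card (Finset.ssubset_iff_subset_ne.2 ⟨hYZ, hYne⟩)
  have hex : z ∈ cl H 𝒮 (insert z' (Y : Set X)) := by
    apply hgood Y (hYZ.trans Finset.subset_union_left) hYcard _ _ _ hYz'
    rwa [Finset.coe_insert] at hz'Yz
  have hzZ' : z ∉ Z' := fun h => hzY (hYP (Finset.mem_inter.2 ⟨hzZ, h⟩))
  have hzz' : z ≠ z' := by rintro rfl; exact hzZ' hz'
  -- the new basis
  set Z₁ : Finset X := insert z' (Z.erase z) with hZ₁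
  have hz'e : z' ∉ Z.erase z := fun h => hz'Z (Finset.mem_of_mem_erase h)
  have hZ₁c : Z₁.card = Z.card := by
    rw [hZ₁, Finset.card_insert_of_notMem hz'e, Finset.card_erase_of_mem hzZ]
    have := Finset.card_pos.2 ⟨z, hzZ⟩
    omega
  have hcl : cl H 𝒮 (Z₁ : Set X) = cl H 𝒮 (Z : Set X) := by
    apply Set.Subset.antisymm
    · apply cl_le
      intro x hx
      rcases Finset.mem_insert.1 (Finset.mem_coe.1 hx) with rfl | hx
      · exact hsub hz'
      · exact subset_cl _ (Finset.mem_of_mem_erase hx)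
    · apply cl_le
      intro x hx
      by_cases hxz : x = z
      · rw [hxz]
        refine cl_mono ?_ hex
        intro w hw
        rcases hw with rfl | hw
        · exact Finset.mem_coe.2 (Finset.mem_insert_self _ _)
        · exact Finset.mem_coe.2 (Finset.mem_insert_of_mem (Finset.mem_erase.2
            ⟨fun h => hzY (h ▸ hw), hYZ hw⟩))
      · exact subset_cl _ (Finset.mem_coe.2 (Finset.mem_insert_of_mem
          (Finset.mem_erase.2 ⟨hxz, hx⟩)))
  rw [← hcl]
  apply ih (Z' \ Z₁).card _ Z₁ (by rw [hZ₁c]; exact hcard) (by rw [hcl]; exact hsub) _ rfl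
  · rw [← hk]
    apply Finset.card_lt_card
    rw [Finset.ssubset_iff_of_subset]
    · refine ⟨z', Finset.mem_sdiff.2 ⟨hz', hz'Z⟩, ?_⟩
      intro h
      exact (Finset.mem_sdiff.1 h).2 (Finset.mem_insert_self _ _)
    · intro x hx
      rw [Finset.mem_sdiff] at hx ⊢
      refine ⟨hx.1, fun h => hx.2 (Finset.mem_insert_of_mem (Finset.mem_erase.2 ⟨?_, h⟩))⟩
      rintro rfl; exact hzZ' hx.1
  · intro W hW hWc
    rw [hZ₁c] at hWc
    apply hgood W _ hWc
    intro x hx
    rcases Finset.mem_union.1 (hW hx) with h | h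
    · rcases Finset.mem_insert.1 h with rfl | h
      · exact Finset.mem_union_right _ hz'
      · exact Finset.mem_union_left _ (Finset.mem_of_mem_erase h)
    · exact Finset.mem_union_right _ h

/-- any two blocks are translates of each other -/
theorem block_transitive (s : AbsSetup H 𝒮 P0 n) (A B : Finset X) (hA : A.card = n)
    (hB : B.card = n) : ∃ h ∈ H, h '' (cl H 𝒮 (A : Set X)) = cl H 𝒮 (B : Set X) := by
  classical
  obtain ⟨e⟩ : Nonempty (A ≃ B) := Fintype.card_eq.1 (by simp [hB, hA])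
  obtain ⟨g, hg, hgf⟩ := s.trans A (fun x => if hx : x ∈ A then (e ⟨x, hx⟩ : X) else x) hA.le (by
    intro x hx y hy hxy
    have hx' : x ∈ A := hx
    have hy' : y ∈ A := hy
    simp only [hx', hy', dif_pos] at hxy
    exact congrArg Subtype.val (e.injective (Subtype.ext hxy)))
  refine ⟨g, hg, ?_⟩
  rw [image_cl hg]
  congr 1
  ext x
  constructor
  · rintro ⟨a, ha, rfl⟩
    rw [hgf a ha, dif_pos (Finset.mem_coe.1 ha)]
    exact (e ⟨a, ha⟩).2
  · intro hx
    refine ⟨(e.symm ⟨x, hx⟩ : X), (e.symm ⟨x, hx⟩).2, ?_⟩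
    rw [hgf _ (e.symm ⟨x, hx⟩).2, dif_pos (e.symm ⟨x, hx⟩).2]
    simp

end AbsSetup

namespace ExSetup

variable {H : Subgroup (Equiv.Perm X)} {𝒮 : Set (Set X)} {P0 : Set X} {n : ℕ}

/-- two blocks with `n` common points coincide -/
theorem block_eq (s : ExSetup H 𝒮 P0 n) (A B : Finset X) (hA : A.card = n) (hB : B.card = n)
    (h : (B : Set X) ⊆ cl H 𝒮 (A : Set X)) : cl H 𝒮 (B : Set X) = cl H 𝒮 (A : Set X) := by
  classical
  apply s.toAbsSetup.steinitz A B (by rw [hA, hB]) _ h
  · intro Y _ hY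
    exact s.exch Y (by omega)
  · intro z hz
    rw [s.toAbsSetup.cl_of_card_lt (B.erase z) (by
      rw [Finset.card_erase_of_mem hz]
      have := Finset.card_pos.2 ⟨z, hz⟩
      omega)]
    exact Finset.notMem_erase z B

/-- a rank `n+1` flat is generated by any of its independent `(n+1)`-subsets -/
theorem flat_eq (s : ExSetup H 𝒮 P0 n)
    (hE : ∀ Y : Finset X, Y.card ≤ n → Exch H 𝒮 (Y : Set X)) (Z S : Finset X) (hZ : Z.card = n + 1) (hS : S.card = n)
    {y : X} (hy : y ∉ cl H 𝒮 (S : Set X))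
    (h : insert y (S : Set X) ⊆ cl H 𝒮 (Z : Set X)) :
    cl H 𝒮 (insert y (S : Set X)) = cl H 𝒮 (Z : Set X) := by
  classical
  have hyS : y ∉ S := fun h' => hy (subset_cl _ h')
  rw [← Finset.coe_insert] at h ⊢
  apply s.toAbsSetup.steinitz Z (insert y S) (by rw [Finset.card_insert_of_notMem hyS, hS, hZ]) _ h
  · intro Y _ hY
    exact hE Y (by omega)
  · intro z hz
    rcases Finset.mem_insert.1 hz with rfl | hzS
    · rw [Finset.erase_insert hyS]; exact hy
    · have hzy : z ≠ y := by rintro rfl; exact hyS hzS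
      intro hcon
      have hR : (S.erase z).card < n := by
        rw [Finset.card_erase_of_mem hzS]
        have := Finset.card_pos.2 ⟨z, hzS⟩
        omega
      have h1 : (insert y S).erase z = insert y (S.erase z) :=
        Finset.erase_insert_of_ne (Ne.symm hzy)
      rw [h1, Finset.coe_insert] at hcon
      have h2 := hE (S.erase z) hR.le _ _ hcon (by
        rw [s.toAbsSetup.cl_of_card_lt _ hR]; exact Finset.notMem_erase z S)
      rw [← Finset.coe_insert, Finset.insert_erase hzS] at h2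
      exact hy h2

end ExSetup

end Pool.Agent.MPa267.D1
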