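import Pool.Agent.Lib.MP_a267a3_lc.D1.AbsB

/-!
# MP_a267a3_lc, transcendence degree one: strong small support lemma, moving finite sets (copy of AbsC)
-/

set_option autoImplicit false

namespace Pool.Agent.MPa267.D1

variable {X : Type*}

namespace ExSetup

variable {H : Subgroup (Equiv.Perm X)} {𝒮 : Set (Set X)} {P0 : Set X} {n : ℕ}

/-- a block not contained in a member of `JJ` meets it in a finite set -/
private lemma absC_inter_finite (s : ExSetup H 𝒮 P0 n) (A : Finset X) (hA : A.card = n)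
    {C : Set X} (hC : C ∈ JJ H 𝒮) (hnot : ¬ cl H 𝒮 (A : Set X) ⊆ C) :
    (cl H 𝒮 (A : Set X) ∩ C).Finite := by
  by_contra hfin
  obtain ⟨N, hN, hNc⟩ := Set.Infinite.exists_subset_card_eq hfin n
  apply hnot
  rw [← block_eq s A N hA hNc (hN.trans Set.inter_subset_left)]
  exact cl_subset_of_mem_JJ hC (hN.trans Set.inter_subset_right)

private lemma absC_infinite (s : ExSetup H 𝒮 P0 n) : Infinite X :=
  Set.infinite_univ_iff.mp (s.inf.mono (Set.subset_univ _))

/-- three members of `JJ` leave infinitely many points uncovered -/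
private lemma absC_three (s : ExSetup H 𝒮 P0 n)
    (hinf : ∀ A : Finset X, A.card = n → (cl H 𝒮 (A : Set X)).Infinite)
    {C1 C2 C3 : Set X} (h1 : C1 ∈ JJ H 𝒮) (h2 : C2 ∈ JJ H 𝒮) (h3 : C3 ∈ JJ H 𝒮) :
    {x | x ∉ C1 ∧ x ∉ C2 ∧ x ∉ C3}.Infinite := by
  classical
  have := absC_infinite s
  obtain ⟨x1, hx1, -⟩ := s.toAbsSetup.exists_not_mem_two h1 h1
  obtain ⟨x2, hx2, -⟩ := s.toAbsSetup.exists_not_mem_two h2 h2
  obtain ⟨x3, hx3, -⟩ := s.toAbsSetup.exists_not_mem_two h3 h3
  have hcard : ({x1, x2, x3} : Finset X).card ≤ n := Finset.card_le_three.trans s.three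
  obtain ⟨A, hsub, hA⟩ := Infinite.exists_superset_card_eq ({x1, x2, x3} : Finset X) n hcard
  have hm : ∀ x ∈ ({x1, x2, x3} : Finset X), x ∈ cl H 𝒮 (A : Set X) := fun x hx =>
    subset_cl _ (Finset.mem_coe.mpr (hsub hx))
  have f1 := absC_inter_finite s A hA h1 (fun h => hx1 (h (hm x1 (by simp))))
  have f2 := absC_inter_finite s A hA h2 (fun h => hx2 (h (hm x2 (by simp))))
  have f3 := absC_inter_finite s A hA h3 (fun h => hx3 (h (hm x3 (by simp))))
  have hd := (hinf A hA).sdiff ((f1.union f2).union f3)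
  refine hd.mono ?_
  rintro x ⟨hx, hx'⟩
  simp only [Set.mem_union, Set.mem_inter_iff, not_or, not_and] at hx'
  exact ⟨hx'.1.1 hx, hx'.1.2 hx, hx'.2 hx⟩

/-- strong form of the small support lemma -/
theorem strong_support (s : ExSetup H 𝒮 P0 n)
    (hinf : ∀ A : Finset X, A.card = n → (cl H 𝒮 (A : Set X)).Infinite)
    {C1 C2 : Set X} (h1 : C1 ∈ JJ H 𝒮) (h2 : C2 ∈ JJ H 𝒮) {f : Equiv.Perm X} (hf : f ∈ H)
    (hfix : ∀ x, x ∉ C1 → x ∉ C2 → f x = x) : f = 1 := by
  classical
  have := absC_infinite s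
  by_contra hne
  have : ∃ y, f y ≠ y := by
    by_contra hall
    push Not at hall
    exact hne (Equiv.ext hall)
  obtain ⟨y, hy⟩ := this
  set z := f y with hz
  have hy12 : y ∈ C1 ∨ y ∈ C2 := by
    by_contra h
    push Not at h
    exact hy (hfix y h.1 h.2)
  have hz12 : z ∈ C1 ∨ z ∈ C2 := by
    by_contra h
    push Not at h
    have := hfix z h.1 h.2
    exact hy (f.injective (this.trans hz))
  have hn3 := s.three
  have hinf12 : {x | x ∉ C1 ∧ x ∉ C2 ∧ x ∉ C2}.Infinite := absC_three s hinf h1 h2 h2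
  obtain ⟨R0, hR0, hR0c⟩ := hinf12.exists_subset_card_eq (n - 2)
  have hyR : y ∉ R0 := fun h => by
    have := hR0 (Finset.mem_coe.mpr h)
    rcases hy12 with h' | h'
    · exact this.1 h'
    · exact this.2.1 h'
  have hzR : z ∉ R0 := fun h => by
    have := hR0 (Finset.mem_coe.mpr h)
    rcases hz12 with h' | h'
    · exact this.1 h'
    · exact this.2.1 h'
  set A3 := insert y (insert z R0) with hA3
  have hA3c : A3.card = n := by
    rw [hA3, Finset.card_insert_of_notMem, Finset.card_insert_of_notMem hzR, hR0c]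
    · omega
    · simp only [Finset.mem_insert, not_or]
      exact ⟨fun h => hy h.symm, hyR⟩
  have h3 : cl H 𝒮 (A3 : Set X) ∈ JJ H 𝒮 := s.toAbsSetup.cl_mem_JJ (s.toAbsSetup.small_of_card_le A3 hA3c.le)
  obtain ⟨r, hr1, hr2, hr3⟩ := (absC_three s hinf h1 h2 h3).nonempty
  have hsub3 : ∀ x ∈ A3, x ∈ cl H 𝒮 (A3 : Set X) := fun x hx =>
    subset_cl _ (Finset.mem_coe.mpr hx)
  have hrR : r ∉ R0 := fun h => hr3 (hsub3 r (by simp [hA3, h]))
  have hry : r ≠ y := fun h => hr3 (hsub3 r (by simp [hA3, h]))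
  set A4 := insert y (insert r R0) with hA4
  have hA4c : A4.card = n := by
    rw [hA4, Finset.card_insert_of_notMem, Finset.card_insert_of_notMem hrR, hR0c]
    · omega
    · simp only [Finset.mem_insert, not_or]
      exact ⟨fun h => hry h.symm, hyR⟩
  have hsub4 : ∀ x ∈ A4, x ∈ cl H 𝒮 (A4 : Set X) := fun x hx =>
    subset_cl _ (Finset.mem_coe.mpr hx)
  have hzB : z ∉ cl H 𝒮 (A4 : Set X) := by
    intro hzB
    have : (A3 : Set X) ⊆ cl H 𝒮 (A4 : Set X) := by
      intro x hx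
      have hx' : x ∈ A3 := Finset.mem_coe.mp hx
      rw [hA3, Finset.mem_insert, Finset.mem_insert] at hx'
      rcases hx' with rfl | rfl | hx'
      · exact hsub4 _ (by simp [hA4])
      · exact hzB
      · exact hsub4 _ (by simp [hA4, hx'])
    have heq := block_eq s A4 A3 hA4c hA3c this
    apply hr3
    rw [heq]
    exact hsub4 _ (by simp [hA4])
  have hrB : r ∈ cl H 𝒮 (A4 : Set X) := hsub4 _ (by simp [hA4])
  have f1 := absC_inter_finite s A4 hA4c h1 (fun h => hr1 (h hrB))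
  have f2 := absC_inter_finite s A4 hA4c h2 (fun h => hr2 (h hrB))
  obtain ⟨N, hN, hNc⟩ := ((hinf A4 hA4c).sdiff (f1.union f2)).exists_subset_card_eq n
  have hNB : (N : Set X) ⊆ cl H 𝒮 (A4 : Set X) := fun x hx => (hN hx).1
  have heq := block_eq s A4 N hA4c hNc hNB
  have hfN : f '' (N : Set X) = N := by
    ext x
    constructor
    · rintro ⟨w, hw, rfl⟩
      have hw' := (hN hw).2
      have hwB := (hN hw).1
      simp only [Set.mem_union, Set.mem_inter_iff, not_or, not_and] at hw'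
      rw [hfix w (hw'.1 hwB) (hw'.2 hwB)]
      exact hw
    · intro hw
      have hw' := (hN hw).2
      have hwB := (hN hw).1
      simp only [Set.mem_union, Set.mem_inter_iff, not_or, not_and] at hw'
      exact ⟨x, hw, hfix x (hw'.1 hwB) (hw'.2 hwB)⟩
  have himg := image_cl (𝒮 := 𝒮) hf (N : Set X)
  rw [hfN, heq] at himg
  apply hzB
  rw [← himg]
  exact ⟨y, hsub4 _ (by simp [hA4]), rfl⟩

/-- one step of `move` -/
private lemma absC_step [DecidableEq X] (s : ExSetup H 𝒮 P0 n)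
    (hD : ∀ Y : Finset X, (Y : Set X) ⊆ P0 → Exch H 𝒮 (Y : Set X)) (A0 : Finset X)
    (hA0 : (A0 : Set X) ⊆ P0) {w : X} (hw : w ∈ P0) {σ0 : Equiv.Perm X} (hσ : σ0 ∈ H)
    (h0 : ∀ a ∈ A0, σ0 a ∈ P0) :
    ∃ σ ∈ H, (∀ a ∈ A0, σ a = σ0 a) ∧ σ w ∈ P0 := by
  classical
  by_cases hw0 : σ0 w ∈ P0
  · exact ⟨σ0, hσ, fun _ _ => rfl, hw0⟩
  have hP0 : P0 ∈ JJ H 𝒮 := s.toAbsSetup.mem_JJ_of_mem s.mem
  have himg : ∀ B : Finset X, B ⊆ A0 → ((B.image σ0 : Finset X) : Set X) ⊆ P0 := by
    intro B hB x hx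
    rw [Finset.coe_image] at hx
    obtain ⟨a, ha, rfl⟩ := hx
    exact h0 a (hB ha)
  have hΨ : cl H 𝒮 ((A0.image σ0 : Finset X) : Set X) ⊆ P0 :=
    cl_subset_of_mem_JJ hP0 (himg A0 subset_rfl)
  by_cases hcase : cl H 𝒮 ((A0.image σ0 : Finset X) : Set X) = P0
  · exfalso
    -- minimal cardinality
    let Q : ℕ → Prop := fun m => ∃ B : Finset X, B ⊆ A0 ∧ B.card = m ∧
      cl H 𝒮 ((B.image σ0 : Finset X) : Set X) = P0
    have hQ : ∃ m, Q m := ⟨A0.card, A0, subset_rfl, rfl, hcase⟩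
    obtain ⟨B, hBA, hBc, hBcl⟩ := Nat.find_spec hQ
    have hmin : ∀ B' : Finset X, B' ⊆ A0 → B'.card < B.card →
        cl H 𝒮 ((B'.image σ0 : Finset X) : Set X) ≠ P0 := by
      intro B' hB' hlt hcl
      have := Nat.find_min' hQ ⟨B', hB', rfl, hcl⟩
      omega
    have hind : ∀ z ∈ B, z ∉ cl H 𝒮 ((B.erase z : Finset X) : Set X) := by
      intro z hz hzc
      apply hmin (B.erase z) ((Finset.erase_subset _ _).trans hBA)
        (Finset.card_erase_lt_of_mem hz)
      apply Set.Subset.antisymm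
      · exact cl_subset_of_mem_JJ hP0
          (himg _ ((Finset.erase_subset _ _).trans hBA))
      · rw [← hBcl]
        apply cl_le
        intro x hx
        rw [Finset.coe_image] at hx
        obtain ⟨a, ha, rfl⟩ := hx
        by_cases haz : a = z
        · subst haz
          have : σ0 a ∈ σ0 '' cl H 𝒮 ((B.erase a : Finset X) : Set X) := ⟨a, hzc, rfl⟩
          rw [image_cl hσ] at this
          rwa [Finset.coe_image]
        · apply subset_cl
          rw [Finset.coe_image]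
          exact ⟨a, by
            rw [Finset.mem_coe, Finset.mem_erase]
            exact ⟨haz, ha⟩, rfl⟩
    have hst := s.toAbsSetup.steinitz (B.image σ0) B
      (Finset.card_image_of_injective _ σ0.injective).symm hind
      (by
        rw [hBcl]
        exact fun x hx => hA0 (hBA hx))
      (by
        intro Y hY _
        apply hD
        intro x hx
        have := hY hx
        rw [Finset.mem_union] at this
        rcases this with h | h
        · exact himg B hBA h
        · exact hA0 (hBA h))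
    rw [hBcl] at hst
    apply hw0
    have : σ0 w ∈ σ0 '' cl H 𝒮 (B : Set X) := ⟨w, by rw [hst]; exact hw, rfl⟩
    rw [image_cl hσ] at this
    rw [← hBcl, Finset.coe_image]
    exact this
  · have : ∃ v ∈ P0, v ∉ cl H 𝒮 ((A0.image σ0 : Finset X) : Set X) := by
      by_contra h
      push Not at h
      exact hcase (Set.Subset.antisymm hΨ h)
    obtain ⟨v, hv, hvΨ⟩ := this
    have hJ : cl H 𝒮 ((A0.image σ0 : Finset X) : Set X) ∈ JJ H 𝒮 :=
      s.toAbsSetup.cl_mem_JJ ⟨1, one_mem _, P0, s.mem, fun x hx => himg A0 subset_rfl hx⟩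
    obtain ⟨h, hh, hfix, hv'⟩ := hJ.2 (σ0 w) (fun h => hw0 (hΨ h)) v hvΨ
    refine ⟨h * σ0, mul_mem hh hσ, ?_, ?_⟩
    · intro a ha
      rw [Equiv.Perm.mul_apply]
      apply hfix
      apply subset_cl
      rw [Finset.coe_image]
      exact ⟨a, ha, rfl⟩
    · rw [Equiv.Perm.mul_apply, hv']
      exact hv

/-- moving a finite subset of `P0` into `P0` with prescribed values -/
theorem move [DecidableEq X] (s : ExSetup H 𝒮 P0 n)
    (hD : ∀ Y : Finset X, (Y : Set X) ⊆ P0 → Exch H 𝒮 (Y : Set X)) (A A0 : Finset X) (hA : (A : Set X) ⊆ P0)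
    (hA0 : A0 ⊆ A) {σ0 : Equiv.Perm X} (hσ : σ0 ∈ H) (h0 : ∀ a ∈ A0, σ0 a ∈ P0) :
    ∃ σ ∈ H, (∀ a ∈ A0, σ a = σ0 a) ∧ ∀ a ∈ A, σ a ∈ P0 := by
  obtain ⟨m, hm⟩ : ∃ m, (A \ A0).card = m := ⟨_, rfl⟩
  induction m generalizing A0 σ0 with
  | zero =>
    rw [Finset.card_eq_zero, Finset.sdiff_eq_empty_iff_subset] at hm
    exact ⟨σ0, hσ, fun _ _ => rfl, fun a ha => h0 a (hm ha)⟩
  | succ m ih =>
    have hne : (A \ A0).Nonempty := by
      rw [← Finset.card_pos]
      omega
    obtain ⟨w, hw⟩ := hne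
    rw [Finset.mem_sdiff] at hw
    obtain ⟨σ1, hσ1, heq1, hw1⟩ := absC_step s hD A0 (fun x hx => hA (hA0 hx))
      (hA (Finset.mem_coe.mpr hw.1)) hσ h0
    obtain ⟨σ, hσH, heq, hall⟩ := ih (insert w A0)
      (Finset.insert_subset hw.1 hA0) hσ1
      (by
        intro a ha
        rw [Finset.mem_insert] at ha
        rcases ha with rfl | ha
        · exact hw1
        · rw [heq1 a ha]
          exact h0 a ha)
      (by
        have : A \ insert w A0 = (A \ A0).erase w := by
          ext x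
          simp only [Finset.mem_sdiff, Finset.mem_insert, Finset.mem_erase]
          tauto
        rw [this, Finset.card_erase_of_mem (by rw [Finset.mem_sdiff]; exact hw), hm]
        rfl)
    exact ⟨σ, hσH, fun a ha => by
      rw [heq a (Finset.mem_insert_of_mem ha), heq1 a ha], hall⟩

end ExSetup

end Pool.Agent.MPa267.D1
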