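import Pool.Agent.Lib.MP_a267a3_lc.D1.Spec

/-!
# MP_a267a3_lc, transcendence degree one: exchange over subsets of D
-/

set_option autoImplicit false

namespace Pool.Agent.MPa267.D1

open OnePoint

namespace ExcAux

variable {F : Type*} [Field F]

theorem le_of_PP_subset {K L : Subfield F} (h : PP K ⊆ PP L) : K ≤ L := by
  intro x hx
  exact (coe_mem_PP L x).1 (h ((coe_mem_PP K x).2 hx))

theorem PP_inj {K L : Subfield F} (h : PP K = PP L) : K = L :=
  le_antisymm (le_of_PP_subset h.le) (le_of_PP_subset h.ge)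

theorem pow_not_mem {x : F} (hx : x ∉ acl (∅ : Set F)) {m : ℕ} (hm : 0 < m) : x ^ m ∉ acl (∅ : Set F) := by
  intro h
  rw [mem_acl] at h hx
  exact hx (IsAlgebraic.of_pow hm h)

theorem exists_not_mem {H : Subgroup (Equiv.Perm (OnePoint F))} {n : ℕ} (s : Setup0 H n) :
    ∃ x : F, x ∉ acl (∅ : Set F) := by
  obtain ⟨K, -, hK, hKP⟩ := s.abs.mem
  have e := PP_inj hKP
  by_contra hc
  rw [not_exists] at hc
  apply hK
  rw [← e, eq_top_iff]
  intro x _
  exact not_not.1 (hc x)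

end ExcAux

open ExcAux in
theorem tExc.{u} (hLf : S_Lf.{u}) (hPur : S_Pur.{u}) (hLS : S_LS.{u}) (hDsc : S_Dsc.{u}) : S_Exc.{u} := by
  intro F _ _ H n s htd A hA hor
  by_contra hE
  obtain ⟨L, hL, hLP⟩ := hLf F H n s A hA hE
  obtain ⟨x, hx⟩ := exists_not_mem s
  obtain ⟨p, hp⟩ := CharP.exists F
  by_cases hz : CharZero F
  · have hE1 : ExpChar F 1 := inferInstance
    apply hL.ne x hx
    rw [eq_top_iff]
    intro z _
    obtain ⟨e, he⟩ := hPur F 1 L htd hL x hx z
    rwa [one_pow, pow_one] at he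
  have hp0 : p ≠ 0 := by
    rintro rfl
    exact hz (CharP.charP_to_charZero F)
  have hpp : Nat.Prime p := (CharP.char_is_prime_or_zero F p).resolve_right hp0
  have : Fact p.Prime := ⟨hpp⟩
  have hne : Cl H A ≠ DD F := hor.resolve_left hz
  have hDJ : DD F ∈ JJ H (SS F) := s.abs.mem_JJ_of_mem s.abs.mem
  have hAD : Cl H A ⊆ DD F := cl_subset_of_mem_JJ hDJ hA
  obtain ⟨a, haD, haA⟩ : ∃ a, a ∈ DD F ∧ a ∉ Cl H A := by
    by_contra hc
    simp only [not_exists, not_and, not_not] at hc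
    exact hne (Set.Subset.antisymm hAD fun a ha => hc a ha)
  have hsm : Small H (SS F) A := AbsSetup.small_of_mem_JJ_of_subset hDJ hA
  have hClJ := s.abs.cl_mem_JJ hsm
  have hxD : (x : OnePoint F) ∉ DD F := fun h => hx ((coe_mem_PP _ _).1 h)
  have hxA : (x : OnePoint F) ∉ Cl H A := fun h => hxD (hAD h)
  obtain ⟨h, hh, hf, hax⟩ := hClJ.2 a haA x hxA
  have hfA : ∀ b ∈ A, h b = b := fun b hb => hf b (subset_cl A hb)
  have hy : ∀ j : ℕ, x ^ p ^ j ∉ acl (∅ : Set F) := fun j => pow_not_mem hx (pow_pos hpp.pos j)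
  -- the translated closures
  have himg : ∀ y : F, y ∉ acl (∅ : Set F) → h '' PP (L y) = Cl H (insert (h (y : OnePoint F)) A) := by
    intro y hy
    rw [← hLP y hy]
    have e := image_cl (𝒮 := SS F) hh (insert (y : OnePoint F) A)
    have e2 : h '' (insert (y : OnePoint F) A) = insert (h (y : OnePoint F)) A := by
      rw [Set.image_insert_eq]
      congr 1
      ext z
      constructor
      · rintro ⟨b, hb, rfl⟩; rwa [hfA b hb]
      · intro hz; exact ⟨z, hz, hfA z hz⟩
    rw [e2] at e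
    exact e
  have hzex : ∀ j : ℕ, ∃ z : F, z ∉ acl (∅ : Set F) ∧ h '' PP (L (x ^ p ^ j)) = PP (L z) ∧ x ∈ L z := by
    intro j
    have hxm : (x : OnePoint F) ∈ h '' PP (L (x ^ p ^ j)) :=
      ⟨a, PP_mono (hL.le _ (hy j)) haD, hax⟩
    have e := himg _ (hy j)
    have hnD : h ((x ^ p ^ j : F) : OnePoint F) ∉ DD F := by
      intro hc
      rw [e] at hxm
      exact hxD (cl_subset_of_mem_JJ hDJ (Set.insert_subset hc hA) hxm)
    generalize hw : h ((x ^ p ^ j : F) : OnePoint F) = w at hnD e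
    induction w using OnePoint.rec with
    | infty => exact absurd (infty_mem_PP _) hnD
    | coe z =>
      have hz : z ∉ acl (∅ : Set F) := fun hc => hnD ((coe_mem_PP _ _).2 hc)
      refine ⟨z, hz, ?_, ?_⟩
      · rw [e, hLP z hz]
      · rw [e, hLP z hz] at hxm
        exact (coe_mem_PP _ _).1 hxm
  choose z hz1 hz2 hz3 using hzex
  refine hDsc F p L htd hL x hx z hz1 (fun j => hL.mono _ _ (hz1 j) hx (hz3 j)) fun j => ?_
  have hle : L (x ^ p ^ (j + 1)) ≤ L (x ^ p ^ j) := by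
    refine hL.mono _ _ (hy j) (hy (j + 1)) ?_
    rw [pow_succ, pow_mul]
    exact (L (x ^ p ^ j)).pow_mem (hL.mem _ (hy j)) p
  have hneq : L (x ^ p ^ (j + 1)) ≠ L (x ^ p ^ j) := by
    intro hc
    apply (hLS F p L htd hL).1 _ (hy j)
    rw [← pow_mul, ← pow_succ, hc]
    exact hL.mem _ (hy j)
  rw [lt_iff_le_and_ne]
  constructor
  · apply le_of_PP_subset
    rw [← hz2, ← hz2]
    exact Set.image_mono (PP_mono hle)
  · intro hc
    apply hneq
    apply PP_inj
    have e : h '' PP (L (x ^ p ^ (j + 1))) = h '' PP (L (x ^ p ^ j)) := by rw [hz2, hz2, hc]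
    exact h.injective.image_injective e

end Pool.Agent.MPa267.D1
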