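import Pool.Agent.Lib.MP_a267a3_lc.D1.Spec

/-!
# MP_a267a3_lc, transcendence degree one: Frobenius and the separable closure of `k(x)`
-/

set_option autoImplicit false

namespace Pool.Agent.MPa267.D1

open OnePoint

universe v

namespace FrbAux

/-- a field automorphism restricted to subfields -/
noncomputable def res {F : Type v} [Field F] (K K' : Subfield F) (σ : F ≃+* F)
    (h : ∀ a, a ∈ K ↔ σ a ∈ K') : K ≃+* K' where
  toFun a := ⟨σ a, (h a).1 a.2⟩
  invFun b := ⟨σ.symm b, (h _).2 (by rw [RingEquiv.apply_symm_apply]; exact b.2)⟩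
  left_inv a := Subtype.ext (σ.symm_apply_apply _)
  right_inv b := Subtype.ext (σ.apply_symm_apply _)
  map_mul' a b := Subtype.ext (map_mul σ _ _)
  map_add' a b := Subtype.ext (map_add σ _ _)

theorem sep_mp {F : Type v} [Field F] (K K' : Subfield F) (σ : F ≃+* F)
    (h : ∀ a, a ∈ K ↔ σ a ∈ K') (w : F) (hw : IsSeparable K w) : IsSeparable K' (σ w) :=
  IsSeparable.of_equiv_equiv (res K K' σ h) σ (by ext a; rfl) hw

theorem sep_iff {F : Type v} [Field F] (K K' : Subfield F) (σ : F ≃+* F)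
    (h : ∀ a, a ∈ K ↔ σ a ∈ K') (w : F) : IsSeparable K' (σ w) ↔ IsSeparable K w := by
  refine ⟨fun hw => ?_, sep_mp K K' σ h w⟩
  have h1 := sep_mp K' K σ.symm (fun a => by rw [h, RingEquiv.apply_symm_apply]) (σ w) hw
  rwa [RingEquiv.symm_apply_apply] at h1

theorem kk_mp {F : Type v} [Field F] (σ : F ≃+* F) (x a : F) (ha : a ∈ kk x) : σ a ∈ kk (σ x) := by
  have h1 : σ a ∈ (Subfield.closure (insert x ((acl (∅ : Set F) : Subfield F) : Set F))).map
      (σ : F →+* F) := ⟨a, ha, rfl⟩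
  rw [RingHom.map_field_closure] at h1
  refine Subfield.closure_mono ?_ h1
  rintro _ ⟨b, hb, rfl⟩
  rcases hb with rfl | hb
  · exact Set.mem_insert _ _
  · refine Set.mem_insert_of_mem _ ?_
    have h2 := (map_acl σ (s := ∅) (x := b)).2 hb
    rw [Set.image_empty] at h2
    exact h2

theorem kk_iff {F : Type v} [Field F] (σ : F ≃+* F) (x a : F) : a ∈ kk x ↔ σ a ∈ kk (σ x) := by
  refine ⟨kk_mp σ x a, fun ha => ?_⟩
  have h1 := kk_mp σ.symm (σ x) (σ a) ha
  rwa [RingEquiv.symm_apply_apply, RingEquiv.symm_apply_apply] at h1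

end FrbAux

open FrbAux in
theorem tFrb.{u} : S_Frb.{u} := by
  intro F _ _ p _ _ x w
  have h1 : ∀ y : F, frobeniusEquiv F p y = y ^ p := fun y => by
    rw [frobeniusEquiv_apply, frobenius_def]
  have h2 := sep_iff (kk x) (kk (x ^ p)) (frobeniusEquiv F p)
    (fun a => by rw [← h1 x]; exact kk_iff _ x a) w
  rw [h1] at h2
  exact h2

end Pool.Agent.MPa267.D1
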