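import Pool.Agent.Lib.MP_a267a3_lc.D1.Spec

set_option autoImplicit false

namespace Pool.Agent.MPa267.D1

open OnePoint

universe u

namespace GamAux

variable {F : Type u} [Field F]

/-- an automorphism with a fixed point outside of `k` has finite orbits -/
theorem orbit (hT : TD1 F) (σ : F ≃+* F) (z : F) (hz : z ∉ acl (∅ : Set F)) (hσ : σ z = z)
    (a : F) : ∃ m : ℕ, (⇑σ)^[m + 1] a = a := by
  have ha : a ∈ acl ({z} : Set F) := by
    rw [hT z hz]
    trivial
  rw [mem_acl] at ha
  obtain ⟨p, hp0, hp⟩ := ha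
  have hfix : ∀ b ∈ Subfield.closure ({z} : Set F), σ b = b := by
    intro b hb
    have h1 : Subfield.closure ({z} : Set F) ≤
        RingHom.eqLocusField (σ : F →+* F) (RingHom.id F) := by
      rw [Subfield.closure_le]
      rintro _ rfl
      exact hσ
    exact h1 hb
  have hroot : ∀ b : F, Polynomial.aeval b p = 0 → Polynomial.aeval (σ b) p = 0 := by
    intro b hb
    have h2 : Polynomial.aeval (σ b) p = σ (Polynomial.aeval b p) := by
      rw [Polynomial.aeval_def, Polynomial.aeval_def]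
      have h3 := Polynomial.hom_eval₂ p (algebraMap (Subfield.closure ({z} : Set F)) F)
        (σ : F →+* F) b
      have h4 : (σ : F →+* F).comp (algebraMap (Subfield.closure ({z} : Set F)) F) =
          algebraMap (Subfield.closure ({z} : Set F)) F := by
        ext c
        exact hfix c c.2
      rw [h4] at h3
      exact h3.symm
    rw [h2, hb, map_zero]
  have hit : ∀ i : ℕ, Polynomial.aeval ((⇑σ)^[i] a) p = 0 := by
    intro i
    induction i with
    | zero => exact hp
    | succ i ih =>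
      rw [Function.iterate_succ_apply']
      exact hroot _ ih
  have hfin : (p.rootSet F).Finite := Polynomial.rootSet_finite p F
  have hmap : ∀ i : ℕ, (⇑σ)^[i] a ∈ p.rootSet F := by
    intro i
    rw [Polynomial.mem_rootSet]
    exact ⟨hp0, hit i⟩
  obtain ⟨i, j, hij, heq⟩ : ∃ i j : ℕ, i < j ∧ (⇑σ)^[i] a = (⇑σ)^[j] a := by
    have hni : ¬ Function.Injective (fun i : ℕ => (⟨(⇑σ)^[i] a, hmap i⟩ : p.rootSet F)) := by
      intro hinj
      have := hfin.to_subtype
      exact not_injective_infinite_finite _ hinj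
    rw [Function.Injective] at hni
    push Not at hni
    obtain ⟨i, j, h1, h2⟩ := hni
    have h3 : (⇑σ)^[i] a = (⇑σ)^[j] a := congrArg Subtype.val h1
    rcases lt_or_gt_of_ne h2 with h | h
    · exact ⟨i, j, h, h3⟩
    · exact ⟨j, i, h, h3.symm⟩
  obtain ⟨m, rfl⟩ : ∃ m, j = i + (m + 1) := ⟨j - i - 1, by omega⟩
  refine ⟨m, ?_⟩
  rw [Function.iterate_add_apply] at heq
  exact ((σ.injective.iterate i) heq).symm

/-- part (1) of the proof -/
theorem fix {L : F → Subfield F} (hT : TD1 F) (hL : LFam L) (σ : F ≃+* F)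
    (hk : ∀ a ∈ acl (∅ : Set F), σ a = a) (z : F) (hz : z ∉ acl (∅ : Set F)) (hσ : σ z = z)
    (x : F) (hx : x ∉ acl (∅ : Set F)) : L (σ x) = L x := by
  have hx' : σ x ∉ acl (∅ : Set F) := by
    intro h
    have h1 := σ.injective (hk _ h)
    rw [h1] at h
    exact hx h
  rcases hL.tot x (σ x) hx hx' with h | h
  · refine le_antisymm ?_ h
    intro a ha
    obtain ⟨m, hm⟩ := orbit hT σ z hz hσ a
    have h1 : ∀ i : ℕ, (⇑σ.symm)^[i + 1] a ∈ L x := by
      intro i
      induction i with
      | zero =>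
        rw [hL.eqv σ x hx]
        simpa using ha
      | succ i ih =>
        rw [Function.iterate_succ_apply', hL.eqv σ x hx, RingEquiv.apply_symm_apply]
        exact h ih
    have h2 : (⇑σ.symm)^[m + 1] a = a := by
      have h3 : Function.LeftInverse (⇑σ.symm)^[m + 1] (⇑σ)^[m + 1] :=
        Function.LeftInverse.iterate (fun y => σ.symm_apply_apply y) (m + 1)
      have h4 := h3 a
      rwa [hm] at h4
    rw [← h2]
    exact h1 m
  · refine le_antisymm h ?_
    intro a ha
    obtain ⟨m, hm⟩ := orbit hT σ z hz hσ a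
    have h1 : ∀ i : ℕ, (⇑σ)^[i + 1] a ∈ L (σ x) := by
      intro i
      induction i with
      | zero => exact (hL.eqv σ x hx a).1 ha
      | succ i ih =>
        rw [Function.iterate_succ_apply']
        exact (hL.eqv σ x hx _).1 (h ih)
    rw [← hm]
    exact h1 m

/-- `k` is quadratically closed in `F` -/
theorem quad [IsAlgClosed F] (z b d : F) (hb : b ∈ acl (∅ : Set F)) (hd : d ∈ acl (∅ : Set F))
    (h : z * z + b * z + d = 0) : z ∈ acl (∅ : Set F) := by
  have := isAlgClosed_acl (F := F) (∅ : Set F)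
  obtain ⟨r, hr⟩ := IsAlgClosed.exists_root
    (Polynomial.X ^ 2 + Polynomial.C (⟨b, hb⟩ : acl (∅ : Set F)) * Polynomial.X +
      Polynomial.C (⟨d, hd⟩ : acl (∅ : Set F))) (by
      rw [show (Polynomial.X ^ 2 + Polynomial.C (⟨b, hb⟩ : acl (∅ : Set F)) * Polynomial.X +
        Polynomial.C (⟨d, hd⟩ : acl (∅ : Set F))) =
        (Polynomial.C 1 * Polynomial.X ^ 2 + Polynomial.C (⟨b, hb⟩ : acl (∅ : Set F)) *
          Polynomial.X + Polynomial.C (⟨d, hd⟩ : acl (∅ : Set F))) by simp]
      rw [Polynomial.degree_quadratic one_ne_zero]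
      norm_num)
  have hr' : (r : F) * r + b * r + d = 0 := by
    have h1 := congrArg (Subtype.val) hr.eq_zero
    simp only [Polynomial.eval_add, Polynomial.eval_mul, Polynomial.eval_pow, Polynomial.eval_X,
      Polynomial.eval_C] at h1
    have h2 : (r : F) ^ 2 + b * r + d = 0 := h1
    rw [← h2]
    ring
  have h3 : (z - r) * (z + r + b) = 0 := by
    have : (z - r) * (z + r + b) = (z * z + b * z + d) - ((r : F) * r + b * r + d) := by ring
    rw [this, h, hr', sub_zero]
  rcases mul_eq_zero.1 h3 with h4 | h4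
  · rw [sub_eq_zero.1 h4]
    exact r.2
  · have h5 : z = -(r + b) := by linear_combination h4
    rw [h5]
    exact neg_mem (add_mem r.2 hb)

/-- the composition argument -/
theorem comp {L : F → Subfield F} (hT : TD1 F) (hL : LFam L) (σ α : F ≃+* F)
    (hk : ∀ a ∈ acl (∅ : Set F), σ a = a) (hα : ∀ a ∈ acl (∅ : Set F), α a = a)
    (z w : F) (hz : z ∉ acl (∅ : Set F)) (hαz : α z = z) (hw : w ∉ acl (∅ : Set F))
    (hβw : σ (α w) = w) (x : F) (hx : x ∉ acl (∅ : Set F)) : L (σ x) = L x := by
  have hβ : ∀ a ∈ acl (∅ : Set F), (α.trans σ) a = a := by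
    intro a ha
    rw [RingEquiv.trans_apply, hα a ha, hk a ha]
  have hy : α.symm x ∉ acl (∅ : Set F) := by
    intro h
    have h1 := hα _ h
    rw [RingEquiv.apply_symm_apply] at h1
    rw [← h1] at h
    exact hx h
  have h1 := fix hT hL (α.trans σ) hβ w hw (by rw [RingEquiv.trans_apply, hβw]) _ hy
  have h2 := fix hT hL α hα z hz hαz _ hy
  rw [RingEquiv.trans_apply, RingEquiv.apply_symm_apply] at h1
  rw [RingEquiv.apply_symm_apply] at h2
  rw [h1, ← h2]

end GamAux

open GamAux

theorem tGam : S_Gam.{u} := by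
  intro F _ _ L hT hL σ hk ⟨z, hz, c, hc, hσ⟩ x hx
  have := isAlgClosed_acl (F := F) (∅ : Set F)
  have hz0 : z ≠ 0 := by
    rintro rfl
    exact hz (zero_mem _)
  rcases hσ with hσ | ⟨hc0, hσ⟩
  · obtain ⟨α, hα, hαz⟩ := exists_aut_of_not_mem (acl (∅ : Set F)) (x := z) (y := -z) hz
      (fun h => hz (by simpa using neg_mem h))
    refine comp hT hL σ α hk hα (z * z) (z * (z + c)) ?_ ?_ ?_ ?_ x hx
    · intro h
      exact hz (quad z 0 (-(z * z)) (zero_mem _) (neg_mem h) (by ring))
    · rw [map_mul, hαz]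
      ring
    · intro h
      exact hz (quad z c (-(z * (z + c))) hc (neg_mem h) (by ring))
    · rw [map_mul, map_add, hαz, hα c hc, map_mul, map_add, map_neg, hσ, hk c hc]
      ring
  · obtain ⟨α, hα, hαz⟩ := exists_aut_of_not_mem (acl (∅ : Set F)) (x := z) (y := z⁻¹) hz
      (fun h => hz (by simpa using inv_mem h))
    refine comp hT hL σ α hk hα (z + z⁻¹) (c * z + z⁻¹) ?_ ?_ ?_ ?_ x hx
    · intro h
      refine hz (quad z (-(z + z⁻¹)) 1 (neg_mem h) (one_mem _) ?_)
      field_simp
      ring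
    · rw [map_add, map_inv₀, hαz, inv_inv, add_comm]
    · intro h
      refine hz (quad z (-((c * z + z⁻¹) * c⁻¹)) c⁻¹ (neg_mem (mul_mem h (inv_mem hc)))
        (inv_mem hc) ?_)
      field_simp
      ring
    · rw [map_add, map_mul, map_inv₀, hαz, hα c hc, inv_inv, map_add, map_mul, map_inv₀, hσ,
        hk c hc]
      field_simp
      ring

end Pool.Agent.MPa267.D1
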