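import Pool.Agent.Lib.MP_a267a3_lc.D1.Spec

/-!
# MP_a267a3_lc, D1: the fields `L x` are the separable closures of `k(x)`
-/

set_option autoImplicit false

namespace Pool.Agent.MPa267.D1

open OnePoint

universe u

namespace LSAux

/-- The Frobenius automorphism. -/
noncomputable def fro (F : Type u) [Field F] [IsAlgClosed F] (p : ℕ) [Fact p.Prime] [CharP F p] :
    F ≃+* F :=
  haveI : ExpChar F p := ExpChar.prime (Fact.out : p.Prime)
  RingEquiv.ofBijective (frobenius F p)
    ⟨frobenius_inj F p, fun x => by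
      obtain ⟨z, hz⟩ := IsAlgClosed.exists_pow_nat_eq x (Fact.out : p.Prime).pos
      exact ⟨z, by rw [frobenius_def]; exact hz⟩⟩

theorem fro_apply (F : Type u) [Field F] [IsAlgClosed F] (p : ℕ) [Fact p.Prime] [CharP F p]
    (x : F) : fro F p x = x ^ p := rfl

theorem pow_mem_iff (F : Type u) [Field F] [IsAlgClosed F] (p : ℕ) [Fact p.Prime] [CharP F p]
    (x : F) : x ^ p ∈ acl (∅ : Set F) ↔ x ∈ acl (∅ : Set F) := by
  have h := map_acl (fro F p) (s := (∅ : Set F)) (x := x)
  rw [Set.image_empty, fro_apply] at h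
  exact h

theorem sep_mem {F : Type u} [Field F] (p : ℕ) [Fact p.Prime] [CharP F p] (K M : Subfield F)
    (hKM : K ≤ M) (w : F) (hw : w ∈ (separableClosure K F).toSubfield) (e : ℕ)
    (he : w ^ p ^ e ∈ M) : w ∈ M := by
  haveI : ExpChar F p := ExpChar.prime (Fact.out : p.Prime)
  haveI : ExpChar M p := RingHom.expChar (algebraMap M F) (algebraMap M F).injective p
  letI : Algebra K M := (Subfield.inclusion hKM).toAlgebra
  haveI : IsScalarTower K M F := IsScalarTower.of_algebraMap_eq (fun _ => rfl)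
  have h1 : IsSeparable K w := mem_separableClosure_iff.mp hw
  have h2 : IsSeparable M w := IsSeparable.tower_top M h1
  have h3 : w ∈ separableClosure M F := mem_separableClosure_iff.mpr h2
  have h4 : w ∈ perfectClosure M F := by
    rw [mem_perfectClosure_iff_pow_mem p]
    exact ⟨e, ⟨⟨w ^ p ^ e, he⟩, rfl⟩⟩
  have h5 : w ∈ separableClosure M F ⊓ perfectClosure M F := ⟨h3, h4⟩
  rw [separableClosure_inf_perfectClosure] at h5
  obtain ⟨z, hz⟩ := IntermediateField.mem_bot.mp h5
  rw [← hz]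
  exact z.2

end LSAux

open LSAux in
theorem tLS.{v} (hPur : S_Pur.{v}) (hFrb : S_Frb.{v}) (hSpB : S_SpB.{v}) (hSpC : S_SpC.{v}) :
    S_LS.{v} := by
  intro F _ _ p _ _ L hTD hL
  haveI : ExpChar F p := ExpChar.prime (Fact.out : p.Prime)
  have hQ : ∀ x, x ∉ acl (∅ : Set F) → x ∉ L (x ^ p) := by
    intro y hy hmem
    have hyp : y ^ p ∉ acl (∅ : Set F) := fun h => hy ((pow_mem_iff F p y).mp h)
    have h1 : L y ≤ L (y ^ p) := hL.mono (y ^ p) y hyp hy hmem
    have h2 : L (y ^ p) ≤ L y := hL.mono y (y ^ p) hy hyp (pow_mem (hL.mem y hy) p)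
    have h3 : L (y ^ p) = L y := le_antisymm h2 h1
    have h4 : ∀ a, a ^ p ∈ L y → a ∈ L y := by
      intro a ha
      rw [hL.eqv (fro F p) y hy a, fro_apply, fro_apply, h3]
      exact ha
    have h5 : ∀ (e : ℕ) (a : F), a ^ p ^ e ∈ L y → a ∈ L y := by
      intro e
      induction e with
      | zero => intro a ha; simpa using ha
      | succ e ih =>
        intro a ha
        refine h4 a (ih (a ^ p) ?_)
        rw [← pow_mul, ← pow_succ']
        exact ha
    refine hL.ne y hy ?_
    rw [eq_top_iff]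
    intro z _
    obtain ⟨e, he⟩ := hPur F p L hTD hL y hy z
    exact h5 e z he
  have hle : ∀ x, x ∉ acl (∅ : Set F) → Sp x ≤ L x := by
    intro x hx w hw
    obtain ⟨e, he⟩ := hPur F p L hTD hL x hx w
    refine sep_mem p (kk x) (L x) ?_ w hw e he
    unfold kk
    rw [Subfield.closure_le]
    intro a ha
    rcases ha with rfl | ha
    · exact hL.mem _ hx
    · exact hL.le x hx ha
  refine ⟨hQ, fun x hx => le_antisymm ?_ (hle x hx)⟩
  intro w hw
  by_contra hwS
  obtain ⟨y, hy⟩ := IsAlgClosed.exists_pow_nat_eq x (Fact.out : p.Prime).pos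
  have hyk : y ∉ acl (∅ : Set F) := fun h => hx (by rw [← hy]; exact pow_mem h p)
  have hyL : y ∉ L x := by
    have := hQ y hyk
    rwa [hy] at this
  have hyS : y ∉ Sp x := fun h => hyL (hle x hx h)
  classical
  have hex : ∃ j : ℕ, w ^ p ^ j ∈ Sp x := hSpC F p hTD x hx w
  have hj := Nat.find_spec hex
  have hj0 : Nat.find hex ≠ 0 := by
    intro h0
    rw [h0, pow_zero, pow_one] at hj
    exact hwS hj
  obtain ⟨i, hi⟩ := Nat.exists_eq_succ_of_ne_zero hj0
  have hmin : w ^ p ^ i ∉ Sp x := Nat.find_min hex (by omega)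
  rw [hi] at hj
  have hv : (w ^ p ^ i) ^ p ∈ Sp (y ^ p) := by
    rw [hy, ← pow_mul, ← pow_succ]
    exact hj
  have hvy : w ^ p ^ i ∈ Sp y := (hFrb F p y (w ^ p ^ i)).mp hv
  have hcl := hSpB F p y (w ^ p ^ i) (by rw [hy]; exact hyS) hvy (by rw [hy]; exact hmin)
  rw [hy] at hcl
  have hle2 : Subfield.closure (insert (w ^ p ^ i) ((Sp x : Subfield F) : Set F)) ≤ L x := by
    rw [Subfield.closure_le]
    intro a ha
    rcases ha with rfl | ha
    · exact pow_mem hw _
    · exact hle x hx ha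
  exact hyL (hle2 hcl)

end Pool.Agent.MPa267.D1
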