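import Pool.Agent.Lib.MP_a267a3_lc.D1.Spec

/-!
# MP_a267a3_lc, transcendence degree one: closures of one point are projective lines over subfields
-/

set_option autoImplicit false

namespace Pool.Agent.MPa267.D1

open OnePoint

universe u

namespace LfAux

section Field

variable {F : Type u} [Field F]

/-- An involution maps `S` onto `S` if it maps `S` over `D`. -/
theorem mem_of_invol {S D : Set (OnePoint F)} {g : Equiv.Perm (OnePoint F)} (hg : g * g = 1)
    (h : D ⊆ g '' S → g '' S = S) (hD : ∀ d ∈ D, g d ∈ S) {a : OnePoint F} (ha : a ∈ S) : g a ∈ S := by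
  have h1 : D ⊆ g '' S := by
    intro d hd
    refine ⟨g d, hD d hd, ?_⟩
    have := congrArg (fun f : Equiv.Perm (OnePoint F) => f d) hg
    simpa using this
  rw [← h h1]
  exact ⟨a, ha, rfl⟩

/-- `z ↦ c - z` -/
noncomputable def gs (c : F) : Equiv.Perm (OnePoint F) := addP c * mulP (-1)

theorem gs_infty (c : F) : gs c ∞ = ∞ := by
  unfold gs
  rw [Equiv.Perm.mul_apply, mulP_infty, addP_infty]

theorem gs_coe (c a : F) : gs c (a : OnePoint F) = ((c - a : F) : OnePoint F) := by
  unfold gs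
  rw [Equiv.Perm.mul_apply, mulP_coe (neg_ne_zero.2 one_ne_zero), addP_coe]
  congr 1
  ring

theorem gs_gs (c : F) : gs c * gs c = 1 := by
  ext x
  induction x using OnePoint.rec with
  | infty => rw [Equiv.Perm.mul_apply, gs_infty, gs_infty]; rfl
  | coe x =>
    rw [Equiv.Perm.mul_apply, gs_coe, gs_coe, Equiv.Perm.one_apply]
    congr 1
    ring

/-- `z ↦ c / z` -/
noncomputable def gd (c : F) : Equiv.Perm (OnePoint F) := mulP c * invP

theorem gd_infty {c : F} (hc : c ≠ 0) : gd c ∞ = ((0 : F) : OnePoint F) := by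
  unfold gd
  rw [Equiv.Perm.mul_apply, invP_infty, mulP_coe hc, mul_zero]

theorem gd_zero (c : F) : gd c ((0 : F) : OnePoint F) = ∞ := by
  unfold gd
  rw [Equiv.Perm.mul_apply, invP_zero, mulP_infty]

theorem gd_coe {c a : F} (hc : c ≠ 0) (ha : a ≠ 0) : gd c (a : OnePoint F) = ((c * a⁻¹ : F) : OnePoint F) := by
  unfold gd
  rw [Equiv.Perm.mul_apply, invP_coe ha, mulP_coe hc]

theorem gd_gd {c : F} (hc : c ≠ 0) : gd c * gd c = 1 := by
  ext x
  induction x using OnePoint.rec with
  | infty => rw [Equiv.Perm.mul_apply, gd_infty hc, gd_zero]; rfl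
  | coe x =>
    rw [Equiv.Perm.mul_apply, Equiv.Perm.one_apply]
    by_cases hx : x = 0
    · subst hx
      rw [gd_zero, gd_infty hc]
    · rw [gd_coe hc hx, gd_coe hc (mul_ne_zero hc (inv_ne_zero hx))]
      congr 1
      field_simp

theorem gs_mem_GG (c : F) : gs c ∈ GG F := mul_mem (addP_mem_GG _) (mulP_mem_GG _)

theorem gd_mem_GG (c : F) : gd c ∈ GG F := mul_mem (mulP_mem_GG _) invP_mem_GG

/-- (c): the subfield. -/
theorem exists_subfield {K : Subfield F} {S : Set (OnePoint F)} (hDS : PP K ⊆ S)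
    (hb : ∀ g ∈ GG F, g * g = 1 → PP K ⊆ g '' S → g '' S = S) : ∃ L : Subfield F, S = PP L := by
  have hcK : ∀ c ∈ K, ((c : F) : OnePoint F) ∈ S := fun c hc => hDS ((coe_mem_PP K c).2 hc)
  have hinf : (∞ : OnePoint F) ∈ S := hDS (infty_mem_PP K)
  -- (c1)
  have c1a : ∀ c ∈ K, ∀ a : F, (a : OnePoint F) ∈ S → ((c - a : F) : OnePoint F) ∈ S := by
    intro c hc a ha
    have h := mem_of_invol (gs_gs c) (hb _ (gs_mem_GG c) (gs_gs c)) (by
      rintro d (rfl | ⟨b, hb, rfl⟩)
      · rw [gs_infty]; exact hinf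
      · rw [gs_coe]; exact hcK _ (K.sub_mem hc hb)) ha
    rwa [gs_coe] at h
  have c1b : ∀ c ∈ K, c ≠ 0 → ∀ a : F, a ≠ 0 → (a : OnePoint F) ∈ S →
      ((c * a⁻¹ : F) : OnePoint F) ∈ S := by
    intro c hc hc0 a ha0 ha
    have h := mem_of_invol (gd_gd hc0) (hb _ (gd_mem_GG c) (gd_gd hc0)) (by
      rintro d (rfl | ⟨b, hb, rfl⟩)
      · rw [gd_infty hc0]; exact hcK _ K.zero_mem
      · by_cases hb0 : b = 0
        · subst hb0
          rw [gd_zero]; exact hinf
        · rw [gd_coe hc0 hb0]; exact hcK _ (K.mul_mem hc (K.inv_mem hb))) ha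
    rwa [gd_coe hc0 ha0] at h
  -- (c2)
  have c2 : ∀ u : F, (u : OnePoint F) ∈ S → ∀ a : F, (a : OnePoint F) ∈ S → a ≠ 0 →
      ((u * a⁻¹ : F) : OnePoint F) ∈ S := by
    intro u hu a ha ha0
    by_cases hu0 : u = 0
    · subst hu0
      rw [zero_mul]
      exact hcK _ K.zero_mem
    have h1 := c1b 1 K.one_mem one_ne_zero u hu0 hu
    have h := mem_of_invol (gd_gd hu0) (hb _ (gd_mem_GG u) (gd_gd hu0)) (by
      rintro d (rfl | ⟨b, hb, rfl⟩)
      · rw [gd_infty hu0]; exact hcK _ K.zero_mem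
      · by_cases hb0 : b = 0
        · subst hb0
          rw [gd_zero]; exact hinf
        · rw [gd_coe hu0 hb0]
          have h2 := c1b b⁻¹ (K.inv_mem hb) (inv_ne_zero hb0) (1 * u⁻¹)
            (mul_ne_zero one_ne_zero (inv_ne_zero hu0)) h1
          have e : b⁻¹ * (1 * u⁻¹)⁻¹ = u * b⁻¹ := by
            rw [one_mul, inv_inv, mul_comm]
          rwa [e] at h2) ha
    rwa [gd_coe hu0 ha0] at h
  have hz : ((0 : F) : OnePoint F) ∈ S := hcK _ K.zero_mem
  have ho : ((1 : F) : OnePoint F) ∈ S := hcK _ K.one_mem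
  have hmul : ∀ a b : F, (a : OnePoint F) ∈ S → (b : OnePoint F) ∈ S → ((a * b : F) : OnePoint F) ∈ S := by
    intro a b ha hb'
    by_cases hb0 : b = 0
    · subst hb0
      rw [mul_zero]
      exact hz
    · have h1 := c2 1 ho b hb' hb0
      have h2 := c2 a ha (1 * b⁻¹) h1 (mul_ne_zero one_ne_zero (inv_ne_zero hb0))
      rwa [one_mul, inv_inv] at h2
  have hneg : ∀ a : F, (a : OnePoint F) ∈ S → ((-a : F) : OnePoint F) ∈ S := by
    intro a ha
    have := c1a 0 K.zero_mem a ha
    rwa [zero_sub] at this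
  have hadd : ∀ a b : F, (a : OnePoint F) ∈ S → (b : OnePoint F) ∈ S → ((a + b : F) : OnePoint F) ∈ S := by
    intro a b ha hb'
    by_cases hb0 : b = 0
    · subst hb0
      rw [add_zero]
      exact ha
    · have h1 := c2 a ha b hb' hb0
      have h2 := c1a 1 K.one_mem _ (hneg _ h1)
      have h3 := hmul _ _ hb' h2
      have e : b * (1 - -(a * b⁻¹)) = a + b := by
        field_simp
        ring
      rwa [e] at h3
  refine ⟨{ carrier := {a | (a : OnePoint F) ∈ S}
            mul_mem' := fun {a b} ha hb' => hmul a b ha hb'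
            one_mem' := ho
            add_mem' := fun {a b} ha hb' => hadd a b ha hb'
            zero_mem' := hz
            neg_mem' := fun {a} ha => hneg a ha
            inv_mem' := fun a ha => ?_ }, ?_⟩
  · by_cases ha0 : a = 0
    · subst ha0
      rw [inv_zero]
      exact hz
    · have := c2 1 ho a ha ha0
      rwa [one_mul] at this
  · ext x
    induction x using OnePoint.rec with
    | infty => exact ⟨fun _ => infty_mem_PP _, fun _ => hinf⟩
    | coe x =>
      rw [coe_mem_PP]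
      exact Iff.rfl

/-- Automorphisms preserve `P¹(k)`. -/
theorem image_DD (σ : F ≃+* F) : autP σ '' DD F = DD F := by
  have key : ∀ σ : F ≃+* F, autP σ '' DD F ⊆ DD F := by
    rintro σ _ ⟨x, (rfl | ⟨a, ha, rfl⟩), rfl⟩
    · rw [autP_infty]; exact infty_mem_PP _
    · rw [autP_coe, coe_mem_PP]
      have := (map_acl σ (s := ∅) (x := a)).2 ha
      rwa [Set.image_empty] at this
  apply Set.Subset.antisymm (key σ)
  intro x hx
  refine ⟨autP σ.symm x, key σ.symm ⟨x, hx, rfl⟩, ?_⟩
  rw [autP_symm]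
  exact apply_inv_self' _ _

theorem not_mem_acl (σ : F ≃+* F) {x : F} (hx : x ∉ acl (∅ : Set F)) : σ x ∉ acl (∅ : Set F) := by
  intro h
  apply hx
  have := map_acl σ (s := ∅) (x := x)
  rw [Set.image_empty] at this
  exact this.1 h

end Field

/-- (b) -/
theorem image_eq {X : Type u} {H : Subgroup (Equiv.Perm X)} {𝒮 : Set (Set X)} {A S : Set X}
    (ht : ∀ S ∈ JJ H 𝒮, ∀ T ∈ JJ H 𝒮, A ⊆ S → A ⊆ T → S ⊆ T ∨ T ⊆ S) (hS : S ∈ JJ H 𝒮) (hA : A ⊆ S)
    {g : Equiv.Perm X} (hg : g ∈ H) (hgg : g * g = 1) (hgA : A ⊆ g '' S) : g '' S = S := by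
  have e : ∀ x, g (g x) = x := by
    intro x
    have := congrArg (fun f : Equiv.Perm X => f x) hgg
    simpa using this
  have e2 : ∀ T : Set X, g '' (g '' T) = T := by
    intro T
    rw [← Set.image_comp]
    have : (g : X → X) ∘ g = id := by
      funext x
      exact e x
    rw [this, Set.image_id]
  rcases ht S hS (g '' S) (image_mem_JJ hS hg) hA hgA with h | h
  · apply Set.Subset.antisymm _ h
    have := Set.image_mono (f := g) h
    rwa [e2] at this
  · apply Set.Subset.antisymm h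
    have := Set.image_mono (f := g) h
    rwa [e2] at this

end LfAux

open LfAux in
theorem tLf.{v} (hTot : S_Tot.{v}) : S_Lf.{v} := by
  intro F _ _ H n s A hAD hEx
  have hDJ : DD F ∈ JJ H (SS F) := s.abs.mem_JJ_of_mem s.abs.mem
  have hsm : Small H (SS F) A := AbsSetup.small_of_mem_JJ_of_subset hDJ hAD
  obtain ⟨t1, t2⟩ := hTot (OnePoint F) H (SS F) (DD F) n s.abs A hsm hEx
  have hAcl : cl H (SS F) A ⊆ DD F := cl_subset_of_mem_JJ hDJ hAD
  have hxD : ∀ x : F, x ∉ acl (∅ : Set F) → (x : OnePoint F) ∉ DD F := by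
    intro x hx h
    exact hx ((coe_mem_PP _ _).1 h)
  have hne : ∀ x : F, x ∉ acl (∅ : Set F) → Cl H (insert (x : OnePoint F) A) ≠ Set.univ :=
    fun x hx => t1 _ fun h => hxD x hx (hAcl h)
  have hPJ : ∀ x : F, x ∉ acl (∅ : Set F) → Cl H (insert (x : OnePoint F) A) ∈ JJ H (SS F) := by
    intro x hx
    apply s.abs.cl_mem_JJ
    by_contra h
    exact hne x hx (s.abs.cl_eq_univ h)
  have hAP : ∀ x : F, A ⊆ Cl H (insert (x : OnePoint F) A) := fun x =>
    (Set.subset_insert _ _).trans (subset_cl _)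
  have hxP : ∀ x : F, (x : OnePoint F) ∈ Cl H (insert (x : OnePoint F) A) := fun x =>
    subset_cl _ (Set.mem_insert _ _)
  have hDP : ∀ x : F, x ∉ acl (∅ : Set F) → DD F ⊆ Cl H (insert (x : OnePoint F) A) := by
    intro x hx
    rcases t2 _ hDJ _ (hPJ x hx) hAD (hAP x) with h | h
    · exact h
    · exact absurd (h (hxP x)) (hxD x hx)
  have key : ∀ x : F, x ∉ acl (∅ : Set F) → ∃ L : Subfield F, Cl H (insert (x : OnePoint F) A) = PP L := by
    intro x hx
    apply exists_subfield (hDP x hx)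
    intro g hg hgg hgD
    exact image_eq t2 (hPJ x hx) (hAP x) (s.hG hg) hgg (hAD.trans hgD)
  choose! L hL using key
  refine ⟨L, ⟨?_, ?_, ?_, ?_, ?_, ?_⟩, hL⟩
  · intro x hx a ha
    have := hDP x hx ((coe_mem_PP _ _).2 ha)
    rw [hL x hx] at this
    exact (coe_mem_PP _ _).1 this
  · intro x hx
    have := hxP x
    rw [hL x hx] at this
    exact (coe_mem_PP _ _).1 this
  · intro x y hx hy hyx
    have h1 : (y : OnePoint F) ∈ Cl H (insert (x : OnePoint F) A) := by
      rw [hL x hx]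
      exact (coe_mem_PP _ _).2 hyx
    have h2 : Cl H (insert (y : OnePoint F) A) ⊆ Cl H (insert (x : OnePoint F) A) := by
      apply cl_le
      exact Set.insert_subset h1 (hAP x)
    rw [hL x hx, hL y hy] at h2
    intro a ha
    exact (coe_mem_PP _ _).1 (h2 ((coe_mem_PP _ _).2 ha))
  · intro x y hx hy
    have h := t2 _ (hPJ x hx) _ (hPJ y hy) (hAP x) (hAP y)
    rw [hL x hx, hL y hy] at h
    rcases h with h | h
    · exact Or.inl fun a ha => (coe_mem_PP _ _).1 (h ((coe_mem_PP _ _).2 ha))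
    · exact Or.inr fun a ha => (coe_mem_PP _ _).1 (h ((coe_mem_PP _ _).2 ha))
  · intro σ x hx a
    have hx' := not_mem_acl σ hx
    have e : ∀ y : F, y ∉ acl (∅ : Set F) →
        Cl H (insert (y : OnePoint F) A) = Cl H (insert (y : OnePoint F) (DD F)) := by
      intro y hy
      apply Set.Subset.antisymm
      · exact cl_mono (Set.insert_subset_insert hAD)
      · apply cl_le
        exact Set.insert_subset (hxP y) (hDP y hy)
    have h1 : autP σ '' Cl H (insert (x : OnePoint F) A) = Cl H (insert ((σ x : F) : OnePoint F) A) := by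
      rw [e x hx, e _ hx']
      show autP σ '' cl H (SS F) _ = cl H (SS F) _
      rw [image_cl (s.hG (autP_mem_GG σ)), Set.image_insert_eq, image_DD, autP_coe]
    rw [hL x hx, hL _ hx'] at h1
    rw [← coe_mem_PP (L x), ← coe_mem_PP (L (σ x)), ← h1, ← autP_coe]
    constructor
    · intro h
      exact ⟨_, h, rfl⟩
    · rintro ⟨y, hy, hyx⟩
      rwa [(autP σ).injective hyx] at hy
  · intro x hx h
    apply hne x hx
    rw [hL x hx, h, Set.eq_univ_iff_forall]
    intro y
    induction y using OnePoint.rec with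
    | infty => exact infty_mem_PP _
    | coe y => exact (coe_mem_PP _ _).2 (Subfield.mem_top y)

end Pool.Agent.MPa267.D1
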