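import Pool.Agent.Lib.MP_a267a3_lc.D1.Spec
import Pool.Agent.Lib.MP_a267a3_lc.AlgC

/-!
# MP_a267a3_lc, transcendence degree one: purely inseparable over the fields of the chain
-/

set_option autoImplicit false

namespace Pool.Agent.MPa267.D1

open OnePoint

universe u

namespace PurAux

variable {F : Type u} [Field F]

/-- the orbit of `z` under the automorphisms over `K` -/
def orb (K : Subfield F) (z : F) : Set F := {y | ∃ ρ : F ≃+* F, (∀ a ∈ K, ρ a = a) ∧ ρ z = y}

theorem root_of (K : Subfield F) (z : F) (ρ : F ≃+* F) (h : ∀ a ∈ K, ρ a = a) :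
    Polynomial.aeval (ρ z) (minpoly K z) = 0 := by
  let f : F →ₐ[K] F := { ρ.toRingHom with commutes' := fun a => h a a.2 }
  have e : ρ z = f z := rfl
  rw [e, Polynomial.aeval_algHom_apply, minpoly.aeval, map_zero]

theorem fin_orb (K : Subfield F) (z : F) (hz : IsAlgebraic K z) : (orb K z).Finite := by
  refine (Polynomial.rootSet_finite (minpoly K z) F).subset ?_
  rintro y ⟨ρ, h, rfl⟩
  rw [Polynomial.mem_rootSet]
  exact ⟨minpoly.ne_zero hz.isIntegral, root_of K z ρ h⟩

theorem conj_fix (M : Subfield F) (σ : F ≃+* F) (hM : ∀ a, a ∈ M ↔ σ a ∈ M) (ρ : F ≃+* F)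
    (h : ∀ a ∈ M, ρ a = a) :
    (∀ a ∈ M, σ (ρ (σ.symm a)) = a) ∧ ∀ a ∈ M, σ.symm (ρ (σ a)) = a := by
  constructor
  · intro a ha
    have h1 : σ.symm a ∈ M := by
      rw [hM, σ.apply_symm_apply]
      exact ha
    rw [h _ h1, σ.apply_symm_apply]
  · intro a ha
    rw [h _ ((hM a).1 ha), σ.symm_apply_apply]

theorem orb_image (M : Subfield F) (z : F) (σ : F ≃+* F) (hM : ∀ a, a ∈ M ↔ σ a ∈ M) (T : F → F)
    (hT : ∀ ρ : F ≃+* F, (∀ a ∈ M, ρ a = a) → ∀ y, ρ (T y) = T (ρ y)) (hσ : σ z = T z) :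
    (fun y => σ y) '' orb M z = T '' orb M z := by
  apply Set.Subset.antisymm
  · rintro _ ⟨_, ⟨ρ, h, rfl⟩, rfl⟩
    have h1 := (conj_fix M σ hM ρ h).1
    refine ⟨((σ.symm.trans ρ).trans σ) z, ⟨(σ.symm.trans ρ).trans σ, h1, rfl⟩, ?_⟩
    rw [← hT _ h1, ← hσ]
    change σ (ρ (σ.symm (σ z))) = σ (ρ z)
    rw [σ.symm_apply_apply]
  · rintro _ ⟨_, ⟨ρ, h, rfl⟩, rfl⟩
    have h1 := (conj_fix M σ hM ρ h).2
    refine ⟨((σ.trans ρ).trans σ.symm) z, ⟨(σ.trans ρ).trans σ.symm, h1, rfl⟩, ?_⟩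
    rw [← hT ρ h, ← hσ]
    change σ (σ.symm (ρ (σ z))) = ρ (σ z)
    rw [σ.apply_symm_apply]

open Classical in
/-- the difference, or one on the diagonal -/
noncomputable def G (a b : F) : F := if a = b then 1 else a - b

theorem G_ne (a b : F) : G a b ≠ 0 := by
  unfold G
  split_ifs with h
  · exact one_ne_zero
  · exact sub_ne_zero.2 h

/-- the discriminant -/
noncomputable def ww (Z : Finset F) : F := ∏ a ∈ Z, ∏ b ∈ Z, G a b

theorem ww_ne (Z : Finset F) : ww Z ≠ 0 :=
  Finset.prod_ne_zero_iff.2 fun a _ => Finset.prod_ne_zero_iff.2 fun b _ => G_ne a b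

open Classical in
theorem ww_image (Z : Finset F) (f : F → F) (hf : Function.Injective f) :
    ww (Z.image f) = ∏ a ∈ Z, ∏ b ∈ Z, G (f a) (f b) := by
  unfold ww
  rw [Finset.prod_image (fun a _ b _ h => hf h)]
  refine Finset.prod_congr rfl fun a _ => ?_
  rw [Finset.prod_image (fun a _ b _ h => hf h)]

theorem map_G (σ : F ≃+* F) (a b : F) : σ (G a b) = G (σ a) (σ b) := by
  unfold G
  by_cases h : a = b
  · rw [if_pos h, if_pos (by rw [h]), map_one]
  · rw [if_neg h, if_neg (fun h2 => h (σ.injective h2)), map_sub]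

theorem map_ww (σ : F ≃+* F) (Z : Finset F) : σ (ww Z) = ∏ a ∈ Z, ∏ b ∈ Z, G (σ a) (σ b) := by
  unfold ww
  rw [map_prod]
  refine Finset.prod_congr rfl fun a _ => ?_
  rw [map_prod]
  exact Finset.prod_congr rfl fun b _ => map_G σ a b

theorem G_add (a b c : F) : G (a + c) (b + c) = G a b := by
  unfold G
  by_cases h : a = b
  · rw [if_pos h, if_pos (by rw [h])]
  · rw [if_neg h, if_neg (fun h2 => h (add_right_cancel h2)), add_sub_add_right_eq_sub]

open Classical in
/-- the number of ordered pairs of distinct elements -/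
noncomputable def cnt (Z : Finset F) : ℕ := ∑ a ∈ Z, ∑ b ∈ Z, if a = b then 0 else 1

open Classical in
theorem G_mul (a b c : F) (hc : c ≠ 0) : G (c * a) (c * b) = c ^ (if a = b then 0 else 1) * G a b := by
  unfold G
  by_cases h : a = b
  · rw [if_pos h, if_pos (by rw [h]), if_pos h, pow_zero, one_mul]
  · rw [if_neg h, if_neg (fun h2 => h (mul_left_cancel₀ hc h2)), if_neg h, pow_one, mul_sub]

theorem prod_mul (Z : Finset F) (c : F) (hc : c ≠ 0) :
    (∏ a ∈ Z, ∏ b ∈ Z, G (c * a) (c * b)) = c ^ cnt Z * ww Z := by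
  classical
  unfold cnt ww
  rw [← Finset.prod_pow_eq_pow_sum, ← Finset.prod_mul_distrib]
  refine Finset.prod_congr rfl fun a _ => ?_
  rw [← Finset.prod_pow_eq_pow_sum, ← Finset.prod_mul_distrib]
  exact Finset.prod_congr rfl fun b _ => G_mul a b c hc

/-- the equality of the two products -/
theorem ww_eq (Z : Finset F) (σ : F ≃+* F) (T : F → F) (hT : Function.Injective T)
    (h : (fun y => σ y) '' (Z : Set F) = T '' (Z : Set F)) :
    σ (ww Z) = ∏ a ∈ Z, ∏ b ∈ Z, G (T a) (T b) := by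
  classical
  have h1 : Z.image (fun y => σ y) = Z.image T := by
    apply Finset.coe_injective
    rw [Finset.coe_image, Finset.coe_image, h]
  rw [map_ww, ← ww_image Z (fun y => σ y) σ.injective, h1, ww_image Z T hT]

end PurAux

open PurAux in
theorem tPur.{v} (hGam : S_Gam.{v}) : S_Pur.{v} := by
  intro F _ _ p _ L hT hL x hx z
  by_cases hz : z ∈ acl (∅ : Set F)
  · exact ⟨0, by rw [pow_zero, pow_one]; exact hL.le x hx hz⟩
  have hKc : IsAlgClosed (acl (∅ : Set F)) := isAlgClosed_acl _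
  have hinf : Infinite (acl (∅ : Set F)) := inferInstance
  -- `z` is algebraic over `L x`
  have halg : IsAlgebraic (L x) z := by
    have h1 : z ∈ acl ((L x : Subfield F) : Set F) := by
      have h2 : z ∈ acl ({x} : Set F) := by
        rw [hT x hx]
        exact Subfield.mem_top z
      exact acl_mono (Set.singleton_subset_iff.2 (hL.mem x hx)) h2
    rw [mem_acl, Subfield.closure_eq] at h1
    exact h1
  have hfin := fin_orb (L x) z halg
  obtain ⟨Z, hZ⟩ : ∃ Z : Finset F, (Z : Set F) = orb (L x) z := ⟨hfin.toFinset, hfin.coe_toFinset⟩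
  have hzZ : z ∈ Z := by
    rw [← Finset.mem_coe, hZ]
    exact ⟨RingEquiv.refl F, fun a _ => rfl, rfl⟩
  -- stability of `L x`
  have hst : ∀ σ : F ≃+* F, (∀ a ∈ acl (∅ : Set F), σ a = a) →
      (∃ c ∈ acl (∅ : Set F), σ z = z + c ∨ (c ≠ 0 ∧ σ z = c * z)) → ∀ a, a ∈ L x ↔ σ a ∈ L x := by
    intro σ h1 ⟨c, hc, h2⟩ a
    have h3 := hGam F L hT hL σ h1 ⟨z, hz, c, hc, h2⟩ x hx
    rw [hL.eqv σ x hx a, h3]
  have hk : ∀ a ∈ acl (∅ : Set F), a ∈ L x := fun a ha => hL.le x hx ha
  -- translations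
  have htr : ∀ σ : F ≃+* F, (∀ a ∈ acl (∅ : Set F), σ a = a) → ∀ c ∈ acl (∅ : Set F), σ z = z + c →
      σ (ww Z) = ww Z := by
    intro σ h1 c hc h2
    have h3 := orb_image (L x) z σ (hst σ h1 ⟨c, hc, Or.inl h2⟩) (fun y => y + c)
      (fun ρ hρ y => by rw [map_add, hρ c (hk c hc)]) h2
    rw [← hZ] at h3
    rw [ww_eq Z σ (fun y => y + c) (add_left_injective c) h3]
    unfold ww
    exact Finset.prod_congr rfl fun a _ => Finset.prod_congr rfl fun b _ => G_add a b c
  -- scalings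
  have hsc : ∀ σ : F ≃+* F, (∀ a ∈ acl (∅ : Set F), σ a = a) → ∀ c ∈ acl (∅ : Set F), c ≠ 0 →
      σ z = c * z → σ (ww Z) = c ^ cnt Z * ww Z := by
    intro σ h1 c hc hc0 h2
    have h3 := orb_image (L x) z σ (hst σ h1 ⟨c, hc, Or.inr ⟨hc0, h2⟩⟩) (fun y => c * y)
      (fun ρ hρ y => by rw [map_mul, hρ c (hk c hc)]) h2
    rw [← hZ] at h3
    rw [ww_eq Z σ (fun y => c * y) (mul_right_injective₀ hc0) h3, prod_mul Z c hc0]
  -- `w ∈ k`
  have hw : ww Z ∈ acl (∅ : Set F) := by
    by_contra hw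
    have h1 : IsAlgebraic (Subfield.closure ({ww Z} : Set F)) z := by
      rw [← mem_acl, hT _ hw]
      exact Subfield.mem_top z
    have h2 := fin_orb _ z h1
    have h3 : Set.MapsTo (fun c : acl (∅ : Set F) => z + (c : F)) Set.univ
        (orb (Subfield.closure ({ww Z} : Set F)) z) := by
      intro c _
      have hzc : z + (c : F) ∉ acl (∅ : Set F) := by
        intro h
        apply hz
        have h4 := (acl (∅ : Set F)).sub_mem h c.2
        rwa [add_sub_cancel_right] at h4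
      obtain ⟨σ, h4, h5⟩ := exists_aut_of_not_mem (acl (∅ : Set F)) hz hzc
      refine ⟨σ, ?_, h5⟩
      have h6 : Subfield.closure ({ww Z} : Set F) ≤
          RingHom.eqLocusField (σ : F →+* F) (RingHom.id F) := by
        rw [Subfield.closure_le]
        intro a ha
        rw [Set.mem_singleton_iff] at ha
        subst ha
        exact htr σ h4 c c.2 h5
      intro a ha
      exact h6 ha
    have h7 : (Set.univ : Set (acl (∅ : Set F))).Finite :=
      Set.Finite.of_injOn h3 (fun a _ b _ h => Subtype.ext (add_left_cancel h)) h2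
    exact Set.infinite_univ h7
  -- the number of pairs is zero
  have hN : cnt Z = 0 := by
    by_contra hN
    have h1 : ∀ c : acl (∅ : Set F), c ≠ 0 → (c : F) ^ cnt Z = 1 := by
      intro c hc
      have hc0 : (c : F) ≠ 0 := fun h => hc (Subtype.ext h)
      have hcz : (c : F) * z ∉ acl (∅ : Set F) := by
        intro h
        apply hz
        have h4 := (acl (∅ : Set F)).mul_mem ((acl (∅ : Set F)).inv_mem c.2) h
        rwa [inv_mul_cancel_left₀ hc0] at h4
      obtain ⟨σ, h4, h5⟩ := exists_aut_of_not_mem (acl (∅ : Set F)) hz hcz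
      have h6 := hsc σ h4 c c.2 hc0 h5
      rw [h4 _ hw] at h6
      exact (mul_eq_right₀ (ww_ne Z)).1 h6.symm
    have h2 : Set.MapsTo (fun c : acl (∅ : Set F) => (c : F)) Set.univ
        (((Polynomial.X ^ (cnt Z + 1) - Polynomial.X : Polynomial F).rootSet F) : Set F) := by
      intro c _
      rw [Polynomial.mem_rootSet]
      constructor
      · have h3 : 1 < cnt Z + 1 := by omega
        exact FiniteField.X_pow_card_sub_X_ne_zero F h3
      · rw [map_sub, map_pow, Polynomial.aeval_X]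
        by_cases hc : c = 0
        · rw [hc]
          simp
        · rw [pow_succ, h1 c hc, one_mul, sub_self]
    have h7 : (Set.univ : Set (acl (∅ : Set F))).Finite :=
      Set.Finite.of_injOn h2 (fun a _ b _ h => Subtype.ext h) (Polynomial.rootSet_finite _ F)
    exact Set.infinite_univ h7
  have hone : ∀ y ∈ Z, y = z := by
    classical
    intro y hy
    unfold cnt at hN
    have h1 := (Finset.sum_eq_zero_iff.1 hN) y hy
    have h2 := (Finset.sum_eq_zero_iff.1 h1) z hzZ
    by_contra h3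
    rw [if_neg h3] at h2
    exact one_ne_zero h2
  refine fixed_aut_pow_mem p (L x) fun φ hφ => ?_
  apply hone
  rw [← Finset.mem_coe, hZ]
  exact ⟨φ, hφ, rfl⟩

end Pool.Agent.MPa267.D1
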