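import Pool.Agent.Lib.MP_a267a3_lc.D1.Spec

/-!
# MP_a267a3_lc, D1/SpA: the separable closure of k(x) is generated by x and the one of k(x^p)
-/

set_option autoImplicit false

namespace Pool.Agent.MPa267.D1

open OnePoint

namespace SpAAux

universe u

variable {F : Type u} [Field F]

theorem mem_Sp {x w : F} : w ∈ Sp x ↔ IsSeparable (kk x) w := Iff.rfl

theorem kk_le_Sp (x : F) : kk x ≤ Sp x := by
  intro a ha
  have h : algebraMap (kk x) F ⟨a, ha⟩ ∈ separableClosure (kk x) F :=
    (separableClosure (kk x) F).algebraMap_mem _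
  exact h

theorem acl_le_kk (x : F) : acl (∅ : Set F) ≤ kk x := fun _ ha =>
  Subfield.subset_closure (Set.mem_insert_of_mem _ ha)

/-- the field generated by `x` and the separable closure of `k(x ^ p)` contains `k(x)` -/
theorem kk_le (x : F) (p : ℕ) :
    kk x ≤ Subfield.closure (insert x ((Sp (x ^ p) : Subfield F) : Set F)) := by
  refine Subfield.closure_le.2 ?_
  rintro a (rfl | ha)
  · exact Subfield.subset_closure (Set.mem_insert _ _)
  · exact Subfield.subset_closure (Set.mem_insert_of_mem _ (kk_le_Sp _ (acl_le_kk _ ha)))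

end SpAAux

open SpAAux

theorem tSpA.{u} (hFrb : S_Frb.{u}) : S_SpA.{u} := by
  intro F _ _ p _ _ x w hw
  have hsep : IsSeparable (kk x) w := mem_Sp.1 hw
  have : ExpChar F p := ExpChar.prime Fact.out
  have : ExpChar (kk x) p := RingHom.expChar (algebraMap (kk x) F) (algebraMap (kk x) F).injective p
  have h1 := IntermediateField.adjoin_simple_eq_adjoin_pow_expChar_of_isSeparable (kk x) F hsep p
  have h2 : w ∈ IntermediateField.adjoin (kk x) {w ^ p} := by
    rw [← h1]
    exact IntermediateField.mem_adjoin_simple_self _ w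
  have h3 : IntermediateField.adjoin (kk x) {w ^ p} ≤
      (Subfield.closure (insert x ((Sp (x ^ p) : Subfield F) : Set F))).toIntermediateField
        (fun a => kk_le x p a.2) := by
    rw [IntermediateField.adjoin_le_iff]
    rintro a (rfl : a = w ^ p)
    exact Subfield.subset_closure (Set.mem_insert_of_mem _ ((hFrb F p x w).2 hw))
  exact h3 h2

end Pool.Agent.MPa267.D1
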