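import Pool.Agent.Lib.MP_a267a3_lc.D1.Spec

/-!
# MP_a267a3_lc, D1: `S_SpB`, an extension of prime degree
-/

set_option autoImplicit false

namespace Pool.Agent.MPa267.D1

open OnePoint

namespace SpBAux

/-- The field `k(y)` is contained in its separable closure. -/
lemma self_mem_Sp {F : Type*} [Field F] (y : F) : y ∈ Sp y := by
  have h : y ∈ kk y := Subfield.subset_closure (Set.mem_insert _ _)
  exact (separableClosure (kk y) F).algebraMap_mem ⟨y, h⟩

/-- An extension of prime degree has no intermediate fields. -/
lemma prime_ext {F : Type*} [Field F] (p : ℕ) [Fact p.Prime] [CharP F p] (E : Subfield F) (x v : F)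
    (hxE : x ∉ E) (hxp : x ^ p ∈ E) (hv : v ∈ Subfield.closure (insert x (E : Set F))) (hvE : v ∉ E) :
    x ∈ Subfield.closure (insert v (E : Set F)) := by
  have hp : p.Prime := Fact.out
  have hirr : Irreducible (Polynomial.X ^ p - Polynomial.C (⟨x ^ p, hxp⟩ : E)) := by
    refine X_pow_sub_C_irreducible_of_prime hp ?_
    intro b hb
    have h1 : (b : F) ^ p = x ^ p := congrArg Subtype.val hb
    have h2 : (b : F) = x := by
      have h3 : frobenius F p (b : F) = frobenius F p x := h1
      exact frobenius_inj F p h3
    exact hxE (h2 ▸ b.2)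
  have hmonic : (Polynomial.X ^ p - Polynomial.C (⟨x ^ p, hxp⟩ : E)).Monic :=
    Polynomial.monic_X_pow_sub_C _ hp.ne_zero
  have hroot : Polynomial.aeval x (Polynomial.X ^ p - Polynomial.C (⟨x ^ p, hxp⟩ : E)) = 0 := by
    rw [map_sub, map_pow, Polynomial.aeval_X, Polynomial.aeval_C]
    exact sub_self _
  have hmin : Polynomial.X ^ p - Polynomial.C (⟨x ^ p, hxp⟩ : E) = minpoly E x :=
    minpoly.eq_of_irreducible_of_monic hirr hroot hmonic
  have hint : IsIntegral E x := ⟨_, hmonic, by rw [← Polynomial.aeval_def]; exact hroot⟩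
  have hfin : Module.finrank E (IntermediateField.adjoin E {x}) = p := by
    rw [IntermediateField.adjoin.finrank hint, ← hmin, Polynomial.natDegree_X_pow_sub_C]
  have hcl : ∀ z : F, (IntermediateField.adjoin E {z}).toSubfield =
      Subfield.closure (insert z (E : Set F)) := by
    intro z
    rw [IntermediateField.adjoin_toSubfield]
    congr 1
    ext w
    constructor
    · rintro (⟨b, rfl⟩ | hw)
      · exact Set.mem_insert_of_mem _ b.2
      · exact Set.mem_insert_iff.2 (Or.inl hw)
    · rintro (hw | hw)
      · exact Or.inr hw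
      · exact Or.inl ⟨⟨w, hw⟩, rfl⟩
  have hvT : v ∈ IntermediateField.adjoin E {x} := by
    rw [← hcl x] at hv
    exact hv
  have hle : IntermediateField.adjoin E {v} ≤ IntermediateField.adjoin E {x} := by
    rw [IntermediateField.adjoin_le_iff]
    intro w hw
    rw [Set.mem_singleton_iff.1 hw]
    exact hvT
  have hdvd := IntermediateField.finrank_dvd_of_le_right hle
  rw [hfin] at hdvd
  rcases (Nat.dvd_prime hp).1 hdvd with h1 | h1
  · rw [IntermediateField.finrank_eq_one_iff, IntermediateField.adjoin_simple_eq_bot_iff,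
      IntermediateField.mem_bot] at h1
    obtain ⟨b, hb⟩ := h1
    exact absurd (hb ▸ b.2) hvE
  · have : FiniteDimensional E (IntermediateField.adjoin E {x}) :=
      IntermediateField.adjoin.finiteDimensional hint
    have heq : IntermediateField.adjoin E {v} = IntermediateField.adjoin E {x} :=
      IntermediateField.eq_of_le_of_finrank_eq hle (h1.trans hfin.symm)
    have hx : x ∈ (IntermediateField.adjoin E {v}).toSubfield := by
      rw [heq]
      exact IntermediateField.mem_adjoin_simple_self E x
    rw [hcl v] at hx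
    exact hx

end SpBAux

/-- **SpB** -/
theorem tSpB.{u} (hSpA : S_SpA.{u}) : S_SpB.{u} := by
  intro F _ _ p _ _ x w hx hw hwn
  exact SpBAux.prime_ext p (Sp (x ^ p)) x w hx (SpBAux.self_mem_Sp _) (hSpA F p x hw) hwn

end Pool.Agent.MPa267.D1
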