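import Pool.Agent.Lib.MP_a267a3_lc.D1.Spec

/-!
# MP_a267a3_lc, transcendence degree one: purely inseparable over the separable closure
-/

set_option autoImplicit false

namespace Pool.Agent.MPa267.D1

open OnePoint

theorem tSpC.{u} : S_SpC.{u} := by
  intro F _ _ p _ _ hT x hx w
  have halg : ∀ y : F, IsAlgebraic (kk x) y := by
    intro y
    have hy : y ∈ acl ({x} : Set F) := by
      rw [hT x hx]
      exact Subfield.mem_top y
    have h2 : y ∈ acl (insert x ((acl (∅ : Set F) : Subfield F) : Set F)) :=
      acl_mono (Set.singleton_subset_iff.2 (Set.mem_insert _ _)) hy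
    exact mem_acl.1 h2
  have hA : Algebra.IsAlgebraic (kk x) F := ⟨halg⟩
  have hP : IsPurelyInseparable (separableClosure (kk x) F) F :=
    separableClosure.isPurelyInseparable (kk x) F
  have hE : ExpChar F p := inferInstance
  have hE2 : ExpChar (separableClosure (kk x) F) p :=
    (algebraMap (separableClosure (kk x) F) F).expChar (algebraMap (separableClosure (kk x) F) F).injective p
  obtain ⟨j, y, hy⟩ := IsPurelyInseparable.pow_mem (separableClosure (kk x) F) p w
  refine ⟨j, ?_⟩
  rw [← hy]
  exact y.2

end Pool.Agent.MPa267.D1
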