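import Pool.Agent.Lib.MP_a267a3_lc.D1.Spec

/-!
# MP_a267a3_lc, transcendence degree one: `S_Tot`, without exchange the flats form a chain
-/

set_option autoImplicit false

namespace Pool.Agent.MPa267.D1

open OnePoint

universe u

theorem tTot : S_Tot.{u} := by
  intro X H 𝒮 P0 n s A hA hne
  have hclA : cl H 𝒮 A ∈ JJ H 𝒮 := s.cl_mem_JJ hA
  constructor
  · intro x hx huniv
    apply hne
    intro x₀ y₀ h1 h2
    obtain ⟨h, hh, hfix, hy⟩ := hclA.2 y₀ h2 x hx
    have h3 : h x₀ ∈ cl H 𝒮 (insert x A) := by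
      rw [huniv]
      exact Set.mem_univ _
    have h4 := AbsSetup.mem_cl_of_fix (H := H) (𝒮 := 𝒮) (H.inv_mem hh) (A := A) (fun a ha => by
      have h5 : h⁻¹ (h a) = a := h.symm_apply_apply a
      rwa [hfix a (subset_cl A ha)] at h5) h3
    have h5 : h⁻¹ (h x₀) = x₀ := h.symm_apply_apply x₀
    have h6 : h⁻¹ x = y₀ := by
      rw [← hy]
      exact h.symm_apply_apply y₀
    rwa [h5, h6] at h4
  · intro S hS T hT hAS hAT
    by_contra hcon
    rw [not_or, Set.not_subset, Set.not_subset] at hcon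
    obtain ⟨⟨a, haS, haT⟩, b, hbT, hbS⟩ := hcon
    apply hne
    refine s.exch_of_indep (t := a) (u := b) ?_ ?_ ?_
    · exact fun h => haT (cl_subset_of_mem_JJ hT hAT h)
    · exact fun h => hbS (cl_subset_of_mem_JJ hS (Set.insert_subset haS hAS) h)
    · exact fun h => haT (cl_subset_of_mem_JJ hT (Set.insert_subset hbT hAT) h)

end Pool.Agent.MPa267.D1
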