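import Pool.Agent.Lib.MP_a267a3_lc.D1.Fin1
import Pool.Agent.Lib.MP_a267a3_lc.D1.Tot
import Pool.Agent.Lib.MP_a267a3_lc.D1.Lf
import Pool.Agent.Lib.MP_a267a3_lc.D1.Gam
import Pool.Agent.Lib.MP_a267a3_lc.D1.Pur
import Pool.Agent.Lib.MP_a267a3_lc.D1.Frb
import Pool.Agent.Lib.MP_a267a3_lc.D1.SpA
import Pool.Agent.Lib.MP_a267a3_lc.D1.SpB
import Pool.Agent.Lib.MP_a267a3_lc.D1.SpC
import Pool.Agent.Lib.MP_a267a3_lc.D1.LS
import Pool.Agent.Lib.MP_a267a3_lc.D1.Dsc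
import Pool.Agent.Lib.MP_a267a3_lc.D1.Exc

/-!
# MP_a267a3_lc, transcendence degree one: assembly
-/

set_option autoImplicit false

namespace Pool.Agent.MPa267.D1

universe u

/-- exchange -/
theorem exc_all : S_Exc.{u} := by
  have hLf : S_Lf.{u} := tLf tTot
  have hPur : S_Pur.{u} := tPur tGam
  have hFrb : S_Frb.{u} := tFrb
  have hSpA : S_SpA.{u} := tSpA hFrb
  have hSpB : S_SpB.{u} := tSpB hSpA
  have hLS : S_LS.{u} := tLS hPur hFrb hSpB tSpC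
  have hDsc : S_Dsc.{u} := tDsc hPur hFrb hSpA hLS
  exact tExc hLf hPur hLS hDsc

end Pool.Agent.MPa267.D1
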