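import Pool.Agent.Lib.MP_a267a3_lc.D1.Spec

/-!
# MP_a267a3_lc, D1: no infinite decreasing sequence
-/

set_option autoImplicit false

namespace Pool.Agent.MPa267.D1

open OnePoint

universe u

namespace DscAux

/-- The Frobenius automorphism. -/
noncomputable def fro (F : Type u) [Field F] [IsAlgClosed F] (p : ℕ) [Fact p.Prime] [CharP F p] :
    F ≃+* F :=
  haveI : ExpChar F p := ExpChar.prime (Fact.out : p.Prime)
  RingEquiv.ofBijective (frobenius F p)
    ⟨frobenius_inj F p, fun x => by
      obtain ⟨z, hz⟩ := IsAlgClosed.exists_pow_nat_eq x (Fact.out : p.Prime).pos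
      exact ⟨z, by rw [frobenius_def]; exact hz⟩⟩

theorem fro_apply (F : Type u) [Field F] [IsAlgClosed F] (p : ℕ) [Fact p.Prime] [CharP F p]
    (x : F) : fro F p x = x ^ p := rfl

theorem pow_mem_iff (F : Type u) [Field F] [IsAlgClosed F] (p : ℕ) [Fact p.Prime] [CharP F p]
    (x : F) : x ^ p ∈ acl (∅ : Set F) ↔ x ∈ acl (∅ : Set F) := by
  have h := map_acl (fro F p) (s := (∅ : Set F)) (x := x)
  rw [Set.image_empty, fro_apply] at h
  exact h

theorem pow_mem_iff' (F : Type u) [Field F] [IsAlgClosed F] (p : ℕ) [Fact p.Prime] [CharP F p]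
    (x : F) (i : ℕ) : x ^ p ^ i ∈ acl (∅ : Set F) ↔ x ∈ acl (∅ : Set F) := by
  induction i with
  | zero => rw [pow_zero, pow_one]
  | succ i ih => rw [pow_succ, pow_mul, pow_mem_iff, ih]

/-- `L` and powers of the Frobenius. -/
theorem eqv' {F : Type u} [Field F] [IsAlgClosed F] (p : ℕ) [Fact p.Prime] [CharP F p]
    {L : F → Subfield F} (hL : LFam L) {x : F} (hx : x ∉ acl (∅ : Set F)) (a : F) (i : ℕ) :
    a ∈ L x ↔ a ^ p ^ i ∈ L (x ^ p ^ i) := by
  induction i with
  | zero => rw [pow_zero, pow_one, pow_one]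
  | succ i ih =>
    have h1 : x ^ p ^ i ∉ acl (∅ : Set F) := fun h => hx ((pow_mem_iff' F p x i).1 h)
    rw [ih, hL.eqv (fro F p) _ h1, fro_apply, fro_apply, ← pow_mul, ← pow_mul, ← pow_succ]

theorem frb' (hFrb : S_Frb.{u}) {F : Type u} [Field F] [IsAlgClosed F] (p : ℕ) [Fact p.Prime]
    [CharP F p] (x w : F) (i : ℕ) : w ^ p ^ i ∈ Sp (x ^ p ^ i) ↔ w ∈ Sp x := by
  induction i with
  | zero => rw [pow_zero, pow_one, pow_one]
  | succ i ih => rw [pow_succ, pow_mul, pow_mul, hFrb, ih]

theorem spA' (hSpA : S_SpA.{u}) {F : Type u} [Field F] [IsAlgClosed F] (p : ℕ) [Fact p.Prime]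
    [CharP F p] (x : F) (i : ℕ) :
    Sp x ≤ Subfield.closure (insert x ((Sp (x ^ p ^ i) : Subfield F) : Set F)) := by
  induction i with
  | zero =>
    rw [pow_zero, pow_one]
    exact fun a ha => Subfield.subset_closure (Set.mem_insert_of_mem _ ha)
  | succ i ih =>
    refine ih.trans ?_
    rw [Subfield.closure_le]
    have hx : x ∈ Subfield.closure (insert x ((Sp (x ^ p ^ (i + 1)) : Subfield F) : Set F)) :=
      Subfield.subset_closure (Set.mem_insert _ _)
    refine Set.insert_subset hx ?_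
    have h1 := hSpA F p (x ^ p ^ i)
    rw [← pow_mul, ← pow_succ] at h1
    have h2 : Subfield.closure (insert (x ^ p ^ i) ((Sp (x ^ p ^ (i + 1)) : Subfield F) : Set F)) ≤
        Subfield.closure (insert x ((Sp (x ^ p ^ (i + 1)) : Subfield F) : Set F)) := by
      rw [Subfield.closure_le]
      exact Set.insert_subset (pow_mem hx _)
        fun a ha => Subfield.subset_closure (Set.mem_insert_of_mem _ ha)
    exact fun a ha => h2 (h1 ha)

/-- A subfield over `E` as a subspace. -/
def sub {F : Type u} [Field F] (E M : Subfield F) (h : E ≤ M) : Submodule E F where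
  carrier := M
  add_mem' ha hb := M.add_mem ha hb
  zero_mem' := M.zero_mem
  smul_mem' c _ hb := M.mul_mem (h c.2) hb

theorem mem_sub {F : Type u} [Field F] {E M : Subfield F} (h : E ≤ M) {a : F} :
    a ∈ sub E M h ↔ a ∈ M := Iff.rfl

end DscAux

open DscAux

theorem tDsc.{v} (hPur : S_Pur.{v}) (hFrb : S_Frb.{v}) (hSpA : S_SpA.{v}) (hLS : S_LS.{v}) :
    S_Dsc.{v} := by
  intro F _ _ p _ _ L hTD hL x hx z hz hLz hdec
  haveI : ExpChar F p := ExpChar.prime (Fact.out : p.Prime)
  obtain ⟨-, hS⟩ := hLS F p L hTD hL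
  obtain ⟨i, hi⟩ := hPur F p L hTD hL x hx (z 0)
  obtain ⟨y, hy⟩ := IsAlgClosed.exists_pow_nat_eq x (pow_pos (Fact.out : p.Prime).pos i)
  -- `L (z 0)` is contained in `E(y)`
  have h1 : L (z 0) ≤ Subfield.closure (insert y ((L x : Subfield F) : Set F)) := by
    intro a ha
    have hzi : (z 0) ^ p ^ i ∉ acl (∅ : Set F) := fun h => hz 0 ((pow_mem_iff' F p _ i).1 h)
    have h2 : a ^ p ^ i ∈ L x :=
      hL.mono x _ hx hzi hi ((eqv' p hL (hz 0) a i).1 ha)
    rw [hS x hx, ← hy] at h2
    have h3 := (frb' hFrb p y a i).1 h2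
    have h4 := spA' hSpA p y i h3
    rw [hy, ← hS x hx] at h4
    exact h4
  let E : Subfield F := L x
  have hint : IsIntegral E y := by
    refine IsIntegral.of_pow (pow_pos (Fact.out : p.Prime).pos i) ?_
    rw [hy]
    exact isIntegral_algebraMap (R := E) (A := F) (x := ⟨x, hL.mem x hx⟩)
  let T : IntermediateField E F := IntermediateField.adjoin E {y}
  haveI hfin : FiniteDimensional E T := IntermediateField.adjoin.finiteDimensional hint
  have h2 : L (z 0) ≤ T.toSubfield := by
    refine h1.trans ?_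
    rw [Subfield.closure_le]
    refine Set.insert_subset ?_ ?_
    · exact IntermediateField.mem_adjoin_simple_self E y
    · intro a ha
      exact T.algebraMap_mem ⟨a, ha⟩
  have hanti : ∀ j, L (z j) ≤ L (z 0) := by
    intro j
    induction j with
    | zero => exact le_rfl
    | succ j ih => exact (hdec j).le.trans ih
  let V : ℕ → Submodule E F := fun j => sub E (L (z j)) (hLz j)
  have hVT : ∀ j, V j ≤ T.toSubalgebra.toSubmodule := by
    intro j a ha
    exact h2 (hanti j ha)
  haveI hfin' : FiniteDimensional E T.toSubalgebra.toSubmodule := hfin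
  haveI hVfin : ∀ j, FiniteDimensional E (V j) := fun j =>
    Submodule.finiteDimensional_of_le (hVT j)
  have hVlt : ∀ j, V (j + 1) < V j := by
    intro j
    have h := hdec j
    rw [SetLike.lt_iff_le_and_exists] at h ⊢
    obtain ⟨h3, a, ha, ha'⟩ := h
    exact ⟨fun b hb => h3 hb, a, ha, ha'⟩
  have hrk : ∀ j, Module.finrank E (V j) + j ≤ Module.finrank E (V 0) := by
    intro j
    induction j with
    | zero => exact le_rfl
    | succ j ih =>
      have := Submodule.finrank_lt_finrank_of_lt (hVlt j)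
      omega
  have := hrk (Module.finrank E (V 0) + 1)
  omega

end Pool.Agent.MPa267.D1
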