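import Pool.Agent.Lib.MP_a267a3_lc.D1.Setup

/-!
# MP_a267a3_lc, transcendence degree one: the choice of sigma
-/

set_option autoImplicit false

namespace Pool.Agent.MPa267.D1

open OnePoint

variable {F : Type*} [Field F]

/-- choice of `σ` (section 7) -/
theorem exists_sigma [IsAlgClosed F] {H : Subgroup (Equiv.Perm (OnePoint F))} {n : ℕ}
    (s : Setup H n) (hEx : ∀ Y : Finset (OnePoint F), (Y : Set (OnePoint F)) ⊆ DD F →
      Exch H (SS F) (Y : Set (OnePoint F))) (A : Finset (OnePoint F))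
    (hA : (A : Set (OnePoint F)) ⊆ PP (acl (∅ : Set F)))
    {ζ b : F} (hζ : ζ ∈ acl (∅ : Set F)) (hb : b ∈ acl (∅ : Set F)) (hζ0 : ζ ≠ 0)
    (hζ1 : ζ ≠ 1) (hb0 : b ≠ 0) (hb1 : b ≠ 1) :
    ∃ σ ∈ H, σ ∞ = ∞ ∧ σ ((0 : F) : OnePoint F) = ((0 : F) : OnePoint F) ∧
      σ ((1 : F) : OnePoint F) = ((1 : F) : OnePoint F) ∧
      σ (ζ : OnePoint F) = (b : OnePoint F) ∧
      ∀ x ∈ A, σ x ∈ DD F := by
  classical
  set A0 : Finset (OnePoint F) := {∞, ((0 : F) : OnePoint F), ((1 : F) : OnePoint F),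
    (ζ : OnePoint F)} with hA0
  -- σ₀
  have hcard : A0.card ≤ n := by
    have h1 : A0.card ≤ 4 := Finset.card_le_four
    have := s.four
    omega
  obtain ⟨σ₀, hσ₀, hf₀⟩ := s.abs.trans A0
    (fun x => if x = (ζ : OnePoint F) then (b : OnePoint F) else x) hcard (by
      intro x hx y hy hxy
      have hx' : x = ∞ ∨ x = ((0 : F) : OnePoint F) ∨ x = ((1 : F) : OnePoint F) ∨
          x = (ζ : OnePoint F) := by simpa [hA0] using hx
      have hy' : y = ∞ ∨ y = ((0 : F) : OnePoint F) ∨ y = ((1 : F) : OnePoint F) ∨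
          y = (ζ : OnePoint F) := by simpa [hA0] using hy
      have hbinf : (b : OnePoint F) ≠ ∞ := coe_ne_infty b
      have hb0' : (b : OnePoint F) ≠ ((0 : F) : OnePoint F) := fun h => hb0 (coe_eq_coe.1 h)
      have hb1' : (b : OnePoint F) ≠ ((1 : F) : OnePoint F) := fun h => hb1 (coe_eq_coe.1 h)
      simp only at hxy
      split_ifs at hxy with h1 h2 h2
      · rw [h1, h2]
      · rcases hy' with h | h | h | h
        · exact absurd (hxy.trans h) hbinf
        · exact absurd (hxy.trans h) hb0'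
        · exact absurd (hxy.trans h) hb1'
        · exact absurd h h2
      · rcases hx' with h | h | h | h
        · exact absurd (hxy.symm.trans h) hbinf
        · exact absurd (hxy.symm.trans h) hb0'
        · exact absurd (hxy.symm.trans h) hb1'
        · exact absurd h h1
      · exact hxy)
  have e1 : σ₀ ∞ = ∞ := by
    rw [hf₀ _ (by simp [hA0]), if_neg (infty_ne_coe ζ)]
  have e2 : σ₀ ((0 : F) : OnePoint F) = ((0 : F) : OnePoint F) := by
    rw [hf₀ _ (by simp [hA0]), if_neg (fun h => hζ0 (coe_eq_coe.1 h).symm)]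
  have e3 : σ₀ ((1 : F) : OnePoint F) = ((1 : F) : OnePoint F) := by
    rw [hf₀ _ (by simp [hA0]), if_neg (fun h => hζ1 (coe_eq_coe.1 h).symm)]
  have e4 : σ₀ (ζ : OnePoint F) = (b : OnePoint F) := by
    rw [hf₀ _ (by simp [hA0]), if_pos rfl]
  -- move
  have hA' : ((A ∪ A0 : Finset (OnePoint F)) : Set (OnePoint F)) ⊆ PP (acl (∅ : Set F)) := by
    intro x hx
    rcases Finset.mem_union.1 (Finset.mem_coe.1 hx) with hx | hx
    · exact hA hx
    · have hx' : x = ∞ ∨ x = ((0 : F) : OnePoint F) ∨ x = ((1 : F) : OnePoint F) ∨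
          x = (ζ : OnePoint F) := by simpa [hA0] using hx
      rcases hx' with h | h | h | h
      · rw [h]; exact infty_mem_PP _
      · rw [h, coe_mem_PP]; exact Subfield.zero_mem _
      · rw [h, coe_mem_PP]; exact Subfield.one_mem _
      · rw [h, coe_mem_PP]; exact hζ
  have h0 : ∀ a ∈ A0, σ₀ a ∈ PP (acl (∅ : Set F)) := by
    intro x hx
    have hx' : x = ∞ ∨ x = ((0 : F) : OnePoint F) ∨ x = ((1 : F) : OnePoint F) ∨
        x = (ζ : OnePoint F) := by simpa [hA0] using hx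
    rcases hx' with h | h | h | h
    · rw [h, e1]; exact infty_mem_PP _
    · rw [h, e2, coe_mem_PP]; exact Subfield.zero_mem _
    · rw [h, e3, coe_mem_PP]; exact Subfield.one_mem _
    · rw [h, e4, coe_mem_PP]; exact hb
  obtain ⟨σ₁, hσ₁, hf₁, hP₁⟩ := s.abs.move hEx (A ∪ A0) A0 hA' Finset.subset_union_right hσ₀ h0
  have d1 : σ₁ ∞ = ∞ := by rw [hf₁ _ (by simp [hA0]), e1]
  have d2 : σ₁ ((0 : F) : OnePoint F) = ((0 : F) : OnePoint F) := by
    rw [hf₁ _ (by simp [hA0]), e2]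
  have d3 : σ₁ ((1 : F) : OnePoint F) = ((1 : F) : OnePoint F) := by
    rw [hf₁ _ (by simp [hA0]), e3]
  have d4 : σ₁ (ζ : OnePoint F) = (b : OnePoint F) := by
    rw [hf₁ _ (by simp [hA0]), e4]
  exact ⟨σ₁, hσ₁, d1, d2, d3, d4, fun a ha => hP₁ a (Finset.mem_union_left _ ha)⟩

end Pool.Agent.MPa267.D1
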