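import Pool.Agent.Lib.MP_a267a3_lc.Kappa
import Pool.Agent.Lib.MP_a267a3_lc.D1.Flat

/-!
# MP_a267a3_lc, transcendence degree one: the kappa lemma
-/

set_option autoImplicit false

namespace Pool.Agent.MPa267.D1

open OnePoint

variable {F : Type*} [Field F]

/-- the `κ`-lemma: `c` in `k`, not in the block `Cl S` -/
theorem kappa [IsAlgClosed F] {H : Subgroup (Equiv.Perm (OnePoint F))} {n : ℕ}
    (s : Setup H n) {S : Finset (OnePoint F)} (hS : Flat H n S)
    {h : Equiv.Perm (OnePoint F)} (hh : h ∈ H) {c : F} (hc : c ∈ acl (∅ : Set F)) (hc0 : c ≠ 0)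
    (hcS : (c : OnePoint F) ∉ Cl H (S : Set (OnePoint F)))
    (hinf : h ∞ = ∞) (h0 : h ((0 : F) : OnePoint F) = ((0 : F) : OnePoint F))
    (hfix : ∀ x ∈ S, h x = x) (hfixc : ∀ x ∈ S, h (mulP c x) = mulP c x)
    {y z : F} (hyk : y ∉ acl (∅ : Set F)) (hzk : z ∉ acl (∅ : Set F))
    (hyz : h (y : OnePoint F) = (z : OnePoint F)) {u : F} (hu : u ∈ UU F) :
    ∃ κ ∈ acl (∅ : Set F), κ ≠ 0 ∧ (u ≠ 1 → κ ≠ 1) ∧
      h ((u * y : F) : OnePoint F) = ((κ * z : F) : OnePoint F) := by
  classical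
  have hy0 : y ≠ 0 := by rintro rfl; exact hyk (Subfield.zero_mem _)
  have hz0 : z ≠ 0 := by rintro rfl; exact hzk (Subfield.zero_mem _)
  have hu0 : u ≠ 0 := by
    rintro rfl
    obtain ⟨e, he, hue⟩ := hu
    have he0 : e ≠ 0 := by rintro rfl; simp at he
    rw [zero_pow he0] at hue
    exact zero_ne_one hue
  have hyck : y / c ∉ acl (∅ : Set F) := by
    intro h1
    apply hyk
    have := Subfield.mul_mem _ h1 hc
    rwa [div_mul_cancel₀ _ hc0] at this
  have hzck : z / c ∉ acl (∅ : Set F) := by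
    intro h1
    apply hzk
    have := Subfield.mul_mem _ h1 hc
    rwa [div_mul_cancel₀ _ hc0] at this
  have himS : h '' (S : Set (OnePoint F)) = S := by
    ext x
    constructor
    · rintro ⟨a, ha, rfl⟩; rw [hfix a ha]; exact ha
    · intro hx; exact ⟨x, hx, hfix x hx⟩
  -- first statement
  have h1 : h ((u * y : F) : OnePoint F) ∈
      Cl H (insert (z : OnePoint F) (S : Set (OnePoint F))) := by
    have h2 := mem_Cl_image hh (hS.uv y hyk u hu)
    rw [himS, hyz] at h2
    exact h2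
  -- second statement
  have hGc : mulP c ∈ H := s.hG (mulP_mem_GG c)
  have h2 : h ((u * y : F) : OnePoint F) ∈
      Cl H (insert (z : OnePoint F) (mulP c '' (S : Set (OnePoint F)))) := by
    have h3 := mem_Cl_image hGc (hS.uv (y / c) hyck u hu)
    rw [mulP_coe hc0, mulP_coe hc0, mul_div_cancel₀ _ hc0] at h3
    have h4 : c * (u * (y / c)) = u * y := by field_simp
    rw [h4] at h3
    have h5 := mem_Cl_image hh h3
    have h6 : h '' (mulP c '' (S : Set (OnePoint F))) = mulP c '' (S : Set (OnePoint F)) := by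
      ext x
      constructor
      · rintro ⟨_, ⟨a, ha, rfl⟩, rfl⟩; rw [hfixc a ha]; exact ⟨a, ha, rfl⟩
      · rintro ⟨a, ha, rfl⟩; exact ⟨mulP c a, ⟨a, ha, rfl⟩, hfixc a ha⟩
    rw [h6, hyz] at h5
    exact h5
  have h3 : (mulP c)⁻¹ (h ((u * y : F) : OnePoint F)) ∈
      Cl H (insert ((z / c : F) : OnePoint F) (S : Set (OnePoint F))) := by
    have h4 := mem_Cl_image (H.inv_mem hGc) h2
    have h5 : (mulP c : Equiv.Perm (OnePoint F))⁻¹ (z : OnePoint F) =
        ((z / c : F) : OnePoint F) := by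
      rw [Equiv.Perm.inv_eq_iff_eq, mulP_coe hc0, mul_div_cancel₀ _ hc0]
    have h6 : ((mulP c)⁻¹ : Equiv.Perm (OnePoint F)) '' (mulP c '' (S : Set (OnePoint F))) = S := by
      rw [← Set.image_comp]
      have : (((mulP c)⁻¹ : Equiv.Perm (OnePoint F)) ∘ (mulP c : Equiv.Perm (OnePoint F))) = id := by
        funext x; exact inv_apply_self' _ _
      rw [this, Set.image_id]
    rw [h5, h6] at h4
    exact h4
  -- the value
  have hne : h ((u * y : F) : OnePoint F) ≠ ∞ := by
    intro h4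
    rw [← hinf] at h4
    exact coe_ne_infty _ (h.injective h4)
  obtain ⟨w, hw⟩ := ne_infty_iff_exists.1 hne
  rw [← hw] at h1 h3
  have h5 : (mulP c : Equiv.Perm (OnePoint F))⁻¹ (w : OnePoint F) = ((w / c : F) : OnePoint F) := by
    rw [Equiv.Perm.inv_eq_iff_eq, mulP_coe hc0, mul_div_cancel₀ _ hc0]
  rw [h5] at h3
  have hzc0 : z / c ≠ 0 := div_ne_zero hz0 hc0
  have hself : ∀ v : F, v ∉ acl (∅ : Set F) →
      (v : OnePoint F) ∈ Cl H (insert (v : OnePoint F) (S : Set (OnePoint F))) := fun v _ =>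
    subset_cl _ (Set.mem_insert _ _)
  -- quotients
  have hdiv : ∀ v : F, v ∉ acl (∅ : Set F) → ∀ a b : F, b ≠ 0 →
      (a : OnePoint F) ∈ Cl H (insert (v : OnePoint F) (S : Set (OnePoint F))) →
      (b : OnePoint F) ∈ Cl H (insert (v : OnePoint F) (S : Set (OnePoint F))) →
      ((a / b : F) : OnePoint F) ∈ Cl H (insert (v : OnePoint F) (S : Set (OnePoint F))) := by
    intro v hv a b hb ha hbv
    have h6 := hS.inv v hv _ hbv
    rw [invP_coe hb] at h6
    have h7 := hS.mul v hv b⁻¹ (inv_ne_zero hb) h6 _ ha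
    rwa [mulP_coe (inv_ne_zero hb), mul_comm, ← div_eq_mul_inv] at h7
  have hw0 : w ≠ 0 := by
    rintro rfl
    rw [← h0] at hw
    have h6 := h.injective hw
    exact mul_ne_zero hu0 hy0 (coe_eq_coe.1 h6).symm
  refine ⟨w / z, ?_, ?_, ?_, ?_⟩
  · by_contra hκ
    have e1 := hdiv z hzk w z hz0 h1 (hself z hzk)
    have e2 := hdiv (z / c) hzck (w / c) (z / c) hzc0 h3 (hself _ hzck)
    have e3 : (w / c) / (z / c) = w / z := by field_simp
    rw [e3] at e2
    have e4 := hS.eq z hzk _ hκ e1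
    have e5 := hS.eq (z / c) hzck _ hκ e2
    have e6 : (z : OnePoint F) ∈
        Cl H (insert ((z / c : F) : OnePoint F) (S : Set (OnePoint F))) := by
      rw [← e5, e4]; exact hself z hzk
    have e7 := hdiv (z / c) hzck z (z / c) hzc0 e6 (hself _ hzck)
    have e8 : z / (z / c) = c := by field_simp
    rw [e8] at e7
    exact hcS (hS.inter (z / c) hzck _ ((coe_mem_PP _ _).2 hc) e7)
  · exact div_ne_zero hw0 hz0
  · intro hu1 h6
    have h7 : w = z := by rwa [div_eq_one_iff_eq hz0] at h6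
    rw [h7, ← hyz] at hw
    have h8 := coe_eq_coe.1 (h.injective hw)
    apply hu1
    have h9 : u * y = 1 * y := by rw [← h8, one_mul]
    exact mul_right_cancel₀ hy0 h9
  · rw [← hw, div_mul_cancel₀ _ hz0]

end Pool.Agent.MPa267.D1
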