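import Pool.Agent.Lib.MP_a267a3_lc.GC
import Pool.Agent.Lib.MP_a267a3_lc.D1.Kap

/-!
# MP_a267a3_lc, transcendence degree one: generic commuting
-/

set_option autoImplicit false

namespace Pool.Agent.MPa267.D1

open OnePoint

variable {F : Type*} [Field F]

/-- `κ`-lemma for a conjugate of a torus -/
theorem kappa_conj [IsAlgClosed F] {H : Subgroup (Equiv.Perm (OnePoint F))} {n : ℕ}
    (s : Setup H n) {S : Finset (OnePoint F)} (hS : Flat H n S) (γ : GL (Fin 2) F)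
    (hγ : GLK (acl (∅ : Set F)) γ) {A : Set (OnePoint F)} {c : F} (hc : c ∈ acl (∅ : Set F))
    (hc0 : c ≠ 0) (hcS : (c : OnePoint F) ∉ Cl H (S : Set (OnePoint F)))
    (hA : ∀ x, x = ∞ ∨ x = ((0 : F) : OnePoint F) ∨ x ∈ S ∨ (∃ y ∈ S, x = mulP c y) →
      mob γ x ∈ A)
    {h : Equiv.Perm (OnePoint F)} (hh : h ∈ H)
    (hfix : ∀ x ∈ A, h x = x)
    {y : OnePoint F} (hy : y ∉ DD F) (hy' : h y ∉ DD F) {u : F} (hu : u ∈ UU F)
    (hu1 : u ≠ 1) :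
    ∃ κ ∈ acl (∅ : Set F), κ ≠ 0 ∧ κ ≠ 1 ∧
      h (mob γ (mulP u ((mob γ)⁻¹ y))) = mob γ (mulP κ ((mob γ)⁻¹ (h y))) := by
  classical
  have hinvPP : ∀ x, (mob γ)⁻¹ x ∈ DD F ↔ x ∈ DD F := by
    intro x
    have := mob_mem_PP hγ ((mob γ)⁻¹ x)
    rw [apply_inv_self'] at this
    exact this.symm
  have hGγ : mob γ ∈ H := s.hG (mob_mem_GG γ)
  set h' : Equiv.Perm (OnePoint F) := (mob γ)⁻¹ * h * mob γ with hh'
  have hh'H : h' ∈ H := H.mul_mem (H.mul_mem (H.inv_mem hGγ) hh) hGγ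
  have happ : ∀ x, h' x = (mob γ)⁻¹ (h (mob γ x)) := fun x => rfl
  have hfixA : ∀ x, mob γ x ∈ A → h' x = x := by
    intro x hx
    rw [happ, hfix _ hx, inv_apply_self']
  obtain ⟨y₀, hy₀, hyy⟩ := exists_coe_of_not_mem_PP
    (show (mob γ)⁻¹ y ∉ PP (acl (∅ : Set F)) by rw [hinvPP]; exact hy)
  obtain ⟨z₀, hz₀, hzz⟩ := exists_coe_of_not_mem_PP
    (show (mob γ)⁻¹ (h y) ∉ PP (acl (∅ : Set F)) by rw [hinvPP]; exact hy')
  have hy0' : mob γ (y₀ : OnePoint F) = y := by rw [← hyy, apply_inv_self']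
  have hu0 : u ≠ 0 := by
    rintro rfl
    obtain ⟨e, he, hue⟩ := hu
    have he0 : e ≠ 0 := by rintro rfl; simp at he
    rw [zero_pow he0] at hue
    exact zero_ne_one hue
  obtain ⟨κ, hκ, hκ0, hκ1, hκe⟩ := kappa s hS (h := h') hh'H hc hc0 hcS
    (hfixA _ (hA _ (Or.inl rfl))) (hfixA _ (hA _ (Or.inr (Or.inl rfl))))
    (fun x hx => hfixA _ (hA _ (Or.inr (Or.inr (Or.inl hx)))))
    (fun x hx => hfixA _ (hA _ (Or.inr (Or.inr (Or.inr ⟨x, hx, rfl⟩)))))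
    (y := y₀) (z := z₀) hy₀ hz₀
    (by rw [happ, hy0', hzz]) hu
  refine ⟨κ, hκ, hκ0, hκ1 hu1, ?_⟩
  have h1 : mob γ (h' ((u * y₀ : F) : OnePoint F)) = mob γ ((κ * z₀ : F) : OnePoint F) := by
    rw [hκe]
  rw [happ, apply_inv_self', ← mulP_coe hu0, ← mulP_coe hκ0, ← hyy, ← hzz] at h1
  exact h1

/-- (GC) -/
theorem generic_commuting [IsAlgClosed F] {H : Subgroup (Equiv.Perm (OnePoint F))} {n : ℕ}
    (s : Setup H n) {S : Finset (OnePoint F)} (hS : Flat H n S)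
    {c : F} (hc : c ∈ acl (∅ : Set F)) (hc0 : c ≠ 0)
    (hcS : (c : OnePoint F) ∉ Cl H (S : Set (OnePoint F))) :
    ∃ (ζ : F) (A : Finset (OnePoint F)), ζ ∈ UU F ∧ ζ ≠ 1 ∧
      (A : Set (OnePoint F)) ⊆ DD F ∧
      ∀ h ∈ H, (∀ x ∈ A, h x = x) →
        ∀ y : OnePoint F, y ∉ DD F → h y ∉ DD F →
          h (mulP ζ y) = mulP ζ (h y) ∧ h (mulP ζ⁻¹ y) = mulP ζ⁻¹ (h y) := by
  classical
  obtain ⟨ζ, ζ₂, ζ₃, γ₂, γ₃, hζ, hζ₂, hζ₃, hζ1, hζ21, hζ31, hγ₂, hγ₃, htri, hrig⟩ :=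
    triangle (F := F)
  have hU0 : ∀ u : F, u ∈ UU F → u ≠ 0 := by
    rintro u ⟨e, he, hue⟩ rfl
    have he0 : e ≠ 0 := by rintro rfl; simp at he
    rw [zero_pow he0] at hue
    exact zero_ne_one hue
  have hSk : ∀ x ∈ S, x ∈ DD F := by
    intro x hx
    obtain ⟨w, hw, rfl⟩ := hS.sub x hx
    rw [coe_mem_PP]; exact UU_subset_acl hw
  set B : Finset (OnePoint F) :=
    insert ∞ (insert ((0 : F) : OnePoint F) (S ∪ S.image (mulP c))) with hB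
  have hBk : ∀ x ∈ B, x ∈ DD F := by
    intro x hx
    rcases Finset.mem_insert.1 hx with rfl | hx
    · exact infty_mem_PP _
    rcases Finset.mem_insert.1 hx with rfl | hx
    · rw [coe_mem_PP]; exact Subfield.zero_mem _
    rcases Finset.mem_union.1 hx with hx | hx
    · exact hSk x hx
    · obtain ⟨y, hy, rfl⟩ := Finset.mem_image.1 hx
      exact (mulP_mem_PP hc y).2 (hSk y hy)
  have hBmem : ∀ x, x = ∞ ∨ x = ((0 : F) : OnePoint F) ∨ x ∈ S ∨ (∃ y ∈ S, x = mulP c y) →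
      x ∈ B := by
    rintro x (rfl | rfl | hx | ⟨y, hy, rfl⟩)
    · exact Finset.mem_insert_self _ _
    · exact Finset.mem_insert_of_mem (Finset.mem_insert_self _ _)
    · exact Finset.mem_insert_of_mem (Finset.mem_insert_of_mem (Finset.mem_union_left _ hx))
    · exact Finset.mem_insert_of_mem (Finset.mem_insert_of_mem
        (Finset.mem_union_right _ (Finset.mem_image_of_mem _ hy)))
  set A : Finset (OnePoint F) := B ∪ B.image (mob γ₂) ∪ B.image (mob γ₃) with hA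
  refine ⟨ζ, A, hζ, hζ1, ?_, ?_⟩
  · intro x hx
    rcases Finset.mem_union.1 (Finset.mem_coe.1 hx) with hx | hx
    · rcases Finset.mem_union.1 hx with hx | hx
      · exact hBk x hx
      · obtain ⟨y, hy, rfl⟩ := Finset.mem_image.1 hx
        exact (mob_mem_PP hγ₂ y).2 (hBk y hy)
    · obtain ⟨y, hy, rfl⟩ := Finset.mem_image.1 hx
      exact (mob_mem_PP hγ₃ y).2 (hBk y hy)
  intro h hh hfix
  have hone : GLK (acl (∅ : Set F)) (1 : GL (Fin 2) F) := by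
    intro i j
    rw [Units.val_one, Matrix.one_apply]
    split_ifs
    · exact Subfield.one_mem _
    · exact Subfield.zero_mem _
  have hζk : ζ ∈ acl (∅ : Set F) := UU_subset_acl hζ
  -- the three kappa lemmas
  have k1 : ∀ u ∈ UU F, u ≠ 1 → ∀ y : OnePoint F, y ∉ DD F → h y ∉ DD F →
      ∃ κ ∈ acl (∅ : Set F), κ ≠ 0 ∧ κ ≠ 1 ∧ h (mulP u y) = mulP κ (h y) := by
    intro u hu hu1 y hy hy'
    obtain ⟨κ, a1, a2, a3, a4⟩ := kappa_conj s hS 1 hone (A := (A : Set (OnePoint F))) hc hc0 hcS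
      (by
        intro x hx
        rw [mob_one]
        exact Finset.mem_coe.2 (Finset.mem_union_left _ (Finset.mem_union_left _ (hBmem x hx))))
      hh hfix hy hy' hu hu1
    refine ⟨κ, a1, a2, a3, ?_⟩
    simpa [mob_one] using a4
  have k2 := fun (y : OnePoint F) (hy : y ∉ DD F) (hy' : h y ∉ DD F) =>
    kappa_conj s hS γ₂ hγ₂ (A := (A : Set (OnePoint F))) hc hc0 hcS
      (by
        intro x hx
        exact Finset.mem_coe.2 (Finset.mem_union_left _ (Finset.mem_union_right _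
          (Finset.mem_image_of_mem _ (hBmem x hx)))))
      hh hfix hy hy' hζ₂ hζ21
  have k3 := fun (y : OnePoint F) (hy : y ∉ DD F) (hy' : h y ∉ DD F) =>
    kappa_conj s hS γ₃ hγ₃ (A := (A : Set (OnePoint F))) hc hc0 hcS
      (by
        intro x hx
        exact Finset.mem_coe.2 (Finset.mem_union_right _
          (Finset.mem_image_of_mem _ (hBmem x hx))))
      hh hfix hy hy' hζ₃ hζ31
  -- conjugates of tori over `k` preserve `P¹(k)`
  have hpres : ∀ (γ : GL (Fin 2) F), GLK (acl (∅ : Set F)) γ → ∀ κ ∈ acl (∅ : Set F), ∀ x,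
      mob γ (mulP κ ((mob γ)⁻¹ x)) ∈ DD F ↔ x ∈ DD F := by
    intro γ hγ κ hκ x
    rw [mob_mem_PP hγ, mulP_mem_PP hκ]
    have := mob_mem_PP hγ ((mob γ)⁻¹ x)
    rw [apply_inv_self'] at this
    exact this.symm
  have part1 : ∀ y : OnePoint F, y ∉ DD F → h y ∉ DD F →
      h (mulP ζ y) = mulP ζ (h y) := by
    intro y hy hy'
    obtain ⟨κ, b1, b2, b3, b4⟩ := k1 ζ hζ hζ1 y hy hy'
    have c1 : mulP ζ y ∉ DD F := by rwa [mulP_mem_PP hζk]
    have c2 : h (mulP ζ y) ∉ DD F := by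
      rw [b4, mulP_mem_PP b1]; exact hy'
    obtain ⟨κ₃, d1, d2, d3, d4⟩ := k3 (mulP ζ y) c1 c2
    have c3 : mob γ₃ (mulP ζ₃ ((mob γ₃)⁻¹ (mulP ζ y))) ∉ DD F := by
      rw [hpres γ₃ hγ₃ ζ₃ (UU_subset_acl hζ₃)]; exact c1
    have c4 : h (mob γ₃ (mulP ζ₃ ((mob γ₃)⁻¹ (mulP ζ y)))) ∉ DD F := by
      rw [d4, hpres γ₃ hγ₃ κ₃ d1]; exact c2
    obtain ⟨κ₂, e1, e2, e3, e4⟩ := k2 _ c3 c4
    rw [htri y, d4, b4] at e4
    obtain ⟨z, hz, hzy⟩ := exists_coe_of_not_mem_PP hy'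
    have hκζ : κ = ζ := by
      apply hrig κ κ₂ κ₃ z b1 e1 d1 hz b2 e2 d2 b3
      rw [← hzy]
      exact e4.symm
    rw [b4, hκζ]
  intro y hy hy'
  refine ⟨part1 y hy hy', ?_⟩
  have hζ0 := hU0 ζ hζ
  have hζinv : ζ⁻¹ ∈ UU F := by
    obtain ⟨e, he, hζe⟩ := hζ
    exact ⟨e, he, by rw [inv_pow, hζe, inv_one]⟩
  have hζinv1 : ζ⁻¹ ≠ 1 := fun h1 => hζ1 (by rw [← inv_inv ζ, h1, inv_one])
  obtain ⟨κ, b1, b2, b3, b4⟩ := k1 ζ⁻¹ hζinv hζinv1 y hy hy'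
  have c1 : mulP ζ⁻¹ y ∉ DD F := by
    rwa [mulP_mem_PP (UU_subset_acl hζinv)]
  have c2 : h (mulP ζ⁻¹ y) ∉ DD F := by
    rw [b4, mulP_mem_PP b1]; exact hy'
  have h1 := part1 (mulP ζ⁻¹ y) c1 c2
  have hcancel : ∀ x : OnePoint F, mulP ζ (mulP ζ⁻¹ x) = x := by
    intro x
    induction x using OnePoint.rec with
    | infty => simp
    | coe x => rw [mulP_coe (inv_ne_zero hζ0), mulP_coe hζ0, mul_inv_cancel_left₀ hζ0]
  have hcancel' : ∀ x : OnePoint F, mulP ζ⁻¹ (mulP ζ x) = x := by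
    intro x
    induction x using OnePoint.rec with
    | infty => simp
    | coe x => rw [mulP_coe hζ0, mulP_coe (inv_ne_zero hζ0), inv_mul_cancel_left₀ hζ0]
  rw [hcancel] at h1
  rw [h1, hcancel']

end Pool.Agent.MPa267.D1
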