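import Pool.Agent.Lib.MP_a267a3_lc.EndC
import Pool.Agent.Lib.MP_a267a3_lc.D1.Config
import Pool.Agent.Lib.MP_a267a3_lc.D1.GC
import Pool.Agent.Lib.MP_a267a3_lc.D1.EndA
import Pool.Agent.Lib.MP_a267a3_lc.D1.EndB

/-!
# MP_a267a3_lc, transcendence degree one: the case where `P¹(k)` is not a block
-/

set_option autoImplicit false

namespace Pool.Agent.MPa267.D1

open OnePoint

variable {F : Type*} [Field F]

/-- a block inside `D` whose nonzero part contains `k^*` is `D` -/
theorem block_eq_DD [IsAlgClosed F] {H : Subgroup (Equiv.Perm (OnePoint F))} {n : ℕ}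
    (s : Setup H n) {S : Finset (OnePoint F)} (hS : Flat H n S) (hne : acl (∅ : Set F) ≠ ⊤)
    (hk : ∀ c ∈ acl (∅ : Set F), c ≠ 0 → (c : OnePoint F) ∈ Cl H (S : Set (OnePoint F))) :
    Cl H (S : Set (OnePoint F)) = DD F := by
  classical
  have hkc : IsAlgClosed (acl (∅ : Set F)) := isAlgClosed_acl _
  have hSk : (S : Set (OnePoint F)) ⊆ DD F := by
    intro x hx
    obtain ⟨w, hw, rfl⟩ := hS.sub x hx
    rw [coe_mem_PP]; exact UU_subset_acl hw
  have hsub : Cl H (S : Set (OnePoint F)) ⊆ DD F := Cl_subset_PP H s.hG _ hne hSk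
  have hkinf : Infinite (acl (∅ : Set F)) := IsAlgClosed.instInfinite
  -- a translate of the block with infinitely many common points is the block
  have key : ∀ g ∈ H, (∀ᶠ c : acl (∅ : Set F) in Filter.cofinite,
      g ((c : F) : OnePoint F) ∈ Cl H (S : Set (OnePoint F))) →
      g '' (Cl H (S : Set (OnePoint F))) = Cl H (S : Set (OnePoint F)) := by
    intro g hg hfin
    have h1 : {c : acl (∅ : Set F) | g ((c : F) : OnePoint F) ∈ Cl H (S : Set (OnePoint F)) ∧
        c ≠ 0}.Infinite := by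
      have h2 : ∀ᶠ c : acl (∅ : Set F) in Filter.cofinite,
          g ((c : F) : OnePoint F) ∈ Cl H (S : Set (OnePoint F)) ∧ c ≠ 0 := by
        refine hfin.and ?_
        rw [Filter.eventually_cofinite]
        simp
      rw [Filter.eventually_cofinite] at h2
      intro h3
      exact Set.infinite_univ ((h3.union h2).subset (fun c _ => by
        by_cases hc : g ((c : F) : OnePoint F) ∈ Cl H (S : Set (OnePoint F)) ∧ c ≠ 0
        · exact Or.inl hc
        · exact Or.inr hc))
    obtain ⟨N, hN, hNc⟩ := h1.exists_subset_card_eq n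
    let N1 : Finset (OnePoint F) := N.map ⟨fun c : acl (∅ : Set F) => ((c : F) : OnePoint F),
      fun a b h => Subtype.ext (coe_eq_coe.1 h)⟩
    have hN1c : N1.card = n := by rw [Finset.card_map, hNc]
    have hN1 : (N1 : Set (OnePoint F)) ⊆ Cl H (S : Set (OnePoint F)) := by
      intro x hx
      obtain ⟨c, hc, rfl⟩ := Finset.mem_map.1 (Finset.mem_coe.1 hx)
      have h4 := hN (Finset.mem_coe.2 hc)
      exact hk c c.2 (fun h0 => h4.2 (Subtype.ext h0))
    have e1 : Cl H (N1 : Set (OnePoint F)) = Cl H (S : Set (OnePoint F)) :=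
      s.abs.block_eq S N1 hS.card hN1c hN1
    have hN2 : ((N1.image g : Finset (OnePoint F)) : Set (OnePoint F)) ⊆
        Cl H (S : Set (OnePoint F)) := by
      intro x hx
      rw [Finset.coe_image] at hx
      obtain ⟨y, hy, rfl⟩ := hx
      obtain ⟨c, hc, rfl⟩ := Finset.mem_map.1 (Finset.mem_coe.1 hy)
      exact (hN (Finset.mem_coe.2 hc)).1
    have e2 : Cl H ((N1.image g : Finset (OnePoint F)) : Set (OnePoint F)) =
        Cl H (S : Set (OnePoint F)) :=
      s.abs.block_eq S (N1.image g) hS.card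
        (by rw [Finset.card_image_of_injective _ g.injective, hN1c]) hN2
    rw [← e1, image_cl hg, ← Finset.coe_image]
    rw [e1]
    exact e2
  -- `0` is in the block
  have h0 : ((0 : F) : OnePoint F) ∈ Cl H (S : Set (OnePoint F)) := by
    have h1 := key (addP 1) (s.hG (addP_mem_GG 1)) (by
      rw [Filter.eventually_cofinite]
      refine (Set.finite_singleton (-1 : acl (∅ : Set F))).subset ?_
      intro c hc
      rw [Set.mem_singleton_iff]
      by_contra hc1
      apply hc
      rw [addP_coe]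
      refine hk _ (add_mem (one_mem _) c.2) ?_
      intro h2
      apply hc1
      apply Subtype.ext
      have : (c : F) = -1 := by linear_combination h2
      simpa using this)
    rw [← h1]
    refine ⟨((-1 : F) : OnePoint F), hk _ (neg_mem (one_mem _)) (by simp), ?_⟩
    rw [addP_coe]; simp
  have hi : (∞ : OnePoint F) ∈ Cl H (S : Set (OnePoint F)) := by
    have h1 := key invP (s.hG invP_mem_GG) (by
      rw [Filter.eventually_cofinite]
      refine (Set.finite_singleton (0 : acl (∅ : Set F))).subset ?_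
      intro c hc
      rw [Set.mem_singleton_iff]
      by_contra hc1
      apply hc
      have hc2 : (c : F) ≠ 0 := fun h2 => hc1 (Subtype.ext h2)
      rw [invP_coe hc2]
      exact hk _ (inv_mem c.2) (inv_ne_zero hc2))
    rw [← h1]
    exact ⟨_, h0, invP_zero⟩
  apply Set.Subset.antisymm hsub
  rintro x (rfl | ⟨c, hc, rfl⟩)
  · exact hi
  · by_cases hc0 : c = 0
    · rw [hc0]; exact h0
    · exact hk c hc hc0

/-- in positive characteristic the nonzero elements of `k` are roots of unity -/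
theorem mem_UU_of_mem_acl (p : ℕ) [Fact p.Prime] [CharP F p] {c : F}
    (hc : c ∈ acl (∅ : Set F)) (hc0 : c ≠ 0) : c ∈ UU F := by
  classical
  rw [mem_acl, Subfield.closure_empty] at hc
  have hpp : p.Prime := Fact.out
  have hcard : Nat.card (⊥ : Subfield F) = p := Subfield.card_bot F p
  have hfin0 : Finite (⊥ : Subfield F) :=
    Nat.finite_of_card_ne_zero (by rw [hcard]; exact hpp.ne_zero)
  have hint : IsIntegral (⊥ : Subfield F) c := hc.isIntegral
  have hfd : FiniteDimensional (⊥ : Subfield F)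
      (IntermediateField.adjoin (⊥ : Subfield F) {c}) :=
    IntermediateField.adjoin.finiteDimensional hint
  have hfin : Finite (IntermediateField.adjoin (⊥ : Subfield F) {c}) :=
    Module.finite_of_finite (⊥ : Subfield F)
  let c' : IntermediateField.adjoin (⊥ : Subfield F) {c} :=
    ⟨c, IntermediateField.mem_adjoin_simple_self _ c⟩
  have hc' : c' ≠ 0 := fun h => hc0 (congrArg Subtype.val h)
  let _ : Fintype (IntermediateField.adjoin (⊥ : Subfield F) {c}) := Fintype.ofFinite _
  have h1 := FiniteField.pow_card_sub_one_eq_one c' hc'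
  have hch : CharP (IntermediateField.adjoin (⊥ : Subfield F) {c}) p := inferInstance
  obtain ⟨m, -, hm⟩ := FiniteField.card (IntermediateField.adjoin (⊥ : Subfield F) {c}) p
  refine ⟨Fintype.card (IntermediateField.adjoin (⊥ : Subfield F) {c}) - 1, ?_, ?_⟩
  · rw [hm, Nat.cast_sub (Nat.one_le_pow _ _ hpp.pos)]
    simp
  · have h2 := congrArg Subtype.val h1
    simpa [c'] using h2

/-- in positive characteristic `P¹(k)` is a block -/
theorem block_of_charP [IsAlgClosed F] {H : Subgroup (Equiv.Perm (OnePoint F))} {n : ℕ}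
    (s : Setup H n) {S : Finset (OnePoint F)} (hS : Flat H n S) (p : ℕ) [Fact p.Prime]
    [CharP F p] {v : F} (hv : v ∉ acl (∅ : Set F)) :
    Cl H (S : Set (OnePoint F)) = DD F := by
  refine block_eq_DD s hS (acl_ne_top_of_not_mem hv) ?_
  intro c hc hc0
  exact hS.inter v hv _ ((coe_mem_PP _ _).2 hc) (hS.unit v hv c (mem_UU_of_mem_acl p hc hc0))

/-- in characteristic zero `P¹(k)` is a block -/
theorem block_of_charZero [IsAlgClosed F] {H : Subgroup (Equiv.Perm (OnePoint F))} {n : ℕ}
    (s : Setup H n) (hEx : ∀ Y : Finset (OnePoint F), (Y : Set (OnePoint F)) ⊆ DD F →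
      Exch H (SS F) (Y : Set (OnePoint F))) {S : Finset (OnePoint F)} (hS : Flat H n S)
    {t : F} (ht : t ∉ acl (∅ : Set F)) : Cl H (S : Set (OnePoint F)) = DD F := by
  have hG := s.hG
  have hkne : acl (∅ : Set F) ≠ ⊤ := acl_ne_top_of_not_mem ht
  have hkcl : IsAlgClosed (acl (∅ : Set F)) := isAlgClosed_acl _
  refine block_eq_DD s hS hkne ?_
  by_contra hcon
  push Not at hcon
  obtain ⟨c, hc, hc0, hcS⟩ := hcon
  obtain ⟨ζ, A, hζU, hζ1, hA, hgc⟩ := generic_commuting s hS hc hc0 hcS
  obtain ⟨e, he, hζe⟩ := hζU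
  have he0 : e ≠ 0 := by rintro rfl; simp at he
  have hζk : ζ ∈ acl (∅ : Set F) := UU_subset_acl ⟨e, he, hζe⟩
  have hζ0 : ζ ≠ 0 := by rintro rfl; rw [zero_pow he0] at hζe; exact zero_ne_one hζe
  obtain ⟨b, hb, hb0, hb1, hbe⟩ := exists_b (F := F) e he0
  obtain ⟨σ, hσ, hσinf, hσ0, hσ1, hσζ, hσC⟩ :=
    exists_sigma s hEx A hA hζk hb hζ0 hζ1 hb0 hb1
  obtain ⟨p, hp⟩ := ExpChar.exists F
  set f : Equiv.Perm (OnePoint F) := σ * mulP ζ * σ⁻¹ with hf
  have hfH : f ∈ H := H.mul_mem (H.mul_mem hσ (s.hG (mulP_mem_GG ζ))) (H.inv_mem hσ)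
  have hσinv : σ⁻¹ ∞ = ∞ := by rw [Equiv.Perm.inv_eq_iff_eq, hσinf]
  have hfinf : f ∞ = ∞ := by
    simp [hf, Equiv.Perm.mul_apply, hσinv, hσinf]
  have hf0 : f ((0 : F) : OnePoint F) = ((0 : F) : OnePoint F) := by
    have h1 : σ⁻¹ ((0 : F) : OnePoint F) = ((0 : F) : OnePoint F) := by
      rw [Equiv.Perm.inv_eq_iff_eq, hσ0]
    rw [hf, Equiv.Perm.mul_apply, Equiv.Perm.mul_apply, h1, mulP_coe hζ0, mul_zero, hσ0]
  have hf1 : f ((1 : F) : OnePoint F) = (b : OnePoint F) := by
    have h1 : σ⁻¹ ((1 : F) : OnePoint F) = ((1 : F) : OnePoint F) := by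
      rw [Equiv.Perm.inv_eq_iff_eq, hσ1]
    rw [hf, Equiv.Perm.mul_apply, Equiv.Perm.mul_apply, h1, mulP_coe hζ0, mul_one, hσζ]
  have hfe : f ^ e = 1 := by
    have h1 : ∀ m : ℕ, f ^ m = σ * mulP ζ ^ m * σ⁻¹ := by
      intro m; rw [hf]; exact conj_pow
    rw [h1]
    have h2 : ∀ m : ℕ, mulP ζ ^ m = mulP (ζ ^ m) := by
      intro m
      induction m with
      | zero =>
        ext x; induction x using OnePoint.rec with
        | infty => simp
        | coe x => simp [mulP_coe one_ne_zero]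
      | succ m ih =>
        rw [pow_succ, ih]
        ext x; induction x using OnePoint.rec with
        | infty => simp [Equiv.Perm.mul_apply]
        | coe x =>
          rw [Equiv.Perm.mul_apply, mulP_coe hζ0, mulP_coe (pow_ne_zero _ hζ0),
            mulP_coe (pow_ne_zero _ hζ0), pow_succ, mul_assoc]
    rw [h2, hζe]
    have h3 : mulP (1 : F) = 1 := by
      ext x; induction x using OnePoint.rec with
      | infty => simp
      | coe x => simp [mulP_coe one_ne_zero]
    rw [h3]; group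
  -- the second flat
  have hC2 : σ '' DD F ∈ JJ H (SS F) := image_mem_JJ (PP_mem_JJ H hG _ hkne) hσ
  have hmem : ∀ x, x ∈ σ '' DD F ↔ σ⁻¹ x ∈ DD F := by
    intro x
    constructor
    · rintro ⟨y, hy, rfl⟩; simpa using hy
    · intro hx; exact ⟨σ⁻¹ x, hx, by simp⟩
  have hfC : ∀ x, f x ∈ σ '' DD F ↔ x ∈ σ '' DD F := by
    intro x
    rw [hmem, hmem, hf, Equiv.Perm.mul_apply, Equiv.Perm.mul_apply, inv_apply_self',
      mulP_mem_PP hζk]
  have hcomm : ∀ φ : F ≃+* F, (∀ a ∈ acl (∅ : Set F), φ a = a) → ∀ x, x ∉ σ '' DD F →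
      autP φ x ∉ σ '' DD F →
      f (autP φ x) = autP φ (f x) ∧ f⁻¹ (autP φ x) = autP φ (f⁻¹ x) := by
    intro φ hφ x hx hx'
    have hφP : ∀ y ∈ DD F, autP φ y = y := by
      rintro y (rfl | ⟨a, ha, rfl⟩)
      · rfl
      · rw [autP_coe, hφ a ha]
    rw [hmem] at hx hx'
    have h1 := hgc (σ⁻¹ * autP φ * σ)
      (H.mul_mem (H.mul_mem (H.inv_mem hσ) (hG (autP_mem_GG φ))) hσ) (by
        intro y hy
        rw [Equiv.Perm.mul_apply, Equiv.Perm.mul_apply, hφP _ (hσC y hy)]
        simp) (σ⁻¹ x) hx (by simpa [Equiv.Perm.mul_apply] using hx')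
    obtain ⟨h1, h2⟩ := h1
    constructor
    · have h3 := congrArg σ h1
      simp only [Equiv.Perm.mul_apply, apply_inv_self'] at h3
      rw [hf]; simp only [Equiv.Perm.mul_apply]
      rw [← h3]
    · have h3 := congrArg σ h2
      have h4 : f⁻¹ = σ * mulP ζ⁻¹ * σ⁻¹ := by
        rw [hf, mul_inv_rev, mul_inv_rev, inv_inv, mul_assoc]
        congr 2
        rw [inv_eq_iff_mul_eq_one]
        ext x; induction x using OnePoint.rec with
        | infty => simp [Equiv.Perm.mul_apply]
        | coe x =>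
          rw [Equiv.Perm.mul_apply, mulP_coe (inv_ne_zero hζ0), mulP_coe hζ0,
            mul_inv_cancel_left₀ hζ0]; rfl
      simp only [Equiv.Perm.mul_apply, apply_inv_self'] at h3
      rw [h4]; simp only [Equiv.Perm.mul_apply]
      rw [← h3]
  obtain ⟨g, i, j, hg⟩ := eq_of_commuting p s hS.inf (acl (∅ : Set F)) hkne hC2 hfH hfinf hfC hcomm
  exact hbe (pow_eq_one_contra p hfinf hf0 hf1 hfe he0 g i j hg)

end Pool.Agent.MPa267.D1
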