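import Pool.Agent.Lib.MP_a267a3_lc.D1.Main
import Pool.Agent.Lib.MP_a267a3_lc.Final

/-!
# MP_a267a3_lc, transcendence degree one: the theorem for `Projectivization`
-/

set_option autoImplicit false

namespace Pool.Agent.MPa267.D1

open OnePoint

universe u

theorem td1_of_no_pair {F : Type u} [Field F]
    (h2 : ∀ x : Fin 2 → F, ¬ AlgebraicIndependent (⊥ : Subfield F) x) : TD1 F := by
  classical
  intro t ht
  by_contra hne
  obtain ⟨y, hy⟩ : ∃ y : F, y ∉ acl ({t} : Set F) := by
    by_contra hcon
    push Not at hcon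
    exact hne (eq_top_iff.2 fun x _ => hcon x)
  apply h2 ![t, y]
  have e0 : AlgebraicIndepOn (⊥ : Subfield F) ![t, y] {0} := by
    rw [mem_acl, Subfield.closure_empty] at ht
    have : AlgebraicIndependent (⊥ : Subfield F) (fun i : ({0} : Set (Fin 2)) => ![t, y] i) := by
      rw [algebraicIndependent_unique_type_iff]
      exact ht
    exact this
  have e1 : AlgebraicIndepOn (⊥ : Subfield F) ![t, y] (insert 1 {0}) := by
    rw [AlgebraicIndepOn.insert_iff (by simp)]
    refine ⟨e0, ?_⟩
    intro h
    apply hy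
    rw [mem_acl]
    have h1 : IsAlgebraic (IntermediateField.adjoin (⊥ : Subfield F) {t}) y := by
      have h3 : (![t, y] '' ({0} : Set (Fin 2))) = {t} := by simp
      rw [h3] at h
      have h4 : IsAlgebraic (Algebra.adjoin (⊥ : Subfield F) {t}) y := h
      open scoped IntermediateField.algebraAdjoinAdjoin in
      exact (IsFractionRing.isAlgebraic_iff (Algebra.adjoin (⊥ : Subfield F) {t})
        (IntermediateField.adjoin (⊥ : Subfield F) {t}) F).1 h4
    have hle : (IntermediateField.adjoin (⊥ : Subfield F) {t}).toSubfield ≤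
        Subfield.closure {t} := by
      rw [IntermediateField.adjoin_toSubfield, Subfield.closure_le]
      rintro x (⟨⟨a, ha⟩, rfl⟩ | hx)
      · exact (bot_le : (⊥ : Subfield F) ≤ Subfield.closure {t}) ha
      · exact Subfield.subset_closure hx
    obtain ⟨p, hp0, hp⟩ := h1
    refine ⟨p.map (Subfield.inclusion hle), ?_, ?_⟩
    · exact (Polynomial.map_ne_zero_iff (Subfield.inclusion hle).injective).2 hp0
    · rw [Polynomial.aeval_def] at hp ⊢
      rw [← hp]
      exact Polynomial.eval₂_map _ _ _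
  have e2 : (insert 1 {0} : Set (Fin 2)) = Set.univ := by
    ext i; fin_cases i <;> simp
  rw [e2] at e1
  exact AlgebraicIndependent.comp e1 (fun i : Fin 2 => (⟨i, trivial⟩ : (Set.univ : Set (Fin 2))))
    (fun a b h => congrArg Subtype.val h)

namespace FinAux

variable {F : Type u} [Field F]

open Classical in
theorem toLine_apply (σ : Equiv.Perm (Projectivization F (Fin 2 → F))) (x : OnePoint F) :
    toLine σ x = (equivProjectivization F).symm (σ (equivProjectivization F x)) := by
  simp only [toLine, Equiv.permCongrHom, Equiv.permCongr]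
  rfl

open Classical in
/-- the points of the projective line over the algebraic closure of the prime field -/
theorem mem_DD_iff (x : Projectivization F (Fin 2 → F)) :
    (∃ (v : Fin 2 → F) (hv : v ≠ 0), (∀ i, IsAlgebraic (⊥ : Subfield F) (v i)) ∧
      x = Projectivization.mk F v hv) ↔ (equivProjectivization F).symm x ∈ DD F := by
  classical
  have hmem : ∀ a : F, a ∈ acl (∅ : Set F) ↔ IsAlgebraic (⊥ : Subfield F) a := by
    intro a; rw [mem_acl, Subfield.closure_empty]
  constructor
  · rintro ⟨v, hv, hal, rfl⟩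
    rw [equivProjectivization_symm_apply_mk]
    split_ifs with h
    · exact infty_mem_PP _
    · rw [coe_mem_PP]
      exact Subfield.mul_mem _ (Subfield.inv_mem _ ((hmem _).2 (hal 1))) ((hmem _).2 (hal 0))
  · intro h
    obtain ⟨y, rfl⟩ := (equivProjectivization F).surjective x
    rw [Equiv.symm_apply_apply] at h
    rcases h with rfl | ⟨a, ha, rfl⟩
    · rw [equivProjectivization_apply_infinity]
      refine ⟨_, _, ?_, rfl⟩
      intro i
      fin_cases i
      · exact isAlgebraic_one
      · exact isAlgebraic_zero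
    · rw [equivProjectivization_apply_coe]
      refine ⟨_, _, ?_, rfl⟩
      intro i
      fin_cases i
      · exact (hmem a).1 ha
      · exact isAlgebraic_one

end FinAux

/-- the theorem for `Projectivization` -/
theorem proj_main (hExc : S_Exc.{u}) (F : Type u) [Field F] [IsAlgClosed F]
    (h1 : ∃ x : F, Transcendental (⊥ : Subfield F) x)
    (h2 : ∀ x : Fin 2 → F, ¬ AlgebraicIndependent (⊥ : Subfield F) x)
    (G : Set (Equiv.Perm (Projectivization F (Fin 2 → F))))
    (hG : ∀ σ : Equiv.Perm (Projectivization F (Fin 2 → F)),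
        σ ∈ G ↔ ∃ (φ : F ≃+* F)
          (f : (Fin 2 → F) →ₛₗ[φ.toRingHom] (Fin 2 → F))
          (hf : Function.Injective f),
          ⇑σ = Projectivization.map f hf)
    (H : Subgroup (Equiv.Perm (Projectivization F (Fin 2 → F))))
    (hH : ∀ σ : Equiv.Perm (Projectivization F (Fin 2 → F)),
        (∀ A : Finset (Projectivization F (Fin 2 → F)),
          ∃ h ∈ H, ∀ x ∈ A, h x = σ x) → σ ∈ H)
    (hGH : G ⊆ (H : Set (Equiv.Perm (Projectivization F (Fin 2 → F)))))
    (hne : (H : Set (Equiv.Perm (Projectivization F (Fin 2 → F)))) ≠ G) (hne' : H ≠ ⊤) :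
    ∃ n : ℕ, Odd n ∧ 5 ≤ n ∧
      (∀ (A : Finset (Projectivization F (Fin 2 → F)))
        (f : Projectivization F (Fin 2 → F) → Projectivization F (Fin 2 → F)),
        A.card = n → Set.InjOn f (A : Set (Projectivization F (Fin 2 → F))) →
          ∃ h ∈ H, ∀ a ∈ A, h a = f a) ∧
      (∃ (A : Finset (Projectivization F (Fin 2 → F)))
        (f : Projectivization F (Fin 2 → F) → Projectivization F (Fin 2 → F)),
        A.card = n + 1 ∧ Set.InjOn f (A : Set (Projectivization F (Fin 2 → F))) ∧
          ∀ h ∈ H, ∃ a ∈ A, h a ≠ f a) ∧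
      ∀ A : Finset (Projectivization F (Fin 2 → F)), A.card = n →
        ∃! P : Set (Projectivization F (Fin 2 → F)),
          (∃ h ∈ H, P = h '' {x | ∃ (v : Fin 2 → F) (hv : v ≠ 0),
            (∀ i, IsAlgebraic (⊥ : Subfield F) (v i)) ∧ x = Projectivization.mk F v hv}) ∧
          (A : Set (Projectivization F (Fin 2 → F))) ⊆ P := by
  classical
  have hG' : ∀ σ, σ ∈ G ↔ toLine σ ∈ GG F := fun σ => (hG σ).trans (semilinear_iff σ)
  set e := equivProjectivization F with he
  have hto : ∀ (σ : Equiv.Perm (Projectivization F (Fin 2 → F))) (x : OnePoint F),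
      toLine σ x = e.symm (σ (e x)) := FinAux.toLine_apply
  set H' : Subgroup (Equiv.Perm (OnePoint F)) := H.map (toLine (F := F)).toMonoidHom with hH'
  have hHH : ∀ σ, σ ∈ H ↔ toLine σ ∈ H' := by
    intro σ
    simp [hH']
  have hsurj : ∀ τ ∈ H', ∃ σ ∈ H, toLine σ = τ := by
    intro τ hτ
    obtain ⟨σ, hσ, hστ⟩ := hτ
    exact ⟨σ, hσ, hστ⟩
  have hcl : IsClosedP H' := by
    intro σ hσ
    have h3 := hH (toLine.symm σ) (by
      intro A
      obtain ⟨g, hg, hgA⟩ := hσ (A.image e.symm)
      obtain ⟨g', hg', rfl⟩ := hsurj g hg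
      refine ⟨g', hg', ?_⟩
      intro x hxA
      have := hgA _ (Finset.mem_image_of_mem _ hxA)
      rw [hto, Equiv.apply_symm_apply] at this
      have h4 : toLine (toLine.symm σ) (e.symm x) = σ (e.symm x) := by
        rw [MulEquiv.apply_symm_apply]
      rw [hto, Equiv.apply_symm_apply] at h4
      exact e.symm.injective (this.trans h4.symm))
    simpa using (hHH _).1 h3
  have hle : GG F ≤ H' := by
    intro τ hτ
    have h3 : toLine.symm τ ∈ G := (hG' _).2 (by simpa using hτ)
    have h4 := (hHH _).1 (hGH h3)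
    simpa using h4
  have hneG : ¬ H' ≤ GG F := by
    intro h3
    apply hne
    apply Set.Subset.antisymm _ hGH
    intro σ hσ
    exact (hG' σ).2 (h3 ((hHH σ).1 hσ))
  have hnetop : H' ≠ ⊤ := by
    intro h3
    apply hne'
    rw [eq_top_iff]
    intro σ _
    exact (hHH σ).2 (by rw [h3]; trivial)
  obtain ⟨t, ht⟩ := h1
  have ht' : t ∉ acl (∅ : Set F) := by
    rw [mem_acl, Subfield.closure_empty]; exact ht
  obtain ⟨n, hodd, hn5, hMT, hnMT, hst⟩ :=
    line_main hExc (td1_of_no_pair h2) ⟨t, ht'⟩ H' hle hcl hneG hnetop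
  set D : Set (Projectivization F (Fin 2 → F)) := {x | ∃ (v : Fin 2 → F) (hv : v ≠ 0),
    (∀ i, IsAlgebraic (⊥ : Subfield F) (v i)) ∧ x = Projectivization.mk F v hv} with hD
  have hDD : ∀ x, x ∈ D ↔ e.symm x ∈ DD F := fun x => FinAux.mem_DD_iff x
  have hDim : ∀ σ : Equiv.Perm (Projectivization F (Fin 2 → F)),
      e.symm '' (σ '' D) = toLine σ '' DD F := by
    intro σ
    ext x
    constructor
    · rintro ⟨_, ⟨y, hy, rfl⟩, rfl⟩
      refine ⟨e.symm y, (hDD y).1 hy, ?_⟩
      rw [hto, Equiv.apply_symm_apply]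
    · rintro ⟨y, hy, rfl⟩
      refine ⟨σ (e y), ⟨e y, (hDD _).2 (by rwa [Equiv.symm_apply_apply]), rfl⟩, ?_⟩
      rw [hto]
  -- finite sets
  have hfin : ∀ (m : ℕ) (A : Finset (Projectivization F (Fin 2 → F)))
      (f : Projectivization F (Fin 2 → F) → Projectivization F (Fin 2 → F)), A.card ≤ m →
      Set.InjOn f (A : Set (Projectivization F (Fin 2 → F))) → MT H' m →
        ∃ h ∈ H, ∀ a ∈ A, h a = f a := by
    intro m A f hA hf hm
    obtain ⟨h', hh', hf'⟩ := hm (A.image e.symm) (fun x => e.symm (f (e x)))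
      (Finset.card_image_le.trans hA) (by
        intro x hx y hy hxy
        rw [Finset.coe_image] at hx hy
        obtain ⟨a, ha, rfl⟩ := hx
        obtain ⟨b, hb, rfl⟩ := hy
        simp only [Equiv.apply_symm_apply] at hxy
        rw [hf ha hb (e.symm.injective hxy)])
    obtain ⟨h, hh, rfl⟩ := hsurj h' hh'
    refine ⟨h, hh, ?_⟩
    intro a ha
    have h3 := hf' _ (Finset.mem_image_of_mem e.symm ha)
    simp only [Equiv.apply_symm_apply] at h3
    rw [hto, Equiv.apply_symm_apply] at h3
    exact e.symm.injective h3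
  refine ⟨n, hodd, hn5, fun A f hA hf => hfin n A f hA.le hf hMT, ?_, ?_⟩
  · -- not `(n+1)`-transitive
    by_contra hcon
    push Not at hcon
    apply hnMT
    intro A f hA hf
    rcases Nat.lt_or_ge n A.card with hlt | hge
    swap
    · exact hMT A f hge hf
    obtain ⟨h, hh, hhf⟩ := hcon (A.image e) (fun x => e (f (e.symm x)))
      (by rw [Finset.card_image_of_injective _ e.injective]; omega) (by
        intro x hx y hy hxy
        rw [Finset.coe_image] at hx hy
        obtain ⟨a, ha, rfl⟩ := hx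
        obtain ⟨b, hb, rfl⟩ := hy
        simp only [Equiv.symm_apply_apply] at hxy
        rw [hf ha hb (e.injective hxy)])
    refine ⟨toLine h, (hHH h).1 hh, ?_⟩
    intro a ha
    have h3 := hhf _ (Finset.mem_image_of_mem e ha)
    rw [hto, h3]
    simp
  · intro A hA
    obtain ⟨P', ⟨⟨h', hh', hP'⟩, hAP'⟩, huniq⟩ := hst (A.image e.symm)
      (by rw [Finset.card_image_of_injective _ e.symm.injective, hA])
    obtain ⟨h, hh, rfl⟩ := hsurj h' hh'
    have hes : ∀ Q : Set (Projectivization F (Fin 2 → F)), e '' (e.symm '' Q) = Q := by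
      intro Q
      rw [← Set.image_comp]
      have : (e : OnePoint F → _) ∘ e.symm = id := by
        funext y; exact e.apply_symm_apply y
      rw [this, Set.image_id]
    refine ⟨h '' D, ⟨⟨h, hh, rfl⟩, ?_⟩, ?_⟩
    · intro a ha
      have h3 : e.symm a ∈ P' := hAP' (by
        rw [Finset.coe_image]; exact ⟨a, ha, rfl⟩)
      rw [hP', ← hDim] at h3
      obtain ⟨y, hy, hya⟩ := h3
      rwa [e.symm.injective hya] at hy
    · rintro P ⟨⟨g, hg, rfl⟩, hAP⟩
      have h3 := huniq (toLine g '' DD F) ⟨⟨toLine g, (hHH g).1 hg, rfl⟩, by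
        rw [← hDim, Finset.coe_image]
        exact Set.image_mono hAP⟩
      rw [hP', ← hDim, ← hDim] at h3
      have h4 := congrArg (fun Q => e '' Q) h3
      simp only [hes] at h4
      exact h4

end Pool.Agent.MPa267.D1
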