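import Pool.Agent.Lib.MP_a267a3_lc.D1.Setup

/-!
# MP_a267a3_lc, transcendence degree one: statements and proofs

THEOREM (all characteristics). Let `F` be algebraically closed of transcendence degree 1 over its prime field,
`k = acl ∅` the algebraic closure of the prime field in `F`, `D = DD F = P¹(k)`, and `H` a closed subgroup of
`Sym(P¹(F))` with `PΓL₂(F) < H < Sym` (both strict). Then there is an odd `n ≥ 5` such that `H` is
`n`-transitive, not `(n+1)`-transitive, and the translates `h D` (`h ∈ H`) form a Steiner `n`-system (any `n`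
points are in exactly one translate). (For transcendence degree at least 2 there is no such `H`: `main_line`.)

Every `def S_Foo : Prop` is one task: write `Pool/Agent/Lib/MP_a267a3_lc/D1/Foo.lean`, first line
`import Pool.Agent.Lib.MP_a267a3_lc.D1.Spec`, `namespace Pool.Agent.MPa267.D1`, `open OnePoint`, final theorem
`theorem tFoo.{u} (hyps S_Bar.{u} as allowed in the docstring, in the given order) : S_Foo.{u}`, helper lemmas in
the namespace `Pool.Agent.MPa267.D1.FooAux`. All tasks are independent: allowed statements are hypotheses.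

Library (namespace `Pool.Agent.MPa267`, folder `Pool/Agent/Lib/MP_a267a3_lc`): `Defs.lean` (`cl`, `JJ`, `Small`,
`Jor`, `PP`, `mulP`, `addP`, `autP`, `invP`, `mob`, `acl`, `GG`), `Basic.lean` (how they act), `AbsA.lean`
(`subset_cl`, `cl_mono`, `cl_le`, `cl_subset_of_mem_JJ`, `image_mem_JJ`, `image_cl`), `AlgA.lean` (`mem_acl`,
`subset_acl`, `acl_le`, `isAlgClosed_acl`, `map_acl`), `AlgB.lean` (`exists_aut_of_not_mem`), `AlgC.lean`
(`fixed_aut_pow_mem`), `Setup.lean` (`Cl`, `Cl_subset_PP`, `PP_mem_JJ`), `D1/Abs.lean` (`Exch`, `AbsSetup`,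
`AbsSetup.cl_mem_JJ`, `AbsSetup.cl_eq_univ`, `AbsSetup.exch_of_indep`, `AbsSetup.mem_JJ_of_mem`,
`AbsSetup.mem_cl_of_fix`).
-/

set_option autoImplicit false

namespace Pool.Agent.MPa267.D1

open OnePoint

universe u

/-- The transcendence degree is at most one. -/
def TD1 (F : Type u) [Field F] : Prop := ∀ t : F, t ∉ acl (∅ : Set F) → acl ({t} : Set F) = ⊤

/-- A chain of proper subfields `L x`, `x ∉ k`, with `k(x) ⊆ L x`, natural in `x`. -/
structure LFam {F : Type u} [Field F] (L : F → Subfield F) : Prop where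
  le : ∀ x, x ∉ acl (∅ : Set F) → acl (∅ : Set F) ≤ L x
  mem : ∀ x, x ∉ acl (∅ : Set F) → x ∈ L x
  mono : ∀ x y, x ∉ acl (∅ : Set F) → y ∉ acl (∅ : Set F) → y ∈ L x → L y ≤ L x
  tot : ∀ x y, x ∉ acl (∅ : Set F) → y ∉ acl (∅ : Set F) → L x ≤ L y ∨ L y ≤ L x
  eqv : ∀ (σ : F ≃+* F) (x : F), x ∉ acl (∅ : Set F) → ∀ a, a ∈ L x ↔ σ a ∈ L (σ x)
  ne : ∀ x, x ∉ acl (∅ : Set F) → L x ≠ ⊤

/-- The field `k(x)`. -/
def kk {F : Type u} [Field F] (x : F) : Subfield F :=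
  Subfield.closure (insert x ((acl (∅ : Set F) : Subfield F) : Set F))

/-- The separable closure of `k(x)` in `F`. -/
noncomputable def Sp {F : Type u} [Field F] (x : F) : Subfield F :=
  (separableClosure (kk x) F).toSubfield

/-! ## Part A: without exchange the flats form a chain -/

/-- **Tot** (60 lines, abstract).
PROOF. There are `x₀`, `y₀` with `y₀ ∈ cl (A + x₀)`, `y₀ ∉ cl A`, `x₀ ∉ cl (A + y₀)`. (1) `cl A ∈ JJ`
(`AbsSetup.cl_mem_JJ`), so for `x ∉ cl A` there is `h ∈ H` which fixes `cl A` pointwise and maps `y₀` to `x`.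
If `cl (A + x)` is everything then `x₁ = h x₀ ∈ cl (A + x)`, so `x₀ = h⁻¹ x₁ ∈ cl (A + y₀)` (`mem_cl_of_fix` for
`h⁻¹`), contradiction. (2) Let `s ∈ S`, `s ∉ T`, `t ∈ T`, `t ∉ S`. `cl (A + s) ⊆ S` does not contain `t`,
`cl (A + t) ⊆ T` does not contain `s`, and `s ∉ cl A ⊆ T`: by `AbsSetup.exch_of_indep` we get `Exch A`,
contradiction. -/
def S_Tot : Prop := ∀ (X : Type u) (H : Subgroup (Equiv.Perm X)) (𝒮 : Set (Set X)) (P0 : Set X) (n : ℕ),
  AbsSetup H 𝒮 P0 n → ∀ A : Set X, Small H 𝒮 A → ¬ Exch H 𝒮 A →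
    (∀ x, x ∉ cl H 𝒮 A → cl H 𝒮 (insert x A) ≠ Set.univ) ∧
    ∀ S ∈ JJ H 𝒮, ∀ T ∈ JJ H 𝒮, A ⊆ S → A ⊆ T → S ⊆ T ∨ T ⊆ S

/-- **Lf** (200 lines). Allowed: `S_Tot`. The closures `P x = Cl (A + x)`, `x ∉ k`, are projective lines over
subfields.
PROOF. `D = DD F ∈ JJ` (`s.abs.mem_JJ_of_mem s.abs.mem`), `A ⊆ D`, `cl A ⊆ D`. Let `x ∉ k`, so `x ∉ D`.
(a) By Tot (1) `P x ≠ univ`, so `A + x` is small (`AbsSetup.cl_eq_univ`) and `P x ∈ JJ`. By Tot (2) `D ⊆ P x`
(not `P x ⊆ D` because of `x`). Hence also `P x = Cl (insert x D)`.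
(b) If `S ∈ JJ`, `A ⊆ S`, `g ∈ H`, `g * g = 1` and `A ⊆ g '' S`, then `g '' S = S`: by Tot (2) for `S` and
`g '' S` (`image_mem_JJ`) one contains the other; apply `g`.
(c) Put `S = P x`, `L x = {a | (a : OnePoint F) ∈ S}`. (c1) For `c ∈ k` the involution `z ↦ c - z` (that is
`addP c * mulP (-1)`; in characteristic two too) maps `D` to `D`, so `D ⊆ g '' S` and `g '' S = S`: `a ∈ L x`
implies `c - a ∈ L x`. The same for `z ↦ c / z` (`mulP c * invP`), `c ∈ k`, `c ≠ 0`: `a ∈ L x`, `a ≠ 0` implies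
`c / a ∈ L x`. (c2) Let `u ∈ L x`, `u ∉ k`, and `g = mulP u * invP : z ↦ u / z`, an involution. `g '' D ⊆ S`:
`g ∞ = 0`, `g 0 = ∞`, `g c = u / c = c⁻¹ / (1 / u)` is in `S` by (c1) twice. So `D = g '' (g '' D) ⊆ g '' S`
and `g '' S = S`: `a ∈ L x`, `a ≠ 0` implies `u / a ∈ L x`. So `u / a ∈ L x` for all `u, a ∈ L x`, `a ≠ 0`
(for `u ∈ k` by (c1), `u = 0` trivial). (c3) `L x` is a subfield: `0, 1 ∈ L x` as `D ⊆ S`; inverses `1 / a`;
products `u / (1 / a)`; negatives `0 - a`; `1 + c = 1 - (0 - c)`; sums `a + b = b (1 + a / b)` for `b ≠ 0`.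
`PP (L x) = S` as `∞ ∈ D ⊆ S`. (For `x ∈ k` put `L x = ⊤`.)
(d) `le`: `D ⊆ S`. `mem`: clear. `mono`: `insert y A ⊆ P x`. `tot`: Tot (2). `ne`: `P x ≠ univ`. `eqv`:
`autP σ '' (insert x D) = insert (σ x) D` (`map_acl`), so `autP σ '' P x = P (σ x)` by (a) and `image_cl`. -/
def S_Lf : Prop := ∀ (F : Type u) [Field F] [IsAlgClosed F] (H : Subgroup (Equiv.Perm (OnePoint F))) (n : ℕ),
  Setup0 H n → ∀ A : Set (OnePoint F), A ⊆ DD F → ¬ Exch H (SS F) A →
    ∃ L : F → Subfield F, LFam L ∧ ∀ x : F, x ∉ acl (∅ : Set F) →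
      Cl H (insert (x : OnePoint F) A) = PP (L x)

/-! ## Part B: chains of subfields -/

/-- **Gam** (150 lines). Automorphisms over `k` which act on some `k(z)` by a translation or a scaling preserve
all `L x`.
PROOF. Write `k = acl ∅` (algebraically closed: `isAlgClosed_acl`). (1) Let `σ` fix `k` pointwise and `σ z = z`
for some `z ∉ k`. Let `x ∉ k` and `a ∈ F`. By `TD1` `a ∈ acl {z}`, so `a` is algebraic over
`Subfield.closure {z}`, all `σ^i a` are roots of its minimal polynomial over `Subfield.closure {z}` (fixed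
pointwise by `σ`), so there are finitely many and `σ^m a = a` for some `m ≥ 1`. Case `L x ≤ L (σ x)`: let
`a ∈ L (σ x)`; then `σ⁻¹ a ∈ L x` (`eqv`), and by induction `σ⁻ⁱ a ∈ L x` for `i ≥ 1`; so `a = σ⁻ᵐ a ∈ L x`. Case
`L (σ x) ≤ L x`: let `a ∈ L x`; `σ a ∈ L (σ x)`, by induction `σ^i a ∈ L (σ x)` for `i ≥ 1`, so
`a = σ^m a ∈ L (σ x)`. So `L (σ x) = L x`.
(2) Let `σ z = z + c`. By `exists_aut_of_not_mem` there is `α` over `k` with `α z = -z`; it fixes `z² ∉ k`. `β = σ ∘ α`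
fixes `z (z + c) ∉ k` (`β z = -(z + c)`). By (1) for `β` and `α` at `y = α⁻¹ x`:
`L (σ x) = L (β y) = L y = L (α y) = L x`.
(3) Let `σ z = c z`, `c ≠ 0`: `α z = z⁻¹` fixes `z + z⁻¹ ∉ k`, `β = σ ∘ α` maps `z` to `(c z)⁻¹` and fixes
`c z + z⁻¹ ∉ k`; conclude as in (2). (If a quadratic expression in `z` is in `k` then `z` is algebraic over the
algebraically closed `k`, so `z ∈ k`.) -/
def S_Gam : Prop := ∀ (F : Type u) [Field F] [IsAlgClosed F] (L : F → Subfield F), TD1 F → LFam L →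
  ∀ σ : F ≃+* F, (∀ a ∈ acl (∅ : Set F), σ a = a) →
    (∃ z, z ∉ acl (∅ : Set F) ∧ ∃ c ∈ acl (∅ : Set F), σ z = z + c ∨ (c ≠ 0 ∧ σ z = c * z)) →
    ∀ x, x ∉ acl (∅ : Set F) → L (σ x) = L x

/-- **Pur** (150 lines). Allowed: `S_Gam`. `F` is purely inseparable over `L x`.
PROOF. `k = acl ∅`. If `z ∈ k` take `e = 0` (`LFam.le`). Let `z ∉ k`, `M = L x`, and `Z` the set of all `ρ z`, where
`ρ : F ≃+* F` fixes `M` pointwise. `z` is algebraic over `M` (`TD1` and `x ∈ M`; also the prime field is in `M`), and `Z` is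
contained in the set of roots of its minimal polynomial: `Z` is finite. Let `w` be the product of `a - b` over all
`(a, b) ∈ Z × Z`, `a ≠ b` (`Finset.offDiag`), `w ≠ 0`, and `N` the number of factors.
(1) Let `σ` fix `k` pointwise and `σ z = z + c`, `c ∈ k`. By `S_Gam` `L (σ x) = M`, so `a ∈ M ↔ σ a ∈ M` (`eqv`), and
`σ '' Z = Z + c`: `σ ρ z = (σ ρ σ⁻¹) z + c`, and `ρ z + c = σ (σ⁻¹ ρ σ) z`. Hence `σ w = w`.
(2) In the same way `σ w = c^N w` if `σ z = c z`, `c ∈ k`, `c ≠ 0`.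
(3) `w ∈ k`: otherwise `acl {w} = ⊤`, `z` is algebraic over `Subfield.closure {w}`; for every `c ∈ k` there is `σ`
over `k` with `σ z = z + c` (`exists_aut_of_not_mem`), `σ w = w`, so `z + c` is a root of the minimal polynomial of `z`
over `Subfield.closure {w}`; but `k` is infinite.
(4) For every `c ∈ k`, `c ≠ 0`, there is `σ` over `k` with `σ z = c z`, so `w = σ w = c^N w`, `c^N = 1`. As `k` is
infinite `N = 0`, so `Z = {z}`: every `ρ` which fixes `M` fixes `z`, and `fixed_aut_pow_mem` (`AlgC.lean`) gives `e`. -/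
def S_Pur : Prop := ∀ (F : Type u) [Field F] [IsAlgClosed F] (p : ℕ) [ExpChar F p] (L : F → Subfield F),
  TD1 F → LFam L → ∀ x, x ∉ acl (∅ : Set F) → ∀ z : F, ∃ e : ℕ, z ^ p ^ e ∈ L x

/-- **Frb** (80 lines). Frobenius and the separable closure of `k(x)`.
PROOF. The Frobenius `ψ = frobeniusEquiv F p` maps `k = acl ∅` onto `k` (`map_acl`), so it maps `kk x` onto
`kk (x ^ p)`. An element `w` is separable over a subfield `K` iff it is a root of a separable polynomial with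
coefficients in `K`; apply `ψ` (resp. `ψ⁻¹`) to the coefficients. -/
def S_Frb : Prop := ∀ (F : Type u) [Field F] [IsAlgClosed F] (p : ℕ) [Fact p.Prime] [CharP F p] (x w : F),
  w ^ p ∈ Sp (x ^ p) ↔ w ∈ Sp x

/-- **SpA** (60 lines). Allowed: `S_Frb`.
PROOF. Let `w ∈ Sp x`, `K = kk x`. As `w` is separable over `K`, `w ∈ K(w) = K(w ^ p)`
(`IntermediateField.adjoin_simple_eq_adjoin_pow_expChar_pow_of_isSeparable` or a similar name), `w ^ p ∈ Sp (x ^ p)`
by `S_Frb`, and `K` is generated by `x` and `k ≤ kk (x ^ p) ≤ Sp (x ^ p)`. -/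
def S_SpA : Prop := ∀ (F : Type u) [Field F] [IsAlgClosed F] (p : ℕ) [Fact p.Prime] [CharP F p] (x : F),
  Sp x ≤ Subfield.closure (insert x ((Sp (x ^ p) : Subfield F) : Set F))

/-- **SpB** (80 lines). Allowed: `S_SpA`.
PROOF. `E = Sp (x ^ p)`, `T = E(x)` (`IntermediateField.adjoin E {x}`). `X ^ p - x ^ p` is irreducible over `E`:
`x ^ p` is not a `p`-th power in `E` (if `b ^ p = x ^ p` then `b = x`), `X_pow_sub_C_irreducible_of_prime` or similar.
So `[T : E] = p` is prime. `v ∈ T` by `S_SpA`, so `E(v) ≤ T`, `E(v) ≠ E`, hence `E(v) = T ∋ x` (degrees: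
`finrank E E(v)` divides `p`, or `IntermediateField.isSimpleOrder_of_finrank_prime`). -/
def S_SpB : Prop := ∀ (F : Type u) [Field F] [IsAlgClosed F] (p : ℕ) [Fact p.Prime] [CharP F p] (x v : F),
  x ∉ Sp (x ^ p) → v ∈ Sp x → v ∉ Sp (x ^ p) →
    x ∈ Subfield.closure (insert v ((Sp (x ^ p) : Subfield F) : Set F))

/-- **SpC** (40 lines).
PROOF. By `TD1` every `w` is algebraic over `kk x` (which contains `Subfield.closure {x}`), so `F` is purely
inseparable over `separableClosure (kk x) F` (`separableClosure.isPurelyInseparable`,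
`isPurelyInseparable_iff_pow_mem`). -/
def S_SpC : Prop := ∀ (F : Type u) [Field F] [IsAlgClosed F] (p : ℕ) [Fact p.Prime] [CharP F p], TD1 F →
  ∀ x, x ∉ acl (∅ : Set F) → ∀ w : F, ∃ j : ℕ, w ^ p ^ j ∈ Sp x

/-- **LS** (100 lines). Allowed: `S_Pur`, `S_Frb`, `S_SpB`, `S_SpC`. In characteristic `p` the field `L x` is `Sp x`.
PROOF. (Q) `y ∉ k` implies `y ∉ L (y ^ p)`: let `y ∈ L (y ^ p)`. Then `L y ≤ L (y ^ p)` (`mono`; `y ^ p ∉ k`) and
`L (y ^ p) ≤ L y` as `y ^ p ∈ L y`. So they are equal, and `eqv` for the Frobenius says `a ∈ L y ↔ a ^ p ∈ L (y ^ p)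
= L y`; with `S_Pur` every `z` is in `L y`, contradiction to `ne`.
(1) `Sp x ≤ L x`: let `w` be separable over `kk x ≤ L x`; then `w` is separable over `L x`, and `w ^ p ^ e ∈ L x` for some
`e` (`S_Pur`), so `w ∈ L x` (`separableClosure (L x) F ⊓ perfectClosure (L x) F = ⊥`).
(2) `L x ≤ Sp x`: let `y ^ p = x` (`IsAlgClosed.exists_pow_nat_eq`), `y ∉ k`. By (Q) `y ∉ L x`, so `y ∉ Sp x`. Let
`w ∈ L x`, `w ∉ Sp x`, and `j` minimal with `w ^ p ^ j ∈ Sp x` (`S_SpC`), `j ≥ 1`. `v = w ^ p ^ (j - 1) ∉ Sp x`,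
`v ^ p ∈ Sp x = Sp (y ^ p)`, so `v ∈ Sp y` (`S_Frb`). By `S_SpB` `y` is in the field generated by `v ∈ L x` and
`Sp x ≤ L x`, so `y ∈ L x`, contradiction. -/
def S_LS : Prop := ∀ (F : Type u) [Field F] [IsAlgClosed F] (p : ℕ) [Fact p.Prime] [CharP F p]
  (L : F → Subfield F), TD1 F → LFam L →
  (∀ x, x ∉ acl (∅ : Set F) → x ∉ L (x ^ p)) ∧ ∀ x, x ∉ acl (∅ : Set F) → L x = Sp x

/-- **Dsc** (120 lines). Allowed: `S_Pur`, `S_Frb`, `S_SpA`, `S_LS`. There is no infinite strictly decreasing sequence of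
fields `L (z j)` above `L x`.
PROOF. `E = L x = Sp x`. By `S_Pur` `(z 0) ^ p ^ i ∈ L x` for some `i`. For `a ∈ L (z 0)`: `a ^ p ^ i ∈ L ((z 0) ^ p ^ i)`
(`eqv` for the `i`-th power of the Frobenius, `iterateFrobeniusEquiv`) `≤ L x`. Let `y ^ p ^ i = x`. By `S_Frb` (`i` times)
`a ∈ Sp y`, and by `S_SpA` (`i` times) `Sp y ≤ Subfield.closure (insert y (Sp (y ^ p ^ i)))`. So
`L (z 0) ≤ T = E(y)` (`IntermediateField.adjoin E {y}`), which has finite degree over `E` as `y` is algebraic over `E`.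
The fields `L (z j)`, `E ≤ L (z j) ≤ L (z 0)`, are `E`-subspaces of `T`: an infinite strictly decreasing
sequence of subspaces of a finite dimensional space does not exist. -/
def S_Dsc : Prop := ∀ (F : Type u) [Field F] [IsAlgClosed F] (p : ℕ) [Fact p.Prime] [CharP F p]
  (L : F → Subfield F), TD1 F → LFam L → ∀ x, x ∉ acl (∅ : Set F) → ∀ z : ℕ → F,
  (∀ j, z j ∉ acl (∅ : Set F)) → (∀ j, L x ≤ L (z j)) → ¬ ∀ j, L (z (j + 1)) < L (z j)

/-! ## Part C: exchange -/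

/-- **Exc** (150 lines). Allowed: `S_Lf`, `S_Pur`, `S_LS`, `S_Dsc`. Exchange over subsets of `D`.
PROOF. Let `¬ Exch A`, `L` from `S_Lf`. There is `x ∉ k` (`DD F ∈ SS F` is `PP K`, `K ≠ ⊤`; `PP` is injective).
Characteristic zero: `S_Pur` with `p = 1` (`ExpChar F 1`) gives `L x = ⊤`, contradiction to `ne`.
Characteristic `p`, `Cl A ≠ D`: `Cl A ⊆ D` (`Cl_subset_PP`), take `a ∈ D`, `a ∉ Cl A`. `A` is small, `Cl A ∈ JJ`, and
`x ∉ Cl A`, so there is `h ∈ H` which fixes `Cl A` pointwise with `h a = x`. Let `y j = x ^ p ^ j ∉ k`; `L (y (j+1)) < L (y j)`: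
`≤` by `mono`, `≠` by the first part of `S_LS`. `h '' PP (L (y j)) = h '' Cl (A + y j) = Cl (A + h (y j))`
contains `h a = x` (`a ∈ D ⊆ PP (L (y j))` by `LFam.le`). If `h (y j) ∈ D` then `Cl (A + h (y j)) ⊆ D` does not contain
`x`; so `h (y j) = z j` with `z j ∉ k`, `h '' PP (L (y j)) = PP (L (z j))`, `x ∈ L (z j)`, `L x ≤ L (z j)`, and
`L (z (j+1)) < L (z j)` (`h` is injective, `PP` is strictly monotone). Contradiction to `S_Dsc`. -/
def S_Exc : Prop := ∀ (F : Type u) [Field F] [IsAlgClosed F] (H : Subgroup (Equiv.Perm (OnePoint F))) (n : ℕ),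
  Setup0 H n → TD1 F → ∀ A : Set (OnePoint F), A ⊆ DD F → (CharZero F ∨ Cl H A ≠ DD F) → Exch H (SS F) A

end Pool.Agent.MPa267.D1
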