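import Pool.Agent.Lib.MP_a267a3_lc.D1.End
import Pool.Agent.Lib.MP_a267a3_lc.D1.Spec

/-!
# MP_a267a3_lc, transcendence degree one: the theorem on the projective line
-/

set_option autoImplicit false

namespace Pool.Agent.MPa267.D1

open OnePoint

universe u

namespace MainAux

theorem image_inv_image {X : Type u} (h : Equiv.Perm X) (A : Set X) :
    (h⁻¹ : Equiv.Perm X) '' (h '' A) = A := by
  rw [← Set.image_comp]
  have : (h⁻¹ : Equiv.Perm X) ∘ h = id := by
    funext y; exact h.symm_apply_apply y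
  rw [this, Set.image_id]

/-- exchange over a finite set follows from exchange over its translate in `D` -/
theorem exch_of_move {F : Type u} [Field F] [IsAlgClosed F]
    {H : Subgroup (Equiv.Perm (OnePoint F))} {n : ℕ} (s : Setup0 H n) (hExc : S_Exc.{u})
    (h1 : TD1 F) (Y : Finset (OnePoint F)) (hY : Y.card ≤ n)
    (hne : ∀ Z : Finset (OnePoint F), Z.card = Y.card → (Z : Set (OnePoint F)) ⊆ DD F →
      Cl H (Z : Set (OnePoint F)) ≠ DD F) : Exch H (SS F) (Y : Set (OnePoint F)) := by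
  classical
  obtain ⟨h, hh, hf⟩ := s.abs.exists_move_into Y hY
  have e1 : h '' (Y : Set (OnePoint F)) ⊆ DD F := by
    rintro _ ⟨a, ha, rfl⟩; exact hf a ha
  have e2 : Exch H (SS F) (h '' (Y : Set (OnePoint F))) := by
    refine hExc F H n s h1 _ e1 (Or.inr ?_)
    have := hne (Y.image h) (Finset.card_image_of_injective _ h.injective) (by
      rw [Finset.coe_image]; exact e1)
    rwa [Finset.coe_image] at this
  have e3 := exch_image (H.inv_mem hh) e2
  rwa [image_inv_image] at e3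

end MainAux

/-- the theorem on the projective line -/
theorem line_main {F : Type u} [Field F] [IsAlgClosed F] (hExc : S_Exc.{u}) (h1 : TD1 F)
    (htr : ∃ t : F, t ∉ acl (∅ : Set F)) (H : Subgroup (Equiv.Perm (OnePoint F)))
    (hG : GG F ≤ H) (hcl : IsClosedP H) (hne : ¬ H ≤ GG F) (hne' : H ≠ ⊤) :
    ∃ n : ℕ, Odd n ∧ 5 ≤ n ∧ MT H n ∧ ¬ MT H (n + 1) ∧
      ∀ A : Finset (OnePoint F), A.card = n →
        ∃! P : Set (OnePoint F), (∃ h ∈ H, P = h '' DD F) ∧ (A : Set (OnePoint F)) ⊆ P := by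
  classical
  obtain ⟨t, ht⟩ := htr
  obtain ⟨n, s0⟩ := exists_setup0 ⟨t, ht⟩ H hG hcl hne hne'
  have hkne : acl (∅ : Set F) ≠ ⊤ := acl_ne_top_of_not_mem ht
  have hkcl : IsAlgClosed (acl (∅ : Set F)) := isAlgClosed_acl _
  -- exchange below `n`
  have hex : ∀ Y : Finset (OnePoint F), Y.card < n → Exch H (SS F) (Y : Set (OnePoint F)) := by
    intro Y hY
    refine MainAux.exch_of_move s0 hExc h1 Y hY.le ?_
    intro Z hZ _ hcon
    have e1 : Cl H (Z : Set (OnePoint F)) = Z := s0.abs.cl_of_card_lt Z (by omega)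
    have e2 := s0.abs.inf
    change (DD F).Infinite at e2
    rw [← hcon, e1] at e2
    exact e2 (Finset.finite_toSet Z)
  have s : Setup H n := ⟨s0.hG, ⟨s0.abs, hex⟩, s0.four⟩
  have hodd : Odd n := by
    rcases Nat.even_or_odd n with h | h
    · exact (config_even s h ht).elim
    · exact h
  have hn5 : 5 ≤ n := by
    have := s.four
    obtain ⟨q, hq⟩ := hodd
    omega
  -- `D` is a block
  obtain ⟨A₀, hA₀c, hA₀⟩ : ∃ A₀ : Finset (OnePoint F), A₀.card = n ∧
      Cl H (A₀ : Set (OnePoint F)) = DD F := by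
    by_contra hcon
    push Not at hcon
    have hex' : ∀ Y : Finset (OnePoint F), Y.card ≤ n →
        Exch H (SS F) (Y : Set (OnePoint F)) := by
      intro Y hY
      rcases Nat.lt_or_ge Y.card n with hlt | hge
      · exact hex Y hlt
      · refine MainAux.exch_of_move s0 hExc h1 Y hY ?_
        intro Z hZ _
        exact hcon Z (by omega)
    obtain ⟨S, hS, -⟩ := config s hex' ht
    apply hcon S hS.card
    rcases CharP.exists' F with hz | ⟨p, hp, hcp⟩
    · exact block_of_charZero s (fun Y hY => hExc F H n s0 h1 _ hY (Or.inl hz)) hS ht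
    · exact block_of_charP s hS p ht
  refine ⟨n, hodd, hn5, s.abs.trans, s.abs.ntrans, ?_⟩
  intro A hA
  obtain ⟨g, hg, hgA⟩ := s.abs.block_transitive A₀ A hA₀c hA
  change g '' Cl H (A₀ : Set (OnePoint F)) = Cl H (A : Set (OnePoint F)) at hgA
  rw [hA₀] at hgA
  refine ⟨Cl H (A : Set (OnePoint F)), ⟨⟨g, hg, hgA.symm⟩, subset_cl _⟩, ?_⟩
  rintro P ⟨⟨h, hh, rfl⟩, hAP⟩
  -- move `A` into `D`
  have e1 : (((A.image (h⁻¹ : Equiv.Perm (OnePoint F))) : Finset (OnePoint F)) :
      Set (OnePoint F)) ⊆ Cl H (A₀ : Set (OnePoint F)) := by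
    rw [hA₀, Finset.coe_image]
    rintro _ ⟨a, ha, rfl⟩
    obtain ⟨d, hd, hda⟩ := hAP ha
    rw [← hda]
    have : (h⁻¹ : Equiv.Perm (OnePoint F)) (h d) = d := h.symm_apply_apply d
    rw [this]; exact hd
  have e2 := s.abs.block_eq A₀ (A.image (h⁻¹ : Equiv.Perm (OnePoint F))) hA₀c
    (by rw [Finset.card_image_of_injective _ (h⁻¹ : Equiv.Perm (OnePoint F)).injective, hA]) e1
  have e3 : h '' Cl H ((A.image (h⁻¹ : Equiv.Perm (OnePoint F)) : Finset (OnePoint F)) :
      Set (OnePoint F)) = Cl H (A : Set (OnePoint F)) := by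
    change h '' cl H (SS F) _ = _
    rw [image_cl hh]
    change Cl H _ = _
    congr 1
    rw [Finset.coe_image, ← Set.image_comp]
    have : (h : OnePoint F → OnePoint F) ∘ (h⁻¹ : Equiv.Perm (OnePoint F)) = id := by
      funext y; exact h.apply_symm_apply y
    rw [this, Set.image_id]
  have e4 : Cl H ((A.image (h⁻¹ : Equiv.Perm (OnePoint F)) : Finset (OnePoint F)) :
      Set (OnePoint F)) = DD F := by
    rw [← hA₀]; exact e2
  rw [← e3, e4]

end Pool.Agent.MPa267.D1
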