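import Pool.Agent.Lib.MP_a267a3_lc.Setup
import Pool.Agent.Lib.MP_a267a3_lc.D1.AbsC

/-!
# MP_a267a3_lc, transcendence degree one: the set-up

`Setup` as in the main development, but with the exchange property only over the sets with fewer than
`n` points.
-/

set_option autoImplicit false

namespace Pool.Agent.MPa267.D1

open OnePoint

variable {F : Type*} [Field F]

/-- the projective line over the algebraic closure `k` of the prime field -/
abbrev DD (F : Type*) [Field F] : Set (OnePoint F) := PP (acl (∅ : Set F))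

/-- the standing assumptions, with the exchange property below `n` -/
structure Setup (H : Subgroup (Equiv.Perm (OnePoint F))) (n : ℕ) : Prop where
  hG : GG F ≤ H
  abs : ExSetup H (SS F) (DD F) n
  four : 4 ≤ n

/-- the standing assumptions without exchange -/
structure Setup0 (H : Subgroup (Equiv.Perm (OnePoint F))) (n : ℕ) : Prop where
  hG : GG F ≤ H
  abs : AbsSetup H (SS F) (DD F) n
  four : 4 ≤ n

/-- closed groups strictly between `PΓL₂(F)` and `Sym` -/
theorem exists_setup0 [IsAlgClosed F] (htr : ∃ t : F, t ∉ acl (∅ : Set F))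
    (H : Subgroup (Equiv.Perm (OnePoint F))) (hG : GG F ≤ H) (hcl : IsClosedP H)
    (hne : ¬ H ≤ GG F) (hne' : H ≠ ⊤) : ∃ n, Setup0 H n := by
  obtain ⟨t, ht⟩ := htr
  have h4 := four_transitive H hG hne ⟨t, ht⟩
  obtain ⟨n, hn4, hn, hn'⟩ := exists_degree H hcl hne' h4
  have hk : IsAlgClosed (acl (∅ : Set F)) := isAlgClosed_acl _
  refine ⟨n, hG, ⟨?_, ?_, ?_, ?_, hn, hn', by omega⟩, hn4⟩
  · rintro P ⟨K, hK, hKne, rfl⟩
    exact jor_PP H hG K
  · rintro P ⟨K, hK, hKne, rfl⟩ Q ⟨L, hL, hLne, rfl⟩ h hh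
    exact not_cover H hG hcl hne' K L hKne hLne hh
  · exact ⟨_, hk, acl_ne_top_of_not_mem ht, rfl⟩
  · -- infinite
    have hinf : (acl (∅ : Set F) : Set F).Infinite :=
      (UU_infinite (F := F)).mono UU_subset_acl
    refine Set.Infinite.mono ?_ (hinf.image (f := fun x : F => (x : OnePoint F))
      (fun x _ y _ h => coe_eq_coe.1 h))
    rintro _ ⟨x, hx, rfl⟩
    exact (coe_mem_PP _ _).2 hx

end Pool.Agent.MPa267.D1
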